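import Pool.Agent.PTH.Gap
import Pool.Agent.PTH.WEq

/-!
# B1X/App: tails of words; words of gaps   (difficulty 2)

* `sh_app`: the path is `cat u a u₂`, `u₂ τ = pos L (|L| stp a b (τ + a))`, and `pos (A ++ L) = cat (pos A) |A| (pos L)` (`pos_append`).
  `IsSeg u₂ (b - a) (sumZ L)` (`pos_seg`; `stp a b = 0` left of `a`, `1` right of `b`), `SH u₂ (pos L)` by `sh_symm` of `sh_reparam` (with
  `ϑ τ = |L| stp a b (τ + a)`, `M = b - a`), `IsSeg (pos A) |A| e` (`pos_seg`, `sumZ A = e`).  `sh_cat`.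
* `pw_const`: if `γ` is constant on `[a, b]` then `pw γ b = pw γ a y^{b-a}` (induction, `pw γ (n+1) = pw γ n x^{γ (n+1) - γ n} y`).
* `pw_jump`: one row.
-/

open scoped ContDiff Topology
open Set Filter
open Pool.Agent.CSG (stp)

namespace Pool.Agent.B1X

open Pool.Agent.PTH (IsSeg SH pos sumZ gw xs)

theorem sh_app {u : ℝ → ℝ × ℝ} {a b : ℝ} {e : ℤ × ℤ} (hab : a < b) (hu : IsSeg u a e) {A : List (Bool × Bool)}
    (hA : sumZ A = e) (h : SH u (pos A) e) (L : List (Bool × Bool)) :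
    SH (fun σ => u σ + pos L (L.length * stp a b σ)) (pos (A ++ L)) (e + sumZ L) := by
  have hL := PTH.pos_seg L
  have hA' : IsSeg (pos A) A.length e := by
    have := PTH.pos_seg A
    rw [hA] at this
    exact this
  set th : ℝ → ℝ := fun τ => L.length * stp a b (τ + a) with hth
  have hc : Continuous th := by
    have h1 : Continuous fun τ : ℝ => stp a b (τ + a) :=
      (CSG.stp_smooth a b).continuous.comp (continuous_id.add continuous_const)
    exact continuous_const.mul h1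
  have h0 : ∀ τ ≤ 0, th τ = 0 := by
    intro τ hτ
    show (L.length : ℝ) * stp a b (τ + a) = 0
    rw [CSG.stp_zero hab (by linarith), mul_zero]
  have h1 : ∀ τ, b - a ≤ τ → th τ = L.length := by
    intro τ hτ
    show (L.length : ℝ) * stp a b (τ + a) = L.length
    rw [CSG.stp_one hab (by linarith), mul_one]
  have hu2 : IsSeg (pos L ∘ th) (b - a) (sumZ L) := by
    refine ⟨by linarith, hL.cont.comp hc, ?_, ?_, fun τ => hL.avoid _⟩
    · intro τ hτ
      show pos L (th τ) = (0, 0)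
      rw [h0 τ hτ]
      exact hL.start 0 le_rfl
    · intro τ hτ
      show pos L (th τ) = _
      rw [h1 τ hτ]
      exact hL.stop _ le_rfl
  have hSH : SH (pos L ∘ th) (pos L) (sumZ L) :=
    PTH.sh_symm (PTH.sh_reparam (M := b - a) hL th hc (fun τ hτ => (h0 τ hτ).le) (fun τ hτ => (h1 τ hτ).ge))
  have h2 := PTH.sh_cat hu hA' hu2 hL h hSH
  have e1 : PTH.cat u a (pos L ∘ th) = fun σ => u σ + pos L (L.length * stp a b σ) := by
    funext σ
    show u σ + pos L ((L.length : ℝ) * stp a b (σ - a + a)) = _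
    rw [sub_add_cancel]
  rw [e1, ← PTH.pos_append] at h2
  exact h2

theorem pw_const {γ : ℕ → ℤ} {a b : ℕ} (hab : a ≤ b) (h : ∀ i, a ≤ i → i ≤ b → γ i = γ a) :
    CSW.pw γ b = CSW.pw γ a * CSW.fy ^ (b - a) := by
  induction b, hab using Nat.le_induction with
  | base => simp
  | succ n hn ih =>
    have h1 := ih (fun i hi hi' => h i hi (by omega))
    have h2 : γ (n + 1) - γ n = 0 := by
      rw [h (n + 1) (by omega) le_rfl, h n hn (by omega), sub_self]
    show CSW.pw γ n * CSW.fx ^ (γ (n + 1) - γ n) * CSW.fy = _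
    rw [h2, zpow_zero, mul_one, h1, mul_assoc, ← pow_succ]
    congr 2
    omega

theorem pw_zero {γ : ℕ → ℤ} {b : ℕ} (h : ∀ i, i ≤ b → γ i = 0) : CSW.pw γ b = CSW.fy ^ b := by
  have h1 := pw_const (γ := γ) (a := 0) (b := b) (Nat.zero_le b) (fun i _ hi => by rw [h i hi, h 0 (Nat.zero_le b)])
  rw [h1, Nat.sub_zero]
  show 1 * CSW.fy ^ b = CSW.fy ^ b
  rw [one_mul]

theorem pw_jump {γ : ℕ → ℤ} {a : ℕ} {k : ℤ} (h : γ (a + 1) - γ a = k) : CSW.pw γ (a + 1) = CSW.pw γ a * CSW.fx ^ k * CSW.fy := by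
  subst h
  rfl

end Pool.Agent.B1X
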