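import Pool.Agent.B1X.Defs
import Pool.Agent.RBM.StepL

/-!
# B1X/FnA: elementary functions   (difficulty 2)

`CSG.stp_smooth, stp_zero, stp_one, stp_nonneg, stp_le_one, stp_mono, stp_pos, stp_lt_one`; `RBM.stp_lip` (`8 / (b - a)`), `RBM.StepLip_deriv`.
`sTr_deriv_pos`: for `0 < x < 1` the derivative of `Real.smoothTransition` is
`exp (-x⁻¹) exp (-(1-x)⁻¹) ((x⁻¹)² + ((1-x)⁻¹)²) / (..)² > 0`, see the computation in RBM/StepL (`StepLip_deriv`, the equation `d4`; copy it).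
-/

open scoped Manifold ContDiff Topology
open Set Filter
open Complex (I)
open Pool.Agent.CSG (stp)

namespace Pool.Agent.B1X

theorem sTr_deriv_pos {x : ℝ} (h : 0 < x) (h' : x < 1) : 0 < deriv Real.smoothTransition x := by
  have hx' : x ≠ 0 := h.ne'
  have hx1 : 1 - x ≠ 0 := by linarith
  have hev : Real.smoothTransition =ᶠ[𝓝 x]
      fun y => Real.exp (-y⁻¹) / (Real.exp (-y⁻¹) + Real.exp (-(1 - y)⁻¹)) := by
    filter_upwards [Ioo_mem_nhds h h'] with y hy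
    have hy0 : ¬ y ≤ 0 := not_le.2 hy.1
    have hy1 : ¬ (1 - y ≤ 0) := by
      rw [not_le]
      linarith [hy.2]
    simp only [Real.smoothTransition, expNegInvGlue, hy0, hy1, if_false]
  have d1 : HasDerivAt (fun y : ℝ => Real.exp (-y⁻¹)) (Real.exp (-x⁻¹) * (x⁻¹) ^ 2) x := by
    have h := ((hasDerivAt_inv hx').neg).exp
    have e : Real.exp (-x⁻¹) * (x⁻¹) ^ 2 = Real.exp (-x⁻¹) * (- -(x ^ 2)⁻¹) := by
      rw [neg_neg, inv_pow]
    rw [e]
    exact h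
  have d2 : HasDerivAt (fun y : ℝ => Real.exp (-(1 - y)⁻¹))
      (-(Real.exp (-(1 - x)⁻¹) * ((1 - x)⁻¹) ^ 2)) x := by
    have h1' : HasDerivAt (fun y : ℝ => 1 - y) (-1) x := by
      simpa using (hasDerivAt_id x).const_sub 1
    have h := ((h1'.inv hx1).neg).exp
    have e : -(Real.exp (-(1 - x)⁻¹) * ((1 - x)⁻¹) ^ 2) =
        Real.exp (-(1 - x)⁻¹) * (-(- -1 / (1 - x) ^ 2)) := by
      rw [neg_neg, inv_pow]
      ring
    rw [e]
    exact h
  have hne : Real.exp (-x⁻¹) + Real.exp (-(1 - x)⁻¹) ≠ 0 := by positivity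
  have d3 := d1.div (d1.add d2) hne
  have d4 : deriv Real.smoothTransition x =
      Real.exp (-x⁻¹) * Real.exp (-(1 - x)⁻¹) * ((x⁻¹) ^ 2 + ((1 - x)⁻¹) ^ 2) /
        (Real.exp (-x⁻¹) + Real.exp (-(1 - x)⁻¹)) ^ 2 := by
    rw [hev.deriv_eq]
    have := d3.deriv
    have e2 : deriv (fun y => Real.exp (-y⁻¹) / (Real.exp (-y⁻¹) + Real.exp (-(1 - y)⁻¹))) x =
      deriv ((fun y : ℝ => Real.exp (-y⁻¹)) / ((fun y : ℝ => Real.exp (-y⁻¹)) +
        fun y : ℝ => Real.exp (-(1 - y)⁻¹))) x := rfl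
    rw [e2, this]
    congr 1
    simp only [Pi.add_apply]
    ring
  rw [d4]
  have h1 : 0 < x⁻¹ := inv_pos.2 h
  positivity

/-- positive derivative of `stp` -/
theorem stp_deriv_pos {a b x : ℝ} (hab : a < b) (h : a < x) (h' : x < b) : 0 < deriv (stp a b) x := by
  have hba : 0 < b - a := by linarith
  have h1 : HasDerivAt (fun y : ℝ => (y - a) / (b - a)) (1 / (b - a)) x :=
    ((hasDerivAt_id x).sub_const a).div_const (b - a)
  have hd : Differentiable ℝ Real.smoothTransition :=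
    (Real.smoothTransition.contDiff (n := 1)).differentiable (by norm_num)
  have h2 := (hd ((x - a) / (b - a))).hasDerivAt
  have h3 : HasDerivAt (stp a b) (deriv Real.smoothTransition ((x - a) / (b - a)) * (1 / (b - a))) x :=
    HasDerivAt.comp x h2 h1
  rw [h3.deriv]
  apply mul_pos
  · apply sTr_deriv_pos
    · exact div_pos (by linarith) hba
    · rw [div_lt_one hba]
      linarith
  · positivity

theorem Sf_smooth : ContDiff ℝ ∞ Sf := CSG.stp_smooth _ _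
theorem Sf_nonneg (τ : ℝ) : 0 ≤ Sf τ := CSG.stp_nonneg _ _ _
theorem Sf_le (τ : ℝ) : Sf τ ≤ 1 := CSG.stp_le_one _ _ _
theorem Sf_left {τ : ℝ} (h : τ ≤ 3 / 8) : Sf τ = 0 := CSG.stp_zero (by norm_num) h
theorem Sf_right {τ : ℝ} (h : 5 / 8 ≤ τ) : Sf τ = 1 := CSG.stp_one (by norm_num) h
theorem Sf_lip (τ τ' : ℝ) : |Sf τ - Sf τ'| ≤ 32 * |τ - τ'| := by
  have h := RBM.stp_lip (a := 3 / 8) (b := 5 / 8) (by norm_num) τ τ'
  have e : (8 : ℝ) / (5 / 8 - 3 / 8) = 32 := by norm_num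
  rw [e] at h
  exact h
theorem Sf_mono : Monotone Sf := CSG.stp_mono (by norm_num)

theorem mu_pos : 0 < mu := by unfold mu; norm_num
theorem cf_smooth : ContDiff ℝ ∞ cf := (contDiff_const.add Sf_smooth).mul contDiff_const
theorem cf_ge (τ : ℝ) : 1000 * mu ≤ cf τ := by
  unfold cf
  nlinarith [Sf_nonneg τ, mu_pos, mul_nonneg (Sf_nonneg τ) mu_pos.le]
theorem cf_le (τ : ℝ) : cf τ ≤ 1001 * mu := by
  unfold cf
  have := mul_le_mul_of_nonneg_right (Sf_le τ) mu_pos.le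
  linarith
theorem cf_lip (τ τ' : ℝ) : |cf τ - cf τ'| ≤ |τ - τ'| := by
  have h1 : cf τ - cf τ' = (Sf τ - Sf τ') * mu := by unfold cf; ring
  rw [h1, abs_mul, abs_of_pos mu_pos]
  have h2 := Sf_lip τ τ'
  have h3 : |Sf τ - Sf τ'| * mu ≤ 32 * |τ - τ'| * mu := mul_le_mul_of_nonneg_right h2 mu_pos.le
  have h4 : 32 * |τ - τ'| * mu ≤ |τ - τ'| := by
    unfold mu
    have := abs_nonneg (τ - τ')
    linarith
  exact h3.trans h4

theorem Dq_smooth : ContDiff ℝ ∞ Dq := contDiff_const.sub (CSG.stp_smooth _ _)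
theorem Dq_nonneg (q : ℝ) : 0 ≤ Dq q := by
  have := CSG.stp_le_one (1 / 320000) (1 / 160000) q
  unfold Dq
  linarith
theorem Dq_le (q : ℝ) : Dq q ≤ 1 := by
  have := CSG.stp_nonneg (1 / 320000) (1 / 160000) q
  unfold Dq
  linarith
theorem Dq_left {q : ℝ} (h : q ≤ 1 / 320000) : Dq q = 1 := by
  unfold Dq
  rw [CSG.stp_zero (by norm_num) h, sub_zero]
theorem Dq_right {q : ℝ} (h : 1 / 160000 ≤ q) : Dq q = 0 := by
  unfold Dq
  rw [CSG.stp_one (by norm_num) h, sub_self]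
theorem Dq_pos {q : ℝ} (h : q < 1 / 160000) : 0 < Dq q := by
  have := CSG.stp_lt_one (a := 1 / 320000) (b := 1 / 160000) (by norm_num) h
  unfold Dq
  linarith
theorem Dq_anti : Antitone Dq := by
  intro x y h
  have := CSG.stp_mono (a := 1 / 320000) (b := 1 / 160000) (by norm_num) h
  unfold Dq
  linarith

/-- the argument of the square root is positive -/
theorem Dq_den {q : ℝ} (h : 0 ≤ q) : 0 < q + 1 / 160000 * Dq q := by
  rcases lt_or_ge q (1 / 160000) with h1 | h1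
  · have := Dq_pos h1
    linarith
  · have := Dq_nonneg q
    linarith

theorem u1_pos {r : ℕ} (hr : 1 ≤ r) : 0 < u1 r := by
  have : (1 : ℝ) ≤ r := by exact_mod_cast hr
  unfold u1
  positivity
theorem u1_le {r : ℕ} (hr : 1 ≤ r) : u1 r ≤ 1 / 64 := by
  have : (1 : ℝ) ≤ r := by exact_mod_cast hr
  unfold u1
  rw [div_le_div_iff₀ (by positivity) (by norm_num)]
  linarith
theorem u1_mul {r : ℕ} (hr : 1 ≤ r) : (r : ℝ) * u1 r = 1 / 64 := by
  have : (1 : ℝ) ≤ r := by exact_mod_cast hr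
  have h0 : (r : ℝ) ≠ 0 := by positivity
  unfold u1
  field_simp

theorem g1_smooth : ContDiff ℝ ∞ g1 := CSG.stp_smooth _ _
theorem g1_nonneg (σ : ℝ) : 0 ≤ g1 σ := CSG.stp_nonneg _ _ _
theorem g1_le (σ : ℝ) : g1 σ ≤ 1 := CSG.stp_le_one _ _ _
theorem g1_left {σ : ℝ} (h : σ ≤ 1 / 32) : g1 σ = 0 := CSG.stp_zero (by norm_num) h
theorem g1_right {σ : ℝ} (h : 1 / 16 ≤ σ) : g1 σ = 1 := CSG.stp_one (by norm_num) h
theorem g1_pos {σ : ℝ} (h : 1 / 32 < σ) : 0 < g1 σ := CSG.stp_pos (by norm_num) h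
theorem g1_lt {σ : ℝ} (h : σ < 1 / 16) : g1 σ < 1 := CSG.stp_lt_one (by norm_num) h
theorem g1_deriv {σ : ℝ} (h : 1 / 32 < σ) (h' : σ < 1 / 16) : 0 < deriv g1 σ :=
  stp_deriv_pos (by norm_num) h h'
theorem g1_strict : StrictMonoOn g1 (Icc (1 / 32) (1 / 16)) := by
  apply strictMonoOn_of_deriv_pos (convex_Icc _ _) g1_smooth.continuous.continuousOn
  intro x hx
  rw [interior_Icc] at hx
  exact g1_deriv hx.1 hx.2

theorem nus_smooth : ContDiff ℝ ∞ nus := contDiff_const.sub (CSG.stp_smooth _ _)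
theorem nus_left {σ : ℝ} (h : σ ≤ 13 / 16) : nus σ = 1 := by
  unfold nus
  rw [CSG.stp_zero (by norm_num) h, sub_zero]
theorem nus_right {σ : ℝ} (h : 7 / 8 ≤ σ) : nus σ = 0 := by
  unfold nus
  rw [CSG.stp_one (by norm_num) h, sub_self]
theorem nuf_smooth : ContDiff ℝ ∞ nuf := (CSG.stp_smooth _ _).mul nus_smooth
theorem nuf_mid {ρ : ℝ} (h : 1 / 4 ≤ ρ) : nuf ρ = nus ρ := by
  unfold nuf
  rw [CSG.stp_one (by norm_num) h, one_mul]
theorem nuf_out {ρ : ℝ} (h : ρ ≤ 1 / 8 ∨ 7 / 8 ≤ ρ) : nuf ρ = 0 := by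
  unfold nuf
  rcases h with h | h
  · rw [CSG.stp_zero (by norm_num) h, zero_mul]
  · rw [nus_right h, mul_zero]

end Pool.Agent.B1X
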