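import Pool.Agent.B1X.VpM
import Pool.Agent.B1X.FnA
import Pool.Agent.CSG.LDb

/-!
# B1X/Cap: the capsule   (difficulty 3)

`q = ‖y‖²`, `q₀ = 1/160000`, `D = Dq q`, `A = Ac s = 5/16 + s/64`, `xd = A y / √(q + q₀ D)`, `rd = 1/2 + q/8 - A D/2`.
`xd_sq`: `‖xd‖² (q + q₀ D) = A² q`.

`cap_inj`: `‖xd‖² = A² ψ(q)`, `ψ q = q/(q + q₀ D q)` and `rd` determine `q` and `A`: suppose `(q, A)`, `(q', A')` have the same values and `q < q'`.
If `q ≥ q₀`: `D = D' = 0`, so `rd` gives `q = q'`.  If `q < q₀`: `D q > 0`, and `ψ q < ψ q'` (`Dq_anti`: `q (q' + q₀ D q') < q' (q + q₀ D q)` since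
`q D q' ≤ q D q < q' D q`), so `A² ψ q = A'² ψ q'` and `ψ q' > 0` imply `A' < A` (if `q = 0` then `ψ q' = 0`, contradiction).  Then `A D q > A' D q'`,
so `1/2 + q/8 - A D/2 < 1/2 + q'/8 - A' D'/2`.  So `q = q'`; if `q > 0` then `A² = A'²`; if `q = 0` then `D = 1` and `rd` gives `A = A'`.
Then `xd` gives `y = y'` (same factor, `≠ 0`).

`cap_hbox r : HBox (de r) (3/2) (3/2)`.
* `inj`: `Vp_inj` (`rd > 0`): `rd = rd'`, `xd' = xd + (m + n i)`, `‖xd‖, ‖xd'‖ ≤ A < 1/2`, so `m = n = 0`; `cap_inj`.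
* `inn`: `rd ≤ 1/2 + q/8 < 1`, `rd ≥ 1/2 - A/2 > 0`.
* `loc`: `CSG.ld_of_fderiv` for `Cap_g (y, s) = (xd, rd)` and `Vp_ld`.  Let `(η, t)` be in the kernel of the derivative at `(y, s)`; take the derivatives
  at `0` of `h ↦ xd (y + h η) (s + h t)` and `rd`.  Let `e = re (y conj η)`, `q' = 2 e` (derivative of `‖y + h η‖²`), `A' = t/64`, `E = q + q₀ D`, `D' = Dq' q ≤ 0`.
  (i) `A η/√E + y (A'/√E - A (1 + q₀ D') q'/(2 E √E)) = 0`, i.e. `η = κ y` with `κ = -A'/A + (1 + q₀ D') q'/(2 E)`;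
  (ii) `q'/8 - A' D/2 - A D' q'/2 = 0`.
  If `y = 0`: `η = 0`, `q' = 0`, `D = 1`, (ii) gives `A' = 0`, `t = 0`.  If `y ≠ 0`: `q' = 2 κ q` and (i) gives `κ (E - q - q₀ q D') / E = -A'/A`, i.e.
  `κ q₀ (D - q D') / E = -A'/A`; (ii) gives `κ q (1/4 - A D') = A' D/2`.  Multiply: `κ² (q₀ (D - q D')/E) (q (1/4 - A D')) = -A'² D/(2 A) ≤ 0`, so
  `κ = 0` (then `η = 0`, `A' = 0`), or `D - q D' = 0`, i.e. `D = 0`, `D' = 0`: then (i) gives `A' = 0` and (ii) `κ q/4 = 0`, `κ = 0`.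
-/

open scoped Manifold ContDiff Topology
open Set Filter
open Complex (I)

namespace Pool.Agent.B1X

open Pool.Agent.SPR (MT HBox)

theorem Cap_den (y : ℂ) : 0 < ‖y‖ ^ 2 + 1 / 160000 * Dq (‖y‖ ^ 2) := Dq_den (by positivity)

theorem Cap_Apos {s : ℝ} (h : |s| < 20) : 0 < Ac s := by
  have h1 := (abs_lt.1 h).1
  unfold Ac
  linarith

theorem xd_sq (y : ℂ) (s : ℝ) : ‖xd y s‖ ^ 2 * (‖y‖ ^ 2 + 1 / 160000 * Dq (‖y‖ ^ 2)) = Ac s ^ 2 * ‖y‖ ^ 2 := by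
  have hd := Cap_den y
  have hs : √(‖y‖ ^ 2 + 1 / 160000 * Dq (‖y‖ ^ 2)) ^ 2 = ‖y‖ ^ 2 + 1 / 160000 * Dq (‖y‖ ^ 2) := Real.sq_sqrt hd.le
  have hn : √(‖y‖ ^ 2 + 1 / 160000 * Dq (‖y‖ ^ 2)) ≠ 0 := (Real.sqrt_pos.2 hd).ne'
  unfold xd
  rw [norm_mul, Complex.norm_real, Real.norm_eq_abs, mul_pow, sq_abs, div_pow]
  rw [hs, div_mul_eq_mul_div, div_mul_cancel₀ _ hd.ne']

theorem xd_le (y : ℂ) {s : ℝ} (h : |s| < 20) : ‖xd y s‖ ≤ Ac s := by
  have hA := Cap_Apos h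
  have hd := Cap_den y
  have h1 := xd_sq y s
  have h2 : ‖y‖ ^ 2 ≤ ‖y‖ ^ 2 + 1 / 160000 * Dq (‖y‖ ^ 2) := by
    have := Dq_nonneg (‖y‖ ^ 2)
    linarith
  have h3 : ‖xd y s‖ ^ 2 * (‖y‖ ^ 2 + 1 / 160000 * Dq (‖y‖ ^ 2)) ≤
      Ac s ^ 2 * (‖y‖ ^ 2 + 1 / 160000 * Dq (‖y‖ ^ 2)) := by
    rw [h1]
    exact mul_le_mul_of_nonneg_left h2 (by positivity)
  have h4 : ‖xd y s‖ ^ 2 ≤ Ac s ^ 2 := le_of_mul_le_mul_right h3 hd
  exact (pow_le_pow_iff_left₀ (norm_nonneg _) hA.le (by norm_num)).1 h4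

theorem xd_out {y : ℂ} (h : 1 / 160000 ≤ ‖y‖ ^ 2) (s : ℝ) : xd y s = (Ac s : ℂ) * Wn y := by
  have hs : √(‖y‖ ^ 2 + 1 / 160000 * Dq (‖y‖ ^ 2)) = ‖y‖ := by
    rw [Dq_right h, mul_zero, add_zero]
    exact Real.sqrt_sq (norm_nonneg _)
  unfold xd Wn
  rw [hs]
  push_cast
  ring

theorem rd_out {y : ℂ} (h : 1 / 160000 ≤ ‖y‖ ^ 2) (s : ℝ) : rd y s = rr (‖y‖ ^ 2) := by
  unfold rd rr
  rw [Dq_right h]
  ring

theorem rd_in {y : ℂ} (h : ‖y‖ ^ 2 < 1 / 160000) {s : ℝ} (hs : |s| < 20) : rd y s < 1 / 2 + 1 / 1280000 := by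
  have hA := Cap_Apos hs
  have hD := Dq_nonneg (‖y‖ ^ 2)
  have : 0 ≤ Ac s / 2 * Dq (‖y‖ ^ 2) := by positivity
  unfold rd
  linarith

theorem rd_le {y : ℂ} {s : ℝ} (h : ‖y‖ ≤ 1) (hs : |s| < 20) : rd y s ≤ 5 / 8 := by
  have hA := Cap_Apos hs
  have hD := Dq_nonneg (‖y‖ ^ 2)
  have h1 : 0 ≤ Ac s / 2 * Dq (‖y‖ ^ 2) := by positivity
  have h2 : ‖y‖ ^ 2 ≤ 1 := by
    have := norm_nonneg y
    nlinarith
  unfold rd
  linarith

theorem rd_pos {y : ℂ} {s : ℝ} (hs : |s| < 3 / 2) : 0 < rd y s := by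
  have hA := Cap_Apos (s := s) (by linarith)
  have hA' : Ac s < 1 / 2 := by
    have := (abs_lt.1 hs).2
    unfold Ac
    linarith
  have hD := Dq_nonneg (‖y‖ ^ 2)
  have hD' := Dq_le (‖y‖ ^ 2)
  have h1 : Ac s / 2 * Dq (‖y‖ ^ 2) ≤ 1 / 4 := by nlinarith
  have h2 : 0 ≤ ‖y‖ ^ 2 := by positivity
  unfold rd
  linarith

/-- near the axis the capsule is at a radius `< 3/8`: `‖xd‖² ≥ A²/3` if `q ≥ q₀/2`; otherwise `D = 1`, `rd = 1/2 + q/8 - A/2` -/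
theorem rd_small {y : ℂ} {s : ℝ} (hs : |s| ≤ 1) (h : ‖xd y s‖ ≤ 1 / 32) : rd y s ≤ 23 / 64 := by
  have hs' := abs_le.1 hs
  have hA1 : 19 / 64 ≤ Ac s := by unfold Ac; linarith [hs'.1]
  have hA2 : Ac s ≤ 21 / 64 := by unfold Ac; linarith [hs'.2]
  have hd := Cap_den y
  have hD := Dq_nonneg (‖y‖ ^ 2)
  have hD' := Dq_le (‖y‖ ^ 2)
  rcases le_or_gt (1 / 320000) (‖y‖ ^ 2) with hq | hq
  · exfalso
    have h1 := xd_sq y s
    have h2 : ‖xd y s‖ ^ 2 ≤ 1 / 1024 := by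
      have := norm_nonneg (xd y s)
      nlinarith
    have h3 : ‖y‖ ^ 2 + 1 / 160000 * Dq (‖y‖ ^ 2) ≤ 3 * ‖y‖ ^ 2 := by linarith
    have h4 : ‖xd y s‖ ^ 2 * (‖y‖ ^ 2 + 1 / 160000 * Dq (‖y‖ ^ 2)) ≤ 1 / 1024 * (3 * ‖y‖ ^ 2) := by
      apply mul_le_mul h2 h3 hd.le (by norm_num)
    have h5 : (19 / 64) ^ 2 * ‖y‖ ^ 2 ≤ Ac s ^ 2 * ‖y‖ ^ 2 := by
      apply mul_le_mul_of_nonneg_right _ (by positivity)
      nlinarith
    nlinarith
  · have h1 := Dq_left hq.le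
    unfold rd
    rw [h1]
    linarith

theorem Cap_lt {y y' : ℂ} {s s' : ℝ} (hs : |s| < 20) (hs' : |s'| < 20) (h : xd y s = xd y' s') (h' : rd y s = rd y' s')
    (hlt : ‖y‖ ^ 2 < ‖y'‖ ^ 2) : False := by
  have hA := Cap_Apos hs
  have hA' := Cap_Apos hs'
  have hd := Cap_den y
  have hd' := Cap_den y'
  have e1 := xd_sq y s
  have e2 := xd_sq y' s'
  rw [← h] at e2
  have hDD : Dq (‖y'‖ ^ 2) ≤ Dq (‖y‖ ^ 2) := Dq_anti hlt.le
  have hD' := Dq_nonneg (‖y'‖ ^ 2)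
  unfold rd at h'
  rcases le_or_gt (1 / 160000) (‖y‖ ^ 2) with hq | hq
  · rw [Dq_right hq, Dq_right (hq.trans hlt.le)] at h'
    linarith
  · have hDp := Dq_pos hq
    have hq0 : 0 ≤ ‖y‖ ^ 2 := by positivity
    set q := ‖y‖ ^ 2 with hqd
    set q' := ‖y'‖ ^ 2 with hqd'
    set D := Dq q
    set D' := Dq q'
    set X := ‖xd y s‖ ^ 2
    have hX : 0 < X := by
      have : 0 < X * (q' + 1 / 160000 * D') := by
        rw [e2]
        have : 0 < q' := lt_of_le_of_lt hq0 hlt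
        positivity
      exact pos_of_mul_pos_left this hd'.le
    -- q (q' + q0 D') < q' (q + q0 D)
    have h1 : q * (q' + 1 / 160000 * D') < q' * (q + 1 / 160000 * D) := by nlinarith
    -- A'^2 < A^2
    have h2 : Ac s' ^ 2 < Ac s ^ 2 := by
      by_contra hcon
      push Not at hcon
      have h3 : Ac s ^ 2 * (q * (q' + 1 / 160000 * D')) ≤ Ac s' ^ 2 * (q * (q' + 1 / 160000 * D')) :=
        mul_le_mul_of_nonneg_right hcon (by positivity)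
      have h4 : Ac s' ^ 2 * (q * (q' + 1 / 160000 * D')) < Ac s' ^ 2 * (q' * (q + 1 / 160000 * D)) :=
        mul_lt_mul_of_pos_left h1 (by positivity)
      have h5 : Ac s ^ 2 * (q * (q' + 1 / 160000 * D')) = X * (q + 1 / 160000 * D) * (q' + 1 / 160000 * D') := by
        rw [e1]; ring
      have h6 : Ac s' ^ 2 * (q' * (q + 1 / 160000 * D)) = X * (q + 1 / 160000 * D) * (q' + 1 / 160000 * D') := by
        calc Ac s' ^ 2 * (q' * (q + 1 / 160000 * D)) = (Ac s' ^ 2 * q') * (q + 1 / 160000 * D) := by ring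
          _ = _ := by rw [← e2]; ring
      linarith
    have h3 : Ac s' < Ac s := (pow_lt_pow_iff_left₀ hA'.le hA.le (by norm_num)).1 h2
    have h4 : Ac s' / 2 * D' ≤ Ac s / 2 * D := by
      apply mul_le_mul (by linarith) hDD hD' (by positivity)
    linarith

theorem cap_inj {y y' : ℂ} {s s' : ℝ} (hs : |s| < 20) (hs' : |s'| < 20) (h : xd y s = xd y' s') (h' : rd y s = rd y' s') :
    y = y' ∧ s = s' := by
  have hA := Cap_Apos hs
  have hA' := Cap_Apos hs'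
  have hq : ‖y‖ ^ 2 = ‖y'‖ ^ 2 := by
    rcases lt_trichotomy (‖y‖ ^ 2) (‖y'‖ ^ 2) with h1 | h1 | h1
    · exact (Cap_lt hs hs' h h' h1).elim
    · exact h1
    · exact (Cap_lt hs' hs h.symm h'.symm h1).elim
  have hd := Cap_den y
  have e1 := xd_sq y s
  have e2 := xd_sq y' s'
  rw [← h, ← hq] at e2
  have hAA : Ac s = Ac s' := by
    rcases (show (0 : ℝ) ≤ ‖y‖ ^ 2 by positivity).eq_or_lt with h0 | h0
    · have hD : Dq (‖y‖ ^ 2) = 1 := Dq_left (by rw [← h0]; norm_num)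
      unfold rd at h'
      rw [← hq, hD] at h'
      linarith
    · have h1 : Ac s ^ 2 * ‖y‖ ^ 2 = Ac s' ^ 2 * ‖y‖ ^ 2 := e1.symm.trans e2
      have h2 : Ac s ^ 2 = Ac s' ^ 2 := mul_right_cancel₀ h0.ne' h1
      exact (pow_left_inj₀ hA.le hA'.le (by norm_num)).1 h2
  have hss : s = s' := by
    unfold Ac at hAA
    linarith
  refine ⟨?_, hss⟩
  subst hss
  unfold xd at h
  rw [← hq] at h
  have hc : ((Ac s / √(‖y‖ ^ 2 + 1 / 160000 * Dq (‖y‖ ^ 2)) : ℝ) : ℂ) ≠ 0 := by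
    have := Real.sqrt_pos.2 hd
    exact_mod_cast (div_pos hA this).ne'
  exact mul_left_cancel₀ hc h

theorem Cap_Ac_smooth : ContDiff ℝ ∞ Ac := by
  unfold Ac
  fun_prop

theorem Cap_xd_smooth : ContDiff ℝ ∞ fun q : ℂ × ℝ => xd q.1 q.2 := by
  have h1 : ContDiff ℝ ∞ fun q : ℂ × ℝ => ‖q.1‖ ^ 2 := (contDiff_norm_sq ℝ).comp contDiff_fst
  have h2 : ContDiff ℝ ∞ fun q : ℂ × ℝ => ‖q.1‖ ^ 2 + 1 / 160000 * Dq (‖q.1‖ ^ 2) :=
    h1.add (contDiff_const.mul (Dq_smooth.comp h1))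
  have h3 : ContDiff ℝ ∞ fun q : ℂ × ℝ => √(‖q.1‖ ^ 2 + 1 / 160000 * Dq (‖q.1‖ ^ 2)) :=
    h2.sqrt fun q => (Cap_den q.1).ne'
  have h4 : ContDiff ℝ ∞ fun q : ℂ × ℝ => Ac q.2 / √(‖q.1‖ ^ 2 + 1 / 160000 * Dq (‖q.1‖ ^ 2)) :=
    (Cap_Ac_smooth.comp contDiff_snd).div h3 fun q => (Real.sqrt_pos.2 (Cap_den q.1)).ne'
  exact (Complex.ofRealCLM.contDiff.comp h4).mul contDiff_fst

theorem Cap_rd_smooth : ContDiff ℝ ∞ fun q : ℂ × ℝ => rd q.1 q.2 := by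
  have h1 : ContDiff ℝ ∞ fun q : ℂ × ℝ => ‖q.1‖ ^ 2 := (contDiff_norm_sq ℝ).comp contDiff_fst
  exact (contDiff_const.add (h1.div_const 8)).sub
    (((Cap_Ac_smooth.comp contDiff_snd).div_const 2).mul (Dq_smooth.comp h1))

theorem Cap_ld (y : ℂ) {s : ℝ} (hs : |s| < 20) :
    IsLocalDiffeomorphAt 𝓘(ℝ, ℂ × ℝ) 𝓘(ℝ, ℂ × ℝ) ∞ (fun q : ℂ × ℝ => (xd q.1 q.2, rd q.1 q.2)) (y, s) := by
  have hn : (∞ : WithTop ℕ∞) ≠ 0 := by simp
  have hsm : ContDiff ℝ ∞ fun q : ℂ × ℝ => (xd q.1 q.2, rd q.1 q.2) := Cap_xd_smooth.prodMk Cap_rd_smooth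
  refine CSG.ld_of_fderiv (Filter.Eventually.of_forall fun y => hsm.contDiffAt) rfl ?_
  rintro ⟨η, t⟩ hv
  have hfd : HasFDerivAt (fun q : ℂ × ℝ => (xd q.1 q.2, rd q.1 q.2))
      (fderiv ℝ (fun q : ℂ × ℝ => (xd q.1 q.2, rd q.1 q.2)) (y, s)) (y, s) :=
    (hsm.differentiable hn (y, s)).hasFDerivAt
  -- the curve
  have hc1 : HasDerivAt (fun h : ℝ => y + (h : ℂ) * η) η 0 := by
    have := ((Complex.ofRealCLM.hasDerivAt (x := (0 : ℝ))).mul_const η).const_add y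
    simpa using this
  have hc2 : HasDerivAt (fun h : ℝ => s + h * t) t 0 := by
    have := ((hasDerivAt_id (0 : ℝ)).mul_const t).const_add s
    simpa using this
  have hcur : HasDerivAt (fun h : ℝ => ((y + (h : ℂ) * η, s + h * t) : ℂ × ℝ)) (η, t) 0 := hc1.prodMk hc2
  have hcomp : HasDerivAt (fun h : ℝ => (xd (y + (h : ℂ) * η) (s + h * t), rd (y + (h : ℂ) * η) (s + h * t)))
      (0 : ℂ × ℝ) 0 := by
    have hfd' : HasFDerivAt (fun q : ℂ × ℝ => (xd q.1 q.2, rd q.1 q.2))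
      (fderiv ℝ (fun q : ℂ × ℝ => (xd q.1 q.2, rd q.1 q.2)) (y, s))
      ((fun h : ℝ => ((y + (h : ℂ) * η, s + h * t) : ℂ × ℝ)) 0) := by
      have : ((fun h : ℝ => ((y + (h : ℂ) * η, s + h * t) : ℂ × ℝ)) 0) = (y, s) := by simp
      rw [this]
      exact hfd
    have := hfd'.comp_hasDerivAt (0 : ℝ) hcur
    rw [hv] at this
    exact this
  have hx : HasDerivAt (fun h : ℝ => xd (y + (h : ℂ) * η) (s + h * t)) 0 0 := hcomp.fst
  have hr : HasDerivAt (fun h : ℝ => rd (y + (h : ℂ) * η) (s + h * t)) 0 0 := hcomp.snd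
  -- derivatives of the pieces
  set q : ℝ := ‖y‖ ^ 2 with hq
  set q1 : ℝ := 2 * inner ℝ y η with hq1
  have hqd : HasDerivAt (fun h : ℝ => ‖y + (h : ℂ) * η‖ ^ 2) q1 0 := by
    have := hc1.norm_sq
    have e0 : y + ((0 : ℝ) : ℂ) * η = y := by simp
    rw [e0] at this
    exact this
  have hDd : HasDerivAt Dq (deriv Dq q) ((fun h : ℝ => ‖y + (h : ℂ) * η‖ ^ 2) 0) := by
    have h0 : (fun h : ℝ => ‖y + (h : ℂ) * η‖ ^ 2) 0 = q := by simp [hq]
    rw [h0]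
    exact (Dq_smooth.differentiable hn q).hasDerivAt
  have hDc : HasDerivAt (fun h : ℝ => Dq (‖y + (h : ℂ) * η‖ ^ 2)) (deriv Dq q * q1) 0 :=
    HasDerivAt.comp (h₂ := Dq) (h := fun h : ℝ => ‖y + (h : ℂ) * η‖ ^ 2) (0 : ℝ) hDd hqd
  have hE : HasDerivAt (fun h : ℝ => ‖y + (h : ℂ) * η‖ ^ 2 + 1 / 160000 * Dq (‖y + (h : ℂ) * η‖ ^ 2))
      (q1 + 1 / 160000 * (deriv Dq q * q1)) 0 := hqd.add (hDc.const_mul _)
  set E : ℝ := q + 1 / 160000 * Dq q with hEdef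
  have hEpos : 0 < E := Cap_den y
  have hE0 : ‖y + ((0 : ℝ) : ℂ) * η‖ ^ 2 + 1 / 160000 * Dq (‖y + ((0 : ℝ) : ℂ) * η‖ ^ 2) = E := by
    simp [hEdef, hq]
  have hsq : HasDerivAt (fun h : ℝ => √(‖y + (h : ℂ) * η‖ ^ 2 + 1 / 160000 * Dq (‖y + (h : ℂ) * η‖ ^ 2)))
      ((q1 + 1 / 160000 * (deriv Dq q * q1)) / (2 * √E)) 0 := by
    have := hE.sqrt (by rw [hE0]; exact hEpos.ne')
    rw [hE0] at this
    exact this
  have hAd : HasDerivAt (fun h : ℝ => Ac (s + h * t)) (t / 64) 0 := by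
    unfold Ac
    exact (hc2.div_const 64).const_add _
  have hA := Cap_Apos hs
  set A : ℝ := Ac s with hAdef
  have hsE : 0 < √E := Real.sqrt_pos.2 hEpos
  have hsE2 : √E ^ 2 = E := Real.sq_sqrt hEpos.le
  have hF : HasDerivAt (fun h : ℝ => Ac (s + h * t) / √(‖y + (h : ℂ) * η‖ ^ 2 + 1 / 160000 * Dq (‖y + (h : ℂ) * η‖ ^ 2)))
      ((t / 64 * √E - A * ((q1 + 1 / 160000 * (deriv Dq q * q1)) / (2 * √E))) / √E ^ 2) 0 := by
    have := hAd.div hsq (by rw [hE0]; exact hsE.ne')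
    rw [hE0, zero_mul, add_zero] at this
    exact this
  set F1 : ℝ := (t / 64 * √E - A * ((q1 + 1 / 160000 * (deriv Dq q * q1)) / (2 * √E))) / √E ^ 2 with hF1
  have hxd : HasDerivAt (fun h : ℝ => xd (y + (h : ℂ) * η) (s + h * t)) ((F1 : ℂ) * y + ((A / √E : ℝ) : ℂ) * η) 0 := by
    have h1 := (hF.ofReal_comp).mul hc1
    have : (F1 : ℂ) * y + ((A / √E : ℝ) : ℂ) * η = (F1 : ℂ) * (y + ((0 : ℝ) : ℂ) * η) +
      ((Ac (s + 0 * t) / √(‖y + ((0 : ℝ) : ℂ) * η‖ ^ 2 + 1 / 160000 * Dq (‖y + ((0 : ℝ) : ℂ) * η‖ ^ 2)) : ℝ) : ℂ) * η := by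
      simp [hAdef, hEdef, hq]
    rw [this]
    exact h1
  have hrd : HasDerivAt (fun h : ℝ => rd (y + (h : ℂ) * η) (s + h * t))
      (q1 / 8 - (t / 64 / 2 * Dq q + A / 2 * (deriv Dq q * q1))) 0 := by
    have h1 := ((hqd.div_const 8).const_add (1 / 2)).sub ((hAd.div_const 2).mul hDc)
    have e0 : y + ((0 : ℝ) : ℂ) * η = y := by simp
    rw [e0, zero_mul, add_zero] at h1
    exact h1
  have i1 := hxd.unique hx
  have i2 := hrd.unique hr
  -- kappa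
  set κ : ℝ := -(F1 / (A / √E)) with hκ
  have hAE : 0 < A / √E := div_pos hA hsE
  have hη : η = (κ : ℂ) * y := by
    have h1 : ((A / √E : ℝ) : ℂ) ≠ 0 := by exact_mod_cast hAE.ne'
    apply mul_left_cancel₀ h1
    have h2 : ((A / √E : ℝ) : ℂ) * ((κ : ℂ) * y) = -((F1 : ℂ) * y) := by
      have h3 : (A / √E) * κ = -F1 := by
        rw [hκ]
        field_simp
      calc ((A / √E : ℝ) : ℂ) * ((κ : ℂ) * y) = (((A / √E) * κ : ℝ) : ℂ) * y := by push_cast; ring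
        _ = _ := by rw [h3]; push_cast; ring
    rw [h2]
    linear_combination i1
  have hq1' : q1 = 2 * (κ * q) := by
    rw [hq1, hη, show (κ : ℂ) * y = κ • y by rw [Complex.real_smul], real_inner_smul_right, real_inner_self_eq_norm_sq]
  have hκ' : κ * (A * E) = -(t / 64 * E) + A * (q1 + 1 / 160000 * (deriv Dq q * q1)) / 2 := by
    have h3 : (A / √E) * κ = -F1 := by
      rw [hκ]
      field_simp
    have h4 : F1 * √E ^ 2 = t / 64 * √E - A * ((q1 + 1 / 160000 * (deriv Dq q * q1)) / (2 * √E)) := by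
      rw [hF1, div_mul_cancel₀ _ (by positivity)]
    have h5 : (A / √E) * κ * √E ^ 2 * √E = κ * (A * E) := by
      calc (A / √E) * κ * √E ^ 2 * √E = κ * (A * √E ^ 2) * (√E / √E) := by ring
        _ = _ := by rw [div_self hsE.ne', mul_one, hsE2]
    have h6 : -F1 * √E ^ 2 * √E = -(t / 64 * E) + A * (q1 + 1 / 160000 * (deriv Dq q * q1)) / 2 := by
      rw [neg_mul, h4]
      have : t / 64 * E = t / 64 * √E ^ 2 := by rw [hsE2]
      rw [this]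
      field_simp
      ring
    rw [← h5, h3, h6]
  have hD0 := Dq_nonneg q
  have hD1 : deriv Dq q ≤ 0 := Dq_anti.deriv_nonpos
  have hq0 : 0 ≤ q := by positivity
  set D := Dq q
  set D' := deriv Dq q
  -- (i) κ q0 (D - q D') A = - t/64 E ; (ii) κ q (1/4 - A D') = t/64 D / 2
  have j1 : κ * (1 / 160000 * (D - q * D')) * A = -(t / 64 * E) := by
    rw [hq1'] at hκ'
    rw [hEdef] at hκ' ⊢
    linear_combination hκ'
  have j2 : κ * q * (1 / 4 - A * D') = t / 64 * D / 2 := by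
    rw [hq1'] at i2
    linear_combination i2
  have k1 : κ ^ 2 * (1 / 160000 * (D - q * D')) * A * (q * (1 / 4 - A * D')) = -((t / 64) ^ 2 * (E * D) / 2) := by
    calc κ ^ 2 * (1 / 160000 * (D - q * D')) * A * (q * (1 / 4 - A * D')) =
        (κ * (1 / 160000 * (D - q * D')) * A) * (κ * q * (1 / 4 - A * D')) := by ring
      _ = _ := by rw [j1, j2]; ring
  have p1 : 0 ≤ D - q * D' := by nlinarith
  have p2 : 0 < 1 / 4 - A * D' := by nlinarith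
  have p3 : 0 ≤ κ ^ 2 * (1 / 160000 * (D - q * D')) * A * (q * (1 / 4 - A * D')) := by positivity
  have p4 : 0 ≤ (t / 64) ^ 2 * (E * D) / 2 := by positivity
  have p5 : κ ^ 2 * (1 / 160000 * (D - q * D')) * A * (q * (1 / 4 - A * D')) = 0 := by linarith
  have fin0 : κ = 0 ∨ y = 0 → (η, t) = (0 : ℂ × ℝ) := by
    rintro (h0 | h0)
    · have : t = 0 := by
        rw [h0] at j1
        have : t / 64 * E = 0 := by linarith
        rcases mul_eq_zero.1 this with h | h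
        · linarith
        · exact absurd h hEpos.ne'
      rw [hη, h0, this]
      simp
    · have hqz : q = 0 := by rw [hq, h0]; simp
      have hD : D = 1 := by
        have : Dq q = 1 := Dq_left (by rw [hqz]; norm_num)
        exact this
      have : t = 0 := by
        rw [hqz, hD] at j2
        linarith
      rw [hη, h0, this]
      simp
  rcases eq_or_ne κ 0 with h0 | h0
  · exact fin0 (Or.inl h0)
  rcases eq_or_ne y 0 with h1 | h1
  · exact fin0 (Or.inr h1)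
  exfalso
  have hqp : 0 < q := by positivity
  have p6 : D - q * D' = 0 := by
    by_contra hne
    have : 0 < D - q * D' := lt_of_le_of_ne p1 (Ne.symm hne)
    have h2 : 0 < κ ^ 2 := by positivity
    have : 0 < κ ^ 2 * (1 / 160000 * (D - q * D')) * A * (q * (1 / 4 - A * D')) := by positivity
    linarith
  have p7 : D = 0 := by nlinarith
  have p8 : t = 0 := by
    rw [p6] at j1
    have : t / 64 * E = 0 := by linarith
    rcases mul_eq_zero.1 this with h | h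
    · linarith
    · exact absurd h hEpos.ne'
  rw [p8] at j2
  have : κ * q * (1 / 4 - A * D') = 0 := by rw [j2]; ring
  rcases mul_eq_zero.1 this with h | h
  · rcases mul_eq_zero.1 h with h | h
    · exact h0 h
    · exact hqp.ne' h
  · exact p2.ne' h

theorem cap_hbox (r : ℕ) : HBox (de r) (3 / 2) (3 / 2) where
  loc := by
    intro z s _ hs
    have h1 := Cap_ld z (s := s) (by linarith)
    have h2 := Vp_ld r (xd z s) (rd_pos (y := z) hs)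
    have h3 := IsLocalDiffeomorphAt.comp (hf := h1) (g := fun q : ℂ × ℝ => Vp r q.1 q.2) (hg := h2)
    exact h3
  inj := by
    intro z s z' s' _ hs _ hs' hm
    have hs1 : |s| < 20 := by linarith
    have hs1' : |s'| < 20 := by linarith
    obtain ⟨hr, m, n, hx⟩ := Vp_inj (rd_pos hs) (rd_pos hs') hm
    simp only at hr hx
    have hA : Ac s < 11 / 32 := by
      have := (abs_lt.1 hs).2
      unfold Ac; linarith
    have hA' : Ac s' < 11 / 32 := by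
      have := (abs_lt.1 hs').2
      unfold Ac; linarith
    have hn1 := xd_le z hs1
    have hn2 := xd_le z' hs1'
    have hmn : ((m : ℂ) + n * I) = xd z' s' - xd z s := by rw [hx]; ring
    have hnorm : ‖((m : ℂ) + n * I)‖ < 1 := by
      rw [hmn]
      calc ‖xd z' s' - xd z s‖ ≤ ‖xd z' s'‖ + ‖xd z s‖ := norm_sub_le _ _
        _ < 1 := by linarith
    have hre : |((m : ℂ) + n * I).re| < 1 := lt_of_le_of_lt (Complex.abs_re_le_norm _) hnorm
    have him : |((m : ℂ) + n * I).im| < 1 := lt_of_le_of_lt (Complex.abs_im_le_norm _) hnorm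
    have hre' : |(m : ℝ)| < 1 := by simpa using hre
    have him' : |(n : ℝ)| < 1 := by simpa using him
    have hm0 : m = 0 := by
      have : |m| < 1 := by exact_mod_cast hre'
      simpa using Int.abs_lt_one_iff.1 this
    have hn0 : n = 0 := by
      have : |n| < 1 := by exact_mod_cast him'
      simpa using Int.abs_lt_one_iff.1 this
    subst hm0 hn0
    have hx' : xd z s = xd z' s' := by
      rw [hx]; simp
    exact cap_inj hs1 hs1' hx' hr.symm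
  inn := by
    intro z s hz hs
    have h0 := rd_pos (y := z) hs
    have hA := Cap_Apos (s := s) (by linarith)
    have hD := Dq_nonneg (‖z‖ ^ 2)
    have h1 : 0 ≤ Ac s / 2 * Dq (‖z‖ ^ 2) := by positivity
    have h2 : ‖z‖ ^ 2 < 9 / 4 := by
      have := norm_nonneg z
      nlinarith
    have h3 : rd z s < 1 := by
      unfold rd
      linarith
    show ‖(Vp r (xd z s) (rd z s)).1‖ < 1
    rw [Vp_norm r _ h0.le]
    exact h3

end Pool.Agent.B1X
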