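import Pool.Agent.SPR.LiB
import Pool.Agent.PTH.TArc
import Pool.Agent.PTH.Wrd

/-!
# B1X/Defs: the crossing change at the height `2 r` (definitions)

Coordinates of the solid torus: radius `ρ` and `x = u + iv` (modulo `Z + iZ`): `Vp r x ρ = (ρ ex (1/2 - u), r u + v)`, i.e. in
the `(X, Y)` plane of the paths `X = 1/2 - u`, `Y = r u + v`.  The first strand `p` is `x = 0`, the obstacles are the points `x ∈ Z + iZ`.
The path `qp r` starts at the foot `(X, Y) = (0, 0)`, goes near `x = 0` at `σ = 1/16`, then along the line `v = 0` from `u = 1/32` (`σ =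
17/128`) to `u = 63/32` (`σ = 79/128`), `u = 4 σ - 1/2`, except for a detour near `u = 1` on the side `v < 0`, and stops at `x = 2 - u1`.
`gT r tl` is the arc in hairpin form: the same path `x` (plus the tail `tl`), but with the radius `rT σ`: the part through the centre of the
solid torus is replaced by a hairpin near `x = 0`, and the two laps `u ∈ (0, 1)` and `u ∈ (1, 2)` are very near: `rT = rr (nf²)`.
`be r` is the ribbon box between the two laps, `de r` the capsule around `x = 0`: `|x| = 5/16 + s/64`, closed by a cap at `ρ ≈ 1/3`.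
-/

open scoped Manifold ContDiff Topology
open Set Filter
open Complex (I)
open Pool.Agent.RSG (E4 cj ex)
open Pool.Agent.CSG (stp)
open Pool.Agent.PTH (bump)

namespace Pool.Agent.B1X

open Pool.Agent.RBM (gs)

/-- the point of the solid torus with radius `ρ` and coordinates `x = u + iv` -/
noncomputable def Vp (r : ℕ) (x : ℂ) (ρ : ℝ) : ℂ × ℝ := ((ρ : ℂ) * ex (1 / 2 - x.re), r * x.re + x.im)

noncomputable def mu : ℝ := 1 / 200000

noncomputable def Sf (τ : ℝ) : ℝ := stp (3 / 8) (5 / 8) τ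

/-- centre of the ribbon -/
noncomputable def cf (τ : ℝ) : ℝ := (1000 + Sf τ) * mu

/-- radius as a function of the square of the norm -/
noncomputable def rr (q : ℝ) : ℝ := 1 / 2 + q / 8

/-- `Y / ‖Y‖` -/
noncomputable def Wn (Y : ℂ) : ℂ := Y / (‖Y‖ : ℂ)

/-- `τ W` for `τ ≤ 3/8`, `1 - (1 - τ) conj W` for `τ ≥ 5/8` -/
noncomputable def Gx (τ : ℝ) (W : ℂ) : ℂ :=
  (((1 - Sf τ) * τ : ℝ) : ℂ) * W + ((Sf τ : ℝ) : ℂ) * (1 - ((1 - τ : ℝ) : ℂ) * (starRingEnd ℂ) W)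

/-- the ribbon box: `τ = 1/2 + 15/32 s`, `Y = cf τ - mu z` -/
noncomputable def be (r : ℕ) (q : ℂ × ℝ) : ℂ × ℝ :=
  Vp r (Gx (1 / 2 + 15 / 32 * q.2) (Wn ((cf (1 / 2 + 15 / 32 * q.2) : ℂ) - (mu : ℂ) * q.1)))
    (rr (‖(cf (1 / 2 + 15 / 32 * q.2) : ℂ) - (mu : ℂ) * q.1‖ ^ 2))

/-- `1` for `q ≤ 1/320000`, `0` for `q ≥ 1/160000` -/
noncomputable def Dq (q : ℝ) : ℝ := 1 - stp (1 / 320000) (1 / 160000) q

/-- the radius of the capsule -/
noncomputable def Ac (s : ℝ) : ℝ := 5 / 16 + s / 64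

/-- `x`-coordinate of the capsule -/
noncomputable def xd (y : ℂ) (s : ℝ) : ℂ := ((Ac s / √(‖y‖ ^ 2 + 1 / 160000 * Dq (‖y‖ ^ 2)) : ℝ) : ℂ) * y

/-- radius coordinate of the capsule -/
noncomputable def rd (y : ℂ) (s : ℝ) : ℝ := 1 / 2 + ‖y‖ ^ 2 / 8 - Ac s / 2 * Dq (‖y‖ ^ 2)

/-- the capsule -/
noncomputable def de (r : ℕ) (q : ℂ × ℝ) : ℂ × ℝ := Vp r (xd q.1 q.2) (rd q.1 q.2)

/-! ## the path and the hairpin arc -/

noncomputable def u1 (r : ℕ) : ℝ := 1 / (64 * (r : ℝ))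

noncomputable def aa (σ : ℝ) : ℝ := stp (33 / 256) (17 / 128) σ
noncomputable def bb (σ : ℝ) : ℝ := 1 - stp (79 / 128) (159 / 256) σ

/-- `u` -/
noncomputable def Uf (r : ℕ) (σ : ℝ) : ℝ :=
  (4 * σ - 1 / 2) * aa σ * bb σ + u1 r * (1 - aa σ) + (2 - u1 r) * (1 - bb σ)

/-- `v` : the detour near `u = 1` -/
noncomputable def Vf (σ : ℝ) : ℝ := -(1 / 64) * bump (128 * σ - 95 / 2)

/-- capsule radius of the strands -/
noncomputable def nf (σ : ℝ) : ℝ :=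
  mu * (999 + Sf (4 * σ - 1 / 2) + stp (31 / 32) (33 / 32) (4 * σ - 1 / 2) + Sf (4 * σ - 3 / 2))

noncomputable def g1 (σ : ℝ) : ℝ := stp (1 / 32) (1 / 16) σ

/-- radius of the first strand -/
noncomputable def Lp (σ : ℝ) : ℝ :=
  (1 - stp (-(3 / 4)) (-(1 / 2)) σ) * (-σ) + stp (-(3 / 4)) (-(1 / 2)) σ * (27 / 64 - σ / 16)

/-- radius of the path -/
noncomputable def Lq (σ : ℝ) : ℝ :=
  rr (nf σ ^ 2) - (17 / 128 - σ) * (1 - stp (1 / 8) (17 / 128) σ) +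
    (σ - rr (nf σ ^ 2)) * stp (79 / 128) (3 / 4) σ

/-- radius of the hairpin arc -/
noncomputable def rT (σ : ℝ) : ℝ := (1 - g1 σ) * Lp σ + g1 σ * Lq σ

/-- the path (without tail) -/
noncomputable def qp (r : ℕ) (σ : ℝ) : ℝ × ℝ := ((1 / 2 - Uf r σ) * g1 σ, (r * Uf r σ + Vf σ) * g1 σ)

/-- `x`-coordinate of the hairpin arc with tail `tl` -/
noncomputable def xT (r : ℕ) (tl : ℝ → ℝ × ℝ) (σ : ℝ) : ℂ :=
  ⟨g1 σ * Uf r σ - (tl σ).1, Vf σ + (tl σ).2 + r * (tl σ).1⟩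

/-- the hairpin arc -/
noncomputable def gT (r : ℕ) (tl : ℝ → ℝ × ℝ) (l : ℝ) : ℂ × ℝ := Vp r (xT r tl (4 * l)) (rT (4 * l))

/-- the two windows -/
noncomputable def f1 (s : ℝ) : ℝ := 1 / 16 + 15 / 512 * s
noncomputable def f2 (s : ℝ) : ℝ := 1 / 8 + 15 / 512 * s

/-- admissible tails -/
structure Tail (r : ℕ) (tl : ℝ → ℝ × ℝ) : Prop where
  smooth : ContDiff ℝ ∞ tl
  zero : ∀ σ ≤ 13 / 16, tl σ = 0
  avoid : ∀ σ, ¬ PTH.Obs (qp r σ + tl σ)

/-! ## the pieces -/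

noncomputable def cc (i : Fin 2) : ℂ := if i = 0 then ((1000 * mu : ℝ) : ℂ) else ((-(1001 * mu) : ℝ) : ℂ)
noncomputable def mm (i : Fin 2) : ℂ := if i = 0 then ((-mu : ℝ) : ℂ) else ((mu : ℝ) : ℂ)
noncomputable def bi (i : Fin 2) : ℝ := if i = 0 then -(2 / 5) else 2 / 5
noncomputable def vs (i : Fin 2) : ℝ := if i = 0 then 1 else -1

/-! ## rotations about the lattice points -/

/-- nearest lattice point -/
noncomputable def nl (x : ℂ) : ℂ := ⟨(round x.re : ℝ), (round x.im : ℝ)⟩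

/-- rotation by `h (|x - m|)` turns around the nearest lattice point `m` -/
noncomputable def rotl (h : ℝ → ℝ) (x : ℂ) : ℂ := nl x + ex (h ‖x - nl x‖) * (x - nl x)

/-- `1` for `σ ≤ 13/16`, `0` for `σ ≥ 7/8` -/
noncomputable def nus (σ : ℝ) : ℝ := 1 - stp (13 / 16) (7 / 8) σ

/-- `1` for `1/4 ≤ ρ ≤ 13/16`, `0` for `ρ ≤ 1/8` and for `ρ ≥ 7/8` -/
noncomputable def nuf (ρ : ℝ) : ℝ := stp (1 / 8) (1 / 4) ρ * nus ρ

/-- `α` turns around the obstacle `x = 2`, i.e. `(X, Y) = (-3/2, 2 r)`, starting at `x = 2 - u1` -/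
noncomputable def tn (r : ℕ) (α : ℝ) : ℝ × ℝ :=
  (u1 r * (Real.cos (2 * Real.pi * α) - 1),
    -u1 r * Real.sin (2 * Real.pi * α) - 1 / 64 * (Real.cos (2 * Real.pi * α) - 1))

/-! ## the tails of the words -/

noncomputable def lmb (σ : ℝ) : ℝ := stp (29 / 32) (15 / 16) σ

/-- turns `α` around the obstacle, then from `(-3/2 + u1, 2 r - 1/64)` to the lattice point `(-1, 2 r)`, then the word `L` -/
noncomputable def tlw (r : ℕ) (α : ℝ → ℝ) (L : List (Bool × Bool)) (σ : ℝ) : ℝ × ℝ :=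
  (1 - lmb σ) • tn r (α σ) + lmb σ • ((1 / 2 - u1 r, 1 / 64) : ℝ × ℝ) + (0, bump (lmb σ)) +
    PTH.pos L (L.length * stp (15 / 16) (63 / 64) σ)

end Pool.Agent.B1X
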