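import Pool.Agent.B1X.Wd1
import Pool.Agent.B1X.App

/-!
# B1X/WdA: the word of the first path   (difficulty 2)

`gA r i = 0` for `i < r`, `-1` for `i ≥ r`.  `PTH.sh_gap` with `w = qp + tl0 []`, `M = 15/16`, `T = 59/64`, `m = -1`, `n = 2 r`, `γ = gA r`.
`lmb (59/64) = 1/2` (`Real.smoothTransition` at `1/2`; or only `0 < lmb (59/64) < 1`), `(w τ).2`:
* `τ ≤ 1/32`: `0`.  `1/32 ≤ τ ≤ 17/128` : `r Uf g1` with `0 ≤ Uf g1 ≤ 1/32`; `17/128 ≤ τ ≤ 79/128`: `r u + Vf`, `u = 4 τ - 1/2`; `79/128 ≤ τ ≤ 29/32`: `r Uf`,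
  `63/32 ≤ Uf ≤ 2 - u1`, so `2 r - r/32 ≤ (w τ).2 ≤ 2 r - 1/64`; `29/32 ≤ τ`: `2 r - 1/64 + lmb/64 + bump lmb`.
* `hlow`: `≥ -1/128`.
* `hT`: `lmb = 1/2`: `2 r - 1/128 + bump (1/2)` with `bump (1/2) = 1/2` (`PTH.bump_half`).
* `hg` (row `i`): if `τ ≤ 17/128`, `X = 1/2 - Uf` times `g1` : `|X| < 1/2` (if `g1 = 0`, `X = 0`) and `Y ≤ r/32 < r`, so `i < r`.  If `17/128 ≤ τ ≤ 79/128`: `r u = i - Vf ∈ [i, i + 1/128]`,
  `X = 1/2 - u`.  If `i < r` then `r u ≤ r - 1 + 1/128`, `0 < u < 1`, `|X| < 1/2`.  If `i = r`: `u ≥ 1`, and `u = 1` implies `Vf = 0`, but `Vf (3/8) < 0`; so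
  `1 < u < 2`.  If `i > r`: `u ≥ (r + 1)/r > 1` and `u < 2`.  So `|X + 1| < 1/2`.  If `79/128 ≤ τ ≤ 59/64`: `|X + 1| < 1/2` (`X = 1/2 - Uf + lmb (1/2 - u1) ∈ (-3/2, -1]`) and
  `Y > r` (`r 63/32 > r`), so `i > r` or `i = r`..: `gA r i = -1`.
* `htop`, `hend`: as above (`bump ≤ 1/2`).
`gA r (2 r) = -1`, so `xs (-1 - gA r (2 r)) = xs 0 = []`.
`mk_A`: `pw_zero` (rows `0 .. r - 1`), `pw_jump` (`r`), `pw_const` (`r .. 2 r`), `PTH.mk_gw`.
-/

open scoped Manifold ContDiff Topology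
open Set Filter
open Pool.Agent.PTH (bump pos sumZ IsPath IsSeg SH gw xs)

namespace Pool.Agent.B1X

def gA (r : ℕ) (i : ℕ) : ℤ := if i < r then 0 else -1

theorem WdA_lmb_left {σ : ℝ} (h : σ ≤ 29 / 32) : lmb σ = 0 := Pool.Agent.CSG.stp_zero (by norm_num) h

theorem WdA_lmb_right {σ : ℝ} (h : 15 / 16 ≤ σ) : lmb σ = 1 := Pool.Agent.CSG.stp_one (by norm_num) h

theorem WdA_lmb_nonneg (σ : ℝ) : 0 ≤ lmb σ := Pool.Agent.CSG.stp_nonneg _ _ _

theorem WdA_lmb_le (σ : ℝ) : lmb σ ≤ 1 := Pool.Agent.CSG.stp_le_one _ _ _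

theorem WdA_lmb_half : lmb (59 / 64) = 1 / 2 := by
  have h := Pool.Agent.CSG.FunBasic_symm (a := 29 / 32) (b := 15 / 16) (by norm_num) (59 / 64)
  have e : (29 / 32 : ℝ) + 15 / 16 - 59 / 64 = 59 / 64 := by norm_num
  rw [e] at h
  unfold lmb
  linarith

theorem WdA_lmb_mono : Monotone lmb := Pool.Agent.CSG.stp_mono (by norm_num)

theorem WdA_tl0 (r : ℕ) (σ : ℝ) :
    tl0 r [] σ = (lmb σ * (1 / 2 - u1 r), lmb σ * (1 / 64) + bump (lmb σ)) := by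
  unfold tl0
  refine Prod.ext ?_ ?_
  · simp [pos]
  · simp [pos]

theorem WdA_fst (r : ℕ) (σ : ℝ) : (qp r σ + tl0 r [] σ).1 = (qp r σ).1 + lmb σ * (1 / 2 - u1 r) := by
  rw [WdA_tl0]
  rfl

theorem WdA_snd (r : ℕ) (σ : ℝ) :
    (qp r σ + tl0 r [] σ).2 = (qp r σ).2 + (lmb σ * (1 / 64) + bump (lmb σ)) := by
  rw [WdA_tl0]
  rfl

theorem WdA_low {r : ℕ} (hr : 1 ≤ r) {τ : ℝ} (h : τ ≤ 17 / 128) :
    |(qp r τ).1| < 1 / 2 ∧ 0 ≤ (qp r τ).2 ∧ (qp r τ).2 ≤ r / 32 := by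
  have hr' : (1 : ℝ) ≤ r := by exact_mod_cast hr
  have h1 := Uf_pos hr h
  have h2 := Uf_le hr h
  have h3 := g1_nonneg τ
  have h4 := g1_le τ
  have h5 : Vf τ = 0 := Vf_left (by linarith)
  have e1 : (qp r τ).1 = (1 / 2 - Uf r τ) * g1 τ := rfl
  have e2 : (qp r τ).2 = (r * Uf r τ + Vf τ) * g1 τ := rfl
  rw [e1, e2, h5, add_zero]
  have h6 : 0 ≤ (1 / 2 - Uf r τ) * g1 τ := mul_nonneg (by linarith) h3
  have h7 : (1 / 2 - Uf r τ) * g1 τ ≤ (1 / 2 - Uf r τ) * 1 := mul_le_mul_of_nonneg_left h4 (by linarith)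
  have h8 : 0 ≤ (r : ℝ) * Uf r τ := by positivity
  have h9 : (r : ℝ) * Uf r τ * g1 τ ≤ (r : ℝ) * Uf r τ * 1 := mul_le_mul_of_nonneg_left h4 h8
  have h10 : (r : ℝ) * Uf r τ ≤ r * (1 / 32) := mul_le_mul_of_nonneg_left h2 (by linarith)
  refine ⟨?_, mul_nonneg h8 h3, by linarith⟩
  rw [abs_of_nonneg h6]
  linarith

theorem WdA_mid (r : ℕ) {τ : ℝ} (h : 17 / 128 ≤ τ) (h' : τ ≤ 79 / 128) :
    qp r τ = (1 / 2 - (4 * τ - 1 / 2), r * (4 * τ - 1 / 2) + Vf τ) := by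
  unfold qp
  rw [g1_right (show 1 / 16 ≤ τ by linarith), Uf_mid r h h', mul_one, mul_one]

theorem WdA_high (r : ℕ) {τ : ℝ} (h : 79 / 128 ≤ τ) : qp r τ = (1 / 2 - Uf r τ, r * Uf r τ) := by
  unfold qp
  rw [g1_right (show 1 / 16 ≤ τ by linarith), Vf_right (show 97 / 256 ≤ τ by linarith), mul_one, mul_one, add_zero]

theorem WdA_bd {r : ℕ} (hr : 1 ≤ r) (τ : ℝ) : 0 ≤ (qp r τ).2 ∧ (qp r τ).2 ≤ 2 * r - 1 / 64 := by
  have hr' : (1 : ℝ) ≤ r := by exact_mod_cast hr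
  rcases le_or_gt τ (17 / 128) with h | h
  · obtain ⟨-, h2, h3⟩ := WdA_low hr h
    exact ⟨h2, by linarith⟩
  rcases le_or_gt τ (79 / 128) with h' | h'
  · rw [WdA_mid r h.le h']
    have h1 := Vf_le τ
    have h2 := Vf_ge τ
    have h3 : (r : ℝ) * (1 / 32) ≤ r * (4 * τ - 1 / 2) := mul_le_mul_of_nonneg_left (by linarith) (by linarith)
    have h4 : (r : ℝ) * (4 * τ - 1 / 2) ≤ r * (63 / 32) := mul_le_mul_of_nonneg_left (by linarith) (by linarith)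
    show 0 ≤ (r : ℝ) * (4 * τ - 1 / 2) + Vf τ ∧ (r : ℝ) * (4 * τ - 1 / 2) + Vf τ ≤ 2 * r - 1 / 64
    constructor <;> linarith
  · rw [WdA_high r h'.le]
    have h1 := Uf_ge hr h'.le
    have h2 := Uf_lt hr h'.le
    have h3 := u1_mul hr
    have h4 : 0 ≤ (r : ℝ) * Uf r τ := mul_nonneg (by linarith) (by linarith)
    have h5 : (r : ℝ) * Uf r τ ≤ r * (2 - u1 r) := mul_le_mul_of_nonneg_left h2 (by linarith)
    show 0 ≤ (r : ℝ) * Uf r τ ∧ (r : ℝ) * Uf r τ ≤ 2 * r - 1 / 64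
    constructor <;> linarith

theorem WdA_row {r : ℕ} (hr : 1 ≤ r) {τ : ℝ} {i : ℕ} (hi : (qp r τ).2 = i) :
    (i < r ∧ |(qp r τ).1| < 1 / 2) ∨ (r ≤ i ∧ i < 2 * r ∧ |(qp r τ).1 + 1| < 1 / 2) := by
  have hr' : (1 : ℝ) ≤ r := by exact_mod_cast hr
  have hbd := (WdA_bd hr τ).2
  rw [hi] at hbd
  have hi2 : i < 2 * r := by
    have : (i : ℝ) < ((2 * r : ℕ) : ℝ) := by
      push_cast
      linarith
    exact_mod_cast this
  rcases le_or_gt τ (17 / 128) with h | h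
  · obtain ⟨h1, h2, h3⟩ := WdA_low hr h
    left
    refine ⟨?_, h1⟩
    rw [hi] at h3
    have : (i : ℝ) < r := by linarith
    exact_mod_cast this
  rcases le_or_gt τ (79 / 128) with h' | h'
  · rw [WdA_mid r h.le h'] at hi ⊢
    have hi' : (r : ℝ) * (4 * τ - 1 / 2) + Vf τ = i := hi
    have h1 := Vf_le τ
    have h2 := Vf_ge τ
    rcases lt_or_ge i r with hlt | hge
    · left
      refine ⟨hlt, ?_⟩
      show |1 / 2 - (4 * τ - 1 / 2)| < 1 / 2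
      have h3 : (i : ℝ) + 1 ≤ r := by exact_mod_cast hlt
      have h4 : 4 * τ - 1 / 2 < 1 := by
        by_contra hc
        push Not at hc
        have h5 : (r : ℝ) * 1 ≤ r * (4 * τ - 1 / 2) := mul_le_mul_of_nonneg_left hc (by linarith)
        linarith
      rw [abs_lt]
      constructor <;> linarith
    · right
      refine ⟨hge, hi2, ?_⟩
      show |1 / 2 - (4 * τ - 1 / 2) + 1| < 1 / 2
      have h3 : (r : ℝ) ≤ i := by exact_mod_cast hge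
      have h4 : 1 < 4 * τ - 1 / 2 := by
        by_contra hc
        push Not at hc
        have h5 : (r : ℝ) * (4 * τ - 1 / 2) ≤ r * 1 := mul_le_mul_of_nonneg_left hc (by linarith)
        have h6 : Vf τ = 0 := by linarith
        have h7 : (r : ℝ) * (4 * τ - 1 / 2) = r * 1 := by linarith
        have h8 : 4 * τ - 1 / 2 = 1 := mul_left_cancel₀ (by positivity) h7
        have h9 : Vf τ < 0 := Vf_neg (by linarith) (by linarith)
        linarith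
      rw [abs_lt]
      constructor <;> linarith
  · rw [WdA_high r h'.le] at hi ⊢
    have hi' : (r : ℝ) * Uf r τ = i := hi
    have h1 := Uf_ge hr h'.le
    have h2 := Uf_lt hr h'.le
    have h3 := u1_pos hr
    right
    refine ⟨?_, hi2, ?_⟩
    · have h4 : (r : ℝ) * 1 ≤ r * Uf r τ := mul_le_mul_of_nonneg_left (by linarith) (by linarith)
      have h5 : (r : ℝ) ≤ i := by linarith
      exact_mod_cast h5
    · show |1 / 2 - Uf r τ + 1| < 1 / 2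
      rw [abs_lt]
      constructor <;> linarith

theorem WdA_late {r : ℕ} (hr : 1 ≤ r) {τ : ℝ} (h : 29 / 32 ≤ τ) :
    (qp r τ + tl0 r [] τ).1 = -(3 / 2) + (1 - lmb τ) * u1 r + lmb τ / 2 ∧
    (qp r τ + tl0 r [] τ).2 = 2 * r - 1 / 64 + lmb τ / 64 + bump (lmb τ) := by
  rw [WdA_fst, WdA_snd, qp_late r hr (show 159 / 256 ≤ τ by linarith)]
  constructor
  · show -(3 / 2) + u1 r + lmb τ * (1 / 2 - u1 r) = _
    ring
  · show 2 * (r : ℝ) - 1 / 64 + (lmb τ * (1 / 64) + bump (lmb τ)) = _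
    ring

theorem WdA_early (r : ℕ) {τ : ℝ} (h : τ ≤ 29 / 32) : qp r τ + tl0 r [] τ = qp r τ := by
  rw [tl0_zero r [] h, add_zero]

theorem WdA_lmb_low {τ : ℝ} (h : τ ≤ 59 / 64) : lmb τ ≤ 1 / 2 := by
  have := WdA_lmb_mono h
  rwa [WdA_lmb_half] at this

theorem WdA_lmb_high {τ : ℝ} (h : 59 / 64 ≤ τ) : 1 / 2 ≤ lmb τ := by
  have := WdA_lmb_mono h
  rwa [WdA_lmb_half] at this

theorem sh_A {r : ℕ} (hr : 1 ≤ r) :
    SH (fun σ => qp r σ + tl0 r [] σ) (pos (gw (gA r) (2 * r))) (-1, 2 * (r : ℤ)) := by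
  have hr' : (1 : ℝ) ≤ r := by exact_mod_cast hr
  have hu := u1_pos hr
  have hu' := u1_le hr
  have hcast : ((2 * r : ℕ) : ℤ) = 2 * (r : ℤ) := by push_cast; rfl
  have hcastR : ((2 * r : ℕ) : ℝ) = 2 * (r : ℝ) := by push_cast; rfl
  have hw : IsSeg (fun σ => qp r σ + tl0 r [] σ) (15 / 16) (-1, ((2 * r : ℕ) : ℤ)) := by
    rw [hcast]
    exact tl0_seg hr
  have hγ : gA r (2 * r) = -1 := by
    unfold gA
    rw [if_neg (by omega)]
  have hxs : xs (-1 - gA r (2 * r)) = [] := by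
    rw [hγ]
    rfl
  have key := Pool.Agent.PTH.sh_gap (T := 59 / 64) hw (gA r) ?_ ?_ (by norm_num) ?_ ?_ ?_ ?_
  · rw [hxs, List.append_nil, hcast] at key
    exact key
  · unfold gA
    rw [if_pos (by omega)]
  · intro τ
    show -1 < (qp r τ + tl0 r [] τ).2
    rw [WdA_snd]
    have h1 := (WdA_bd hr τ).1
    have h2 := WdA_lmb_nonneg τ
    have h3 := Pool.Agent.PTH.bump_nonneg (lmb τ)
    linarith
  · show ((2 * r : ℕ) : ℝ) < (qp r (59 / 64) + tl0 r [] (59 / 64)).2 ∧ (qp r (59 / 64) + tl0 r [] (59 / 64)).2 < ((2 * r : ℕ) : ℝ) + 1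
    rw [(WdA_late hr (show (29 / 32 : ℝ) ≤ 59 / 64 by norm_num)).2, WdA_lmb_half, Pool.Agent.PTH.bump_half, hcastR]
    constructor <;> linarith
  · intro τ hτ i hi
    have hi : (qp r τ + tl0 r [] τ).2 = i := hi
    show |(qp r τ + tl0 r [] τ).1 - gA r i| < 1 / 2
    rcases le_or_gt τ (29 / 32) with h | h
    · rw [WdA_early r h] at hi ⊢
      rcases WdA_row hr hi with ⟨h1, h2⟩ | ⟨h1, h3, h2⟩
      · unfold gA
        rw [if_pos h1]
        push_cast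
        rw [sub_zero]
        exact h2
      · unfold gA
        rw [if_neg (by omega)]
        push_cast
        rw [sub_neg_eq_add]
        exact h2
    · obtain ⟨e1, e2⟩ := WdA_late hr h.le
      rw [e2] at hi
      rw [e1]
      have h1 := WdA_lmb_nonneg τ
      have h2 := WdA_lmb_low hτ
      have h3 := Pool.Agent.PTH.bump_nonneg (lmb τ)
      have h4 : ¬ i < r := by
        intro hc
        have : (i : ℝ) < r := by exact_mod_cast hc
        linarith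
      unfold gA
      rw [if_neg h4]
      push_cast
      have h5 : 0 < (1 - lmb τ) * u1 r := mul_pos (by linarith) hu
      have h6 : (1 - lmb τ) * u1 r ≤ 1 * u1 r := mul_le_mul_of_nonneg_right (by linarith) hu.le
      rw [abs_lt]
      constructor <;> linarith
  · intro τ hτ
    show (qp r τ + tl0 r [] τ).2 < ((2 * r : ℕ) : ℝ) + 1
    rw [WdA_snd, hcastR]
    have h1 := (WdA_bd hr τ).2
    have h2 := WdA_lmb_le τ
    have h3 := Pool.Agent.PTH.bump_le (lmb τ)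
    linarith
  · intro τ hτ
    obtain ⟨e1, e2⟩ := WdA_late hr (show 29 / 32 ≤ τ by linarith)
    show |(qp r τ + tl0 r [] τ).1 - ((-1 : ℤ) : ℝ)| < 1 / 2 ∧ ((2 * r : ℕ) : ℝ) - 1 < (qp r τ + tl0 r [] τ).2 ∧
      (qp r τ + tl0 r [] τ).2 < ((2 * r : ℕ) : ℝ) + 1
    rw [e1, e2, hcastR]
    push_cast
    have h1 := WdA_lmb_high hτ
    have h2 := WdA_lmb_le τ
    have h3 := Pool.Agent.PTH.bump_nonneg (lmb τ)
    have h3' := Pool.Agent.PTH.bump_le (lmb τ)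
    have h5 : 0 ≤ (1 - lmb τ) * u1 r := mul_nonneg (by linarith) hu.le
    have h6 : (1 - lmb τ) * u1 r ≤ (1 / 2) * u1 r := mul_le_mul_of_nonneg_right (by linarith) hu.le
    refine ⟨?_, ?_, ?_⟩
    · rw [abs_lt]
      constructor <;> linarith
    · linarith
    · linarith

theorem mk_A {r : ℕ} (hr : 1 ≤ r) : (FreeGroup.mk (gw (gA r) (2 * r)) : CSW.F2) =
    CSW.fy ^ (r - 1) * CSW.fx⁻¹ * CSW.fy ^ r * CSW.fy := by
  rw [Pool.Agent.PTH.mk_gw]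
  have h1 : CSW.pw (gA r) (2 * r) = CSW.pw (gA r) r * CSW.fy ^ (2 * r - r) := by
    refine pw_const (by omega) ?_
    intro i hi hi'
    unfold gA
    rw [if_neg (by omega), if_neg (by omega)]
  obtain ⟨k, rfl⟩ : ∃ k, r = k + 1 := ⟨r - 1, by omega⟩
  have h2 : CSW.pw (gA (k + 1)) (k + 1) = CSW.pw (gA (k + 1)) k * CSW.fx ^ (-1 : ℤ) * CSW.fy := by
    refine pw_jump ?_
    unfold gA
    rw [if_neg (by omega), if_pos (by omega)]
    rfl
  have h3 : CSW.pw (gA (k + 1)) k = CSW.fy ^ k := by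
    refine pw_zero ?_
    intro i hi
    unfold gA
    rw [if_pos (by omega)]
  rw [h1, h2, h3, zpow_neg_one, Nat.add_sub_cancel, show 2 * (k + 1) - (k + 1) = k + 1 by omega]
  simp only [mul_assoc]
  rw [← pow_succ', ← pow_succ]

end Pool.Agent.B1X
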