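import Pool.Agent.B1X.Wd1
import Pool.Agent.B1X.App
import Pool.Agent.PTH.Seg

/-!
# B1X/WdB: the word of the second path   (difficulty 3)

`gB r i = 0` for `i < r`, `-1` for `r ≤ i < 2 r`, `-2` for `i = 2 r`.  The path is `qp + tn r (-nus) + tl0 []`, `nus = 1 - stp (13/16) (7/8)`.
Put `St = stp (13/16) (7/8)`, `α l σ = -1 + (1 - l/4) St σ` and
`H l σ = qp r σ + (1 - lmb σ) • tn r (α l σ) + tl0 r [] σ`.  For `l = 0`: `α = -nus`, and `lmb ≠ 0` implies `σ > 29/32`, `nus = 0`, `tn r 0 = 0`, so `H 0` is the path.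
* `H l` is a segment (`M = 15/16`) and avoids the obstacles: for `σ ≤ 13/16`: `α = -1`, `tn r (-1) = 0`.  For `σ ≥ 13/16`, with `c = cos (2 π α)`, `s = sin (2 π α)`,
  `λ = lmb σ`: `X = -3/2 + (1 - λ) u1 c + λ/2`, `Y = 2 r - (1 - λ) (c/64 + u1 s) + bump λ` (`u1_mul`).  If `λ = 0`: `(X + 3/2, Y - 2 r) = (u1 c, -c/64 - u1 s)`, not both `0`
  (`c² + s² = 1`), both in `(-1/2, 1/2)` resp. `(-1, 1)`: `X ∈ 1/2 + ℤ` implies `c = 0`, `Y ∈ ℤ` implies then `s = 0`.  If `λ > 0`: `σ > 29/32`, `St = 1`, `α = -l/4 ∈ [-1/4, 0]`,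
  `c ≥ 0`, so `-3/2 < X ≤ -1`.  If `λ = 1`: `(-1, 2 r)`.
* `SH` by `H` and `sh_gap` for `H 1` with `T = 59/64`, `m = -1`, `n = 2 r`, `γ = gB r`: `α 1 = -1 + 3/4 St ∈ [-1, -1/4]`.  Rows: for `σ ≤ 13/16` as in WdA (and `Y < 2 r`).
  For `13/16 ≤ σ ≤ 29/32` (`λ = 0`): `Y = 2 r - c/64 - u1 s`, `|Y - 2 r| < 1`, so the row is `2 r`: then `c/64 = -u1 s`.  If `α ∈ [-1, -3/4]`: `c ≥ 0, s ≥ 0`, not both `0`, impossible.
  If `α ∈ [-1/2, -1/4]`: `c ≤ 0`, `s ≤ 0`, impossible (`c/64 + u1 s < 0`).  So `α ∈ (-3/4, -1/2)`: `c < 0`: `X = -3/2 + u1 c ∈ (-5/2, -3/2)`: `|X + 2| < 1/2`.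
  For `29/32 ≤ σ ≤ 59/64`: `α = -1/4`, `c = 0`, `s = -1`: `Y = 2 r + (1 - λ) u1 + bump λ ∈ (2 r, 2 r + 1)`: no row.
  `hT`: `λ = 1/2`, `Y = 2 r + u1/2 + 1/2`.  `hend` (`σ ≥ 59/64`): `λ ≥ 1/2`: `X = -3/2 + λ/2 ∈ [-5/4, -1]`, `2 r ≤ Y < 2 r + 1`.
* `mk_B`: `pw_zero`, `pw_jump`, `pw_const`, `pw_jump`, `PTH.mk_gw`, `PTH.mk_xs` (`xs 1 = [(true, true)]`); the case `r = 1` has no middle part (`γ 1 = -1`, `γ 2 = -2`).
-/

open scoped Manifold ContDiff Topology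
open Set Filter
open Pool.Agent.PTH (bump pos sumZ IsPath IsSeg SH gw xs)

namespace Pool.Agent.B1X

def gB (r : ℕ) (i : ℕ) : ℤ := if i < r then 0 else if i < 2 * r then -1 else -2

theorem WdB_lmb_left {σ : ℝ} (h : σ ≤ 29 / 32) : lmb σ = 0 := Pool.Agent.CSG.stp_zero (by norm_num) h

theorem WdB_lmb_right {σ : ℝ} (h : 15 / 16 ≤ σ) : lmb σ = 1 := Pool.Agent.CSG.stp_one (by norm_num) h

theorem WdB_lmb_nonneg (σ : ℝ) : 0 ≤ lmb σ := Pool.Agent.CSG.stp_nonneg _ _ _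

theorem WdB_lmb_le (σ : ℝ) : lmb σ ≤ 1 := Pool.Agent.CSG.stp_le_one _ _ _

theorem WdB_lmb_half : lmb (59 / 64) = 1 / 2 := by
  have h := Pool.Agent.CSG.FunBasic_symm (a := 29 / 32) (b := 15 / 16) (by norm_num) (59 / 64)
  have e : (29 / 32 : ℝ) + 15 / 16 - 59 / 64 = 59 / 64 := by norm_num
  rw [e] at h
  unfold lmb
  linarith

theorem WdB_lmb_mono : Monotone lmb := Pool.Agent.CSG.stp_mono (by norm_num)

theorem WdB_tl0 (r : ℕ) (σ : ℝ) :
    tl0 r [] σ = (lmb σ * (1 / 2 - u1 r), lmb σ * (1 / 64) + bump (lmb σ)) := by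
  unfold tl0
  refine Prod.ext ?_ ?_
  · simp [pos]
  · simp [pos]

theorem WdB_fst (r : ℕ) (σ : ℝ) : (qp r σ + tl0 r [] σ).1 = (qp r σ).1 + lmb σ * (1 / 2 - u1 r) := by
  rw [WdB_tl0]
  rfl

theorem WdB_snd (r : ℕ) (σ : ℝ) :
    (qp r σ + tl0 r [] σ).2 = (qp r σ).2 + (lmb σ * (1 / 64) + bump (lmb σ)) := by
  rw [WdB_tl0]
  rfl

theorem WdB_low {r : ℕ} (hr : 1 ≤ r) {τ : ℝ} (h : τ ≤ 17 / 128) :
    |(qp r τ).1| < 1 / 2 ∧ 0 ≤ (qp r τ).2 ∧ (qp r τ).2 ≤ r / 32 := by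
  have hr' : (1 : ℝ) ≤ r := by exact_mod_cast hr
  have h1 := Uf_pos hr h
  have h2 := Uf_le hr h
  have h3 := g1_nonneg τ
  have h4 := g1_le τ
  have h5 : Vf τ = 0 := Vf_left (by linarith)
  have e1 : (qp r τ).1 = (1 / 2 - Uf r τ) * g1 τ := rfl
  have e2 : (qp r τ).2 = (r * Uf r τ + Vf τ) * g1 τ := rfl
  rw [e1, e2, h5, add_zero]
  have h6 : 0 ≤ (1 / 2 - Uf r τ) * g1 τ := mul_nonneg (by linarith) h3
  have h7 : (1 / 2 - Uf r τ) * g1 τ ≤ (1 / 2 - Uf r τ) * 1 := mul_le_mul_of_nonneg_left h4 (by linarith)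
  have h8 : 0 ≤ (r : ℝ) * Uf r τ := by positivity
  have h9 : (r : ℝ) * Uf r τ * g1 τ ≤ (r : ℝ) * Uf r τ * 1 := mul_le_mul_of_nonneg_left h4 h8
  have h10 : (r : ℝ) * Uf r τ ≤ r * (1 / 32) := mul_le_mul_of_nonneg_left h2 (by linarith)
  refine ⟨?_, mul_nonneg h8 h3, by linarith⟩
  rw [abs_of_nonneg h6]
  linarith

theorem WdB_mid (r : ℕ) {τ : ℝ} (h : 17 / 128 ≤ τ) (h' : τ ≤ 79 / 128) :
    qp r τ = (1 / 2 - (4 * τ - 1 / 2), r * (4 * τ - 1 / 2) + Vf τ) := by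
  unfold qp
  rw [g1_right (show 1 / 16 ≤ τ by linarith), Uf_mid r h h', mul_one, mul_one]

theorem WdB_high (r : ℕ) {τ : ℝ} (h : 79 / 128 ≤ τ) : qp r τ = (1 / 2 - Uf r τ, r * Uf r τ) := by
  unfold qp
  rw [g1_right (show 1 / 16 ≤ τ by linarith), Vf_right (show 97 / 256 ≤ τ by linarith), mul_one, mul_one, add_zero]

theorem WdB_bd {r : ℕ} (hr : 1 ≤ r) (τ : ℝ) : 0 ≤ (qp r τ).2 ∧ (qp r τ).2 ≤ 2 * r - 1 / 64 := by
  have hr' : (1 : ℝ) ≤ r := by exact_mod_cast hr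
  rcases le_or_gt τ (17 / 128) with h | h
  · obtain ⟨-, h2, h3⟩ := WdB_low hr h
    exact ⟨h2, by linarith⟩
  rcases le_or_gt τ (79 / 128) with h' | h'
  · rw [WdB_mid r h.le h']
    have h1 := Vf_le τ
    have h2 := Vf_ge τ
    have h3 : (r : ℝ) * (1 / 32) ≤ r * (4 * τ - 1 / 2) := mul_le_mul_of_nonneg_left (by linarith) (by linarith)
    have h4 : (r : ℝ) * (4 * τ - 1 / 2) ≤ r * (63 / 32) := mul_le_mul_of_nonneg_left (by linarith) (by linarith)
    show 0 ≤ (r : ℝ) * (4 * τ - 1 / 2) + Vf τ ∧ (r : ℝ) * (4 * τ - 1 / 2) + Vf τ ≤ 2 * r - 1 / 64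
    constructor <;> linarith
  · rw [WdB_high r h'.le]
    have h1 := Uf_ge hr h'.le
    have h2 := Uf_lt hr h'.le
    have h3 := u1_mul hr
    have h4 : 0 ≤ (r : ℝ) * Uf r τ := mul_nonneg (by linarith) (by linarith)
    have h5 : (r : ℝ) * Uf r τ ≤ r * (2 - u1 r) := mul_le_mul_of_nonneg_left h2 (by linarith)
    show 0 ≤ (r : ℝ) * Uf r τ ∧ (r : ℝ) * Uf r τ ≤ 2 * r - 1 / 64
    constructor <;> linarith

theorem WdB_row {r : ℕ} (hr : 1 ≤ r) {τ : ℝ} {i : ℕ} (hi : (qp r τ).2 = i) :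
    (i < r ∧ |(qp r τ).1| < 1 / 2) ∨ (r ≤ i ∧ i < 2 * r ∧ |(qp r τ).1 + 1| < 1 / 2) := by
  have hr' : (1 : ℝ) ≤ r := by exact_mod_cast hr
  have hbd := (WdB_bd hr τ).2
  rw [hi] at hbd
  have hi2 : i < 2 * r := by
    have : (i : ℝ) < ((2 * r : ℕ) : ℝ) := by
      push_cast
      linarith
    exact_mod_cast this
  rcases le_or_gt τ (17 / 128) with h | h
  · obtain ⟨h1, h2, h3⟩ := WdB_low hr h
    left
    refine ⟨?_, h1⟩
    rw [hi] at h3
    have : (i : ℝ) < r := by linarith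
    exact_mod_cast this
  rcases le_or_gt τ (79 / 128) with h' | h'
  · rw [WdB_mid r h.le h'] at hi ⊢
    have hi' : (r : ℝ) * (4 * τ - 1 / 2) + Vf τ = i := hi
    have h1 := Vf_le τ
    have h2 := Vf_ge τ
    rcases lt_or_ge i r with hlt | hge
    · left
      refine ⟨hlt, ?_⟩
      show |1 / 2 - (4 * τ - 1 / 2)| < 1 / 2
      have h3 : (i : ℝ) + 1 ≤ r := by exact_mod_cast hlt
      have h4 : 4 * τ - 1 / 2 < 1 := by
        by_contra hc
        push Not at hc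
        have h5 : (r : ℝ) * 1 ≤ r * (4 * τ - 1 / 2) := mul_le_mul_of_nonneg_left hc (by linarith)
        linarith
      rw [abs_lt]
      constructor <;> linarith
    · right
      refine ⟨hge, hi2, ?_⟩
      show |1 / 2 - (4 * τ - 1 / 2) + 1| < 1 / 2
      have h3 : (r : ℝ) ≤ i := by exact_mod_cast hge
      have h4 : 1 < 4 * τ - 1 / 2 := by
        by_contra hc
        push Not at hc
        have h5 : (r : ℝ) * (4 * τ - 1 / 2) ≤ r * 1 := mul_le_mul_of_nonneg_left hc (by linarith)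
        have h6 : Vf τ = 0 := by linarith
        have h7 : (r : ℝ) * (4 * τ - 1 / 2) = r * 1 := by linarith
        have h8 : 4 * τ - 1 / 2 = 1 := mul_left_cancel₀ (by positivity) h7
        have h9 : Vf τ < 0 := Vf_neg (by linarith) (by linarith)
        linarith
      rw [abs_lt]
      constructor <;> linarith
  · rw [WdB_high r h'.le] at hi ⊢
    have hi' : (r : ℝ) * Uf r τ = i := hi
    have h1 := Uf_ge hr h'.le
    have h2 := Uf_lt hr h'.le
    have h3 := u1_pos hr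
    right
    refine ⟨?_, hi2, ?_⟩
    · have h4 : (r : ℝ) * 1 ≤ r * Uf r τ := mul_le_mul_of_nonneg_left (by linarith) (by linarith)
      have h5 : (r : ℝ) ≤ i := by linarith
      exact_mod_cast h5
    · show |1 / 2 - Uf r τ + 1| < 1 / 2
      rw [abs_lt]
      constructor <;> linarith

theorem WdB_late {r : ℕ} (hr : 1 ≤ r) {τ : ℝ} (h : 29 / 32 ≤ τ) :
    (qp r τ + tl0 r [] τ).1 = -(3 / 2) + (1 - lmb τ) * u1 r + lmb τ / 2 ∧
    (qp r τ + tl0 r [] τ).2 = 2 * r - 1 / 64 + lmb τ / 64 + bump (lmb τ) := by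
  rw [WdB_fst, WdB_snd, qp_late r hr (show 159 / 256 ≤ τ by linarith)]
  constructor
  · show -(3 / 2) + u1 r + lmb τ * (1 / 2 - u1 r) = _
    ring
  · show 2 * (r : ℝ) - 1 / 64 + (lmb τ * (1 / 64) + bump (lmb τ)) = _
    ring

theorem WdB_early (r : ℕ) {τ : ℝ} (h : τ ≤ 29 / 32) : qp r τ + tl0 r [] τ = qp r τ := by
  rw [tl0_zero r [] h, add_zero]

theorem WdB_lmb_low {τ : ℝ} (h : τ ≤ 59 / 64) : lmb τ ≤ 1 / 2 := by
  have := WdB_lmb_mono h
  rwa [WdB_lmb_half] at this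

theorem WdB_lmb_high {τ : ℝ} (h : 59 / 64 ≤ τ) : 1 / 2 ≤ lmb τ := by
  have := WdB_lmb_mono h
  rwa [WdB_lmb_half] at this

theorem WdB_tn_zero (r : ℕ) : tn r 0 = 0 := by
  unfold tn
  rw [mul_zero, Real.cos_zero, Real.sin_zero, sub_self, mul_zero, mul_zero, mul_zero, sub_zero]
  rfl

theorem WdB_tn_neg_one (r : ℕ) : tn r (-1) = 0 := by
  unfold tn
  have h1 : 2 * Real.pi * (-1) = -(2 * Real.pi) := by ring
  rw [h1, Real.cos_neg, Real.sin_neg, Real.cos_two_pi, Real.sin_two_pi, sub_self, neg_zero, mul_zero, mul_zero,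
    mul_zero, sub_zero]
  rfl

theorem WdB_tn_cont (r : ℕ) : Continuous (tn r) := by
  unfold tn
  fun_prop

/-- the step -/
noncomputable def WdB_St (σ : ℝ) : ℝ := Pool.Agent.CSG.stp (13 / 16) (7 / 8) σ

theorem WdB_St_cont : Continuous WdB_St := (Pool.Agent.CSG.stp_smooth _ _).continuous

theorem WdB_St_left {σ : ℝ} (h : σ ≤ 13 / 16) : WdB_St σ = 0 := Pool.Agent.CSG.stp_zero (by norm_num) h

theorem WdB_St_right {σ : ℝ} (h : 7 / 8 ≤ σ) : WdB_St σ = 1 := Pool.Agent.CSG.stp_one (by norm_num) h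

theorem WdB_St_nonneg (σ : ℝ) : 0 ≤ WdB_St σ := Pool.Agent.CSG.stp_nonneg _ _ _

theorem WdB_St_le (σ : ℝ) : WdB_St σ ≤ 1 := Pool.Agent.CSG.stp_le_one _ _ _

/-- the angle -/
noncomputable def WdB_al (l σ : ℝ) : ℝ := -1 + (1 - l / 4) * WdB_St σ

/-- the homotopy -/
noncomputable def WdB_H (r : ℕ) (l σ : ℝ) : ℝ × ℝ :=
  (qp r σ + tl0 r [] σ) + (1 - lmb σ) • tn r (WdB_al l σ)

theorem WdB_H_early (r : ℕ) (l : ℝ) {σ : ℝ} (h : σ ≤ 13 / 16) : WdB_H r l σ = qp r σ := by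
  unfold WdB_H WdB_al
  rw [WdB_St_left h, mul_zero, add_zero, WdB_tn_neg_one, smul_zero, add_zero]
  exact WdB_early r (by linarith)

theorem WdB_H_late {r : ℕ} (hr : 1 ≤ r) (l : ℝ) {σ : ℝ} (h : 13 / 16 ≤ σ) :
    (WdB_H r l σ).1 = -(3 / 2) + (1 - lmb σ) * (u1 r * Real.cos (2 * Real.pi * WdB_al l σ)) + lmb σ / 2 ∧
    (WdB_H r l σ).2 = 2 * r - (1 - lmb σ) * (u1 r * Real.sin (2 * Real.pi * WdB_al l σ) +
      Real.cos (2 * Real.pi * WdB_al l σ) / 64) + bump (lmb σ) := by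
  unfold WdB_H
  constructor
  · show (qp r σ + tl0 r [] σ).1 + (1 - lmb σ) * (u1 r * (Real.cos (2 * Real.pi * WdB_al l σ) - 1)) = _
    rw [WdB_fst, qp_late r hr (show 159 / 256 ≤ σ by linarith)]
    show -(3 / 2) + u1 r + lmb σ * (1 / 2 - u1 r) + (1 - lmb σ) * (u1 r * (Real.cos (2 * Real.pi * WdB_al l σ) - 1)) = _
    ring
  · show (qp r σ + tl0 r [] σ).2 + (1 - lmb σ) * (-u1 r * Real.sin (2 * Real.pi * WdB_al l σ) -
      1 / 64 * (Real.cos (2 * Real.pi * WdB_al l σ) - 1)) = _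
    rw [WdB_snd, qp_late r hr (show 159 / 256 ≤ σ by linarith)]
    show 2 * (r : ℝ) - 1 / 64 + (lmb σ * (1 / 64) + bump (lmb σ)) + (1 - lmb σ) *
      (-u1 r * Real.sin (2 * Real.pi * WdB_al l σ) - 1 / 64 * (Real.cos (2 * Real.pi * WdB_al l σ) - 1)) = _
    ring

theorem WdB_small {r : ℕ} (hr : 1 ≤ r) (x : ℝ) : |u1 r * Real.cos x| ≤ 1 / 64 ∧ |u1 r * Real.sin x| ≤ 1 / 64 := by
  have h1 := u1_pos hr
  have h2 := u1_le hr
  rw [abs_mul, abs_mul, abs_of_pos h1]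
  constructor
  · calc u1 r * |Real.cos x| ≤ u1 r * 1 := mul_le_mul_of_nonneg_left (Real.abs_cos_le_one x) h1.le
      _ ≤ 1 / 64 := by linarith
  · calc u1 r * |Real.sin x| ≤ u1 r * 1 := mul_le_mul_of_nonneg_left (Real.abs_sin_le_one x) h1.le
      _ ≤ 1 / 64 := by linarith

theorem WdB_cos_nonneg {l σ : ℝ} (hl : 0 ≤ l) (hl' : l ≤ 1) (h : 7 / 8 ≤ σ) :
    0 ≤ Real.cos (2 * Real.pi * WdB_al l σ) := by
  unfold WdB_al
  rw [WdB_St_right h]
  have hp := Real.pi_pos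
  have e : 2 * Real.pi * (-1 + (1 - l / 4) * 1) = -(l * (Real.pi / 2)) := by ring
  rw [e, Real.cos_neg]
  apply Real.cos_nonneg_of_neg_pi_div_two_le_of_le
  · have : 0 ≤ l * (Real.pi / 2) := by positivity
    linarith
  · have : l * (Real.pi / 2) ≤ 1 * (Real.pi / 2) := mul_le_mul_of_nonneg_right hl' (by positivity)
    linarith

theorem WdB_int {x : ℝ} {m n : ℤ} (h : x = (m : ℝ) - n) (hx : |x| < 1) : m = n ∧ x = 0 := by
  rw [h, abs_lt] at hx
  have h1 : ((-1 : ℤ) : ℝ) < ((m - n : ℤ) : ℝ) := by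
    push_cast
    linarith [hx.1]
  have h2 : ((m - n : ℤ) : ℝ) < ((1 : ℤ) : ℝ) := by
    push_cast
    linarith [hx.2]
  have h3 : (-1 : ℤ) < m - n := by exact_mod_cast h1
  have h4 : m - n < (1 : ℤ) := by exact_mod_cast h2
  have h5 : m = n := by omega
  refine ⟨h5, ?_⟩
  rw [h, h5, sub_self]

theorem WdB_avoid {r : ℕ} (hr : 1 ≤ r) {l : ℝ} (hl : 0 ≤ l) (hl' : l ≤ 1) (σ : ℝ) :
    ¬ Pool.Agent.PTH.Obs (WdB_H r l σ) := by
  rcases le_or_gt σ (13 / 16) with h | h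
  · have h1 := (tl0_seg hr).avoid σ
    have h1 : ¬ Pool.Agent.PTH.Obs (qp r σ + tl0 r [] σ) := h1
    rw [WdB_H_early r l h]
    rwa [WdB_early r (show σ ≤ 29 / 32 by linarith)] at h1
  · obtain ⟨e1, e2⟩ := WdB_H_late hr l h.le
    obtain ⟨hc, hs⟩ := WdB_small hr (2 * Real.pi * WdB_al l σ)
    have hcs := Real.sin_sq_add_cos_sq (2 * Real.pi * WdB_al l σ)
    have hcc := Real.abs_cos_le_one (2 * Real.pi * WdB_al l σ)
    have hu := u1_pos hr
    rintro ⟨m, n, hmn⟩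
    have g1' : (WdB_H r l σ).1 = (m : ℝ) + 1 / 2 := congrArg Prod.fst hmn
    have g2' : (WdB_H r l σ).2 = (n : ℝ) := congrArg Prod.snd hmn
    rw [e1] at g1'
    rw [e2] at g2'
    rcases le_or_gt σ (29 / 32) with h' | h'
    · rw [WdB_lmb_left h'] at g1' g2'
      rw [Pool.Agent.PTH.bump_left le_rfl] at g2'
      obtain ⟨-, k1⟩ := WdB_int (x := u1 r * Real.cos (2 * Real.pi * WdB_al l σ)) (m := m) (n := -2)
        (by push_cast; linarith) (by linarith)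
      have k2 : Real.cos (2 * Real.pi * WdB_al l σ) = 0 := by
        rcases mul_eq_zero.1 k1 with hh | hh
        · exact absurd hh hu.ne'
        · exact hh
      rw [k2] at g2'
      obtain ⟨-, k3⟩ := WdB_int (x := u1 r * Real.sin (2 * Real.pi * WdB_al l σ)) (m := 2 * (r : ℤ)) (n := n)
        (by push_cast; linarith) (by linarith)
      have k4 : Real.sin (2 * Real.pi * WdB_al l σ) = 0 := by
        rcases mul_eq_zero.1 k3 with hh | hh
        · exact absurd hh hu.ne'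
        · exact hh
      rw [k2, k4] at hcs
      norm_num at hcs
    · have hl1 : 0 < lmb σ := Pool.Agent.CSG.stp_pos (by norm_num) h'
      have hl2 := WdB_lmb_le σ
      have hcn := WdB_cos_nonneg hl hl' (show 7 / 8 ≤ σ by linarith)
      have k1 : 0 ≤ (1 - lmb σ) * (u1 r * Real.cos (2 * Real.pi * WdB_al l σ)) :=
        mul_nonneg (by linarith) (mul_nonneg hu.le hcn)
      have k2 : (1 - lmb σ) * (u1 r * Real.cos (2 * Real.pi * WdB_al l σ)) ≤ (1 - lmb σ) * (1 / 64) :=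
        mul_le_mul_of_nonneg_left ((le_abs_self _).trans hc) (by linarith)
      have k3 : ((-2 : ℤ) : ℝ) < (m : ℝ) := by
        push_cast
        linarith
      have k4 : (m : ℝ) < ((-1 : ℤ) : ℝ) := by
        push_cast
        linarith
      have k5 : (-2 : ℤ) < m := by exact_mod_cast k3
      have k6 : m < (-1 : ℤ) := by exact_mod_cast k4
      omega

theorem WdB_H_cont {r : ℕ} (hr : 1 ≤ r) : Continuous fun q : ℝ × ℝ => WdB_H r q.1 q.2 := by
  have h1 : Continuous fun σ : ℝ => qp r σ + tl0 r [] σ := (tl0_seg hr).cont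
  have h2 : Continuous lmb := (Pool.Agent.CSG.stp_smooth _ _).continuous
  have h3 := WdB_St_cont
  have h4 := WdB_tn_cont r
  unfold WdB_H WdB_al
  have h5 : Continuous fun q : ℝ × ℝ => -1 + (1 - q.1 / 4) * WdB_St q.2 := by
    have := h3.comp (continuous_snd (X := ℝ) (Y := ℝ))
    have : Continuous fun q : ℝ × ℝ => WdB_St q.2 := this
    fun_prop
  have h6 : Continuous fun q : ℝ × ℝ => lmb q.2 := h2.comp continuous_snd
  have h7 : Continuous fun q : ℝ × ℝ => qp r q.2 + tl0 r [] q.2 := h1.comp continuous_snd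
  exact h7.add ((continuous_const.sub h6).smul (h4.comp h5))

theorem WdB_H_seg {r : ℕ} (hr : 1 ≤ r) {l : ℝ} (hl : 0 ≤ l) (hl' : l ≤ 1) :
    IsSeg (WdB_H r l) (15 / 16) (-1, 2 * (r : ℤ)) := by
  refine ⟨by norm_num, ?_, ?_, ?_, WdB_avoid hr hl hl'⟩
  · exact (WdB_H_cont hr).comp (f := fun σ : ℝ => (l, σ)) (by fun_prop)
  · intro σ hσ
    rw [WdB_H_early r l (by linarith)]
    have h1 := (tl0_seg hr).start σ hσ
    have h1 : qp r σ + tl0 r [] σ = (0, 0) := h1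
    rwa [WdB_early r (show σ ≤ 29 / 32 by linarith)] at h1
  · intro σ hσ
    have h1 := (tl0_seg hr).stop σ hσ
    have h1 : qp r σ + tl0 r [] σ = _ := h1
    unfold WdB_H
    rw [WdB_lmb_right hσ, sub_self, zero_smul, add_zero]
    exact h1

theorem WdB_H_zero (r : ℕ) : WdB_H r 0 = fun σ => qp r σ + ntl r (tl0 r []) (-1) σ := by
  funext σ
  unfold WdB_H WdB_al ntl nus
  have e : -1 + (1 - (0 : ℝ) / 4) * WdB_St σ = -1 * (1 - Pool.Agent.CSG.stp (13 / 16) (7 / 8) σ) := by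
    unfold WdB_St
    ring
  rw [e]
  rcases le_or_gt σ (29 / 32) with h | h
  · rw [WdB_lmb_left h, sub_zero, one_smul]
    exact add_assoc _ _ _ |>.trans (by rw [add_comm (tl0 r [] σ)])
  · rw [Pool.Agent.CSG.stp_one (by norm_num) (show (7 / 8 : ℝ) ≤ σ by linarith), sub_self, mul_zero, WdB_tn_zero,
      smul_zero, add_zero, zero_add]

theorem WdB_al_one {σ : ℝ} (h : 7 / 8 ≤ σ) :
    Real.cos (2 * Real.pi * WdB_al 1 σ) = 0 ∧ Real.sin (2 * Real.pi * WdB_al 1 σ) = -1 := by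
  unfold WdB_al
  rw [WdB_St_right h]
  have e : 2 * Real.pi * (-1 + (1 - (1 : ℝ) / 4) * 1) = -(Real.pi / 2) := by ring
  rw [e, Real.cos_neg, Real.sin_neg, Real.cos_pi_div_two, Real.sin_pi_div_two]
  exact ⟨rfl, rfl⟩

/-- the row `2 r` -/
theorem WdB_cos_neg {r : ℕ} (hr : 1 ≤ r) {σ : ℝ}
    (h : u1 r * Real.sin (2 * Real.pi * WdB_al 1 σ) + Real.cos (2 * Real.pi * WdB_al 1 σ) / 64 = 0) :
    Real.cos (2 * Real.pi * WdB_al 1 σ) < 0 := by
  have hu := u1_pos hr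
  have hp := Real.pi_pos
  have hcs := Real.sin_sq_add_cos_sq (2 * Real.pi * WdB_al 1 σ)
  have hS0 := WdB_St_nonneg σ
  have hS1 := WdB_St_le σ
  have hne : Real.cos (2 * Real.pi * WdB_al 1 σ) ≠ 0 := by
    intro hc
    rw [hc, zero_div, add_zero] at h
    have hs : Real.sin (2 * Real.pi * WdB_al 1 σ) = 0 := by
      rcases mul_eq_zero.1 h with hh | hh
      · exact absurd hh hu.ne'
      · exact hh
    rw [hc, hs] at hcs
    norm_num at hcs
  have e : 2 * Real.pi * WdB_al 1 σ + 2 * Real.pi = (3 / 2 * WdB_St σ) * Real.pi := by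
    unfold WdB_al
    ring
  have ec : Real.cos (2 * Real.pi * WdB_al 1 σ) = Real.cos ((3 / 2 * WdB_St σ) * Real.pi) := by
    rw [← e, Real.cos_add_two_pi]
  have es : Real.sin (2 * Real.pi * WdB_al 1 σ) = Real.sin ((3 / 2 * WdB_St σ) * Real.pi) := by
    rw [← e, Real.sin_add_two_pi]
  refine lt_of_le_of_ne ?_ hne
  rcases le_or_gt (3 / 2 * WdB_St σ) (1 / 2) with hh | hh
  · exfalso
    have b1 : 0 ≤ (3 / 2 * WdB_St σ) * Real.pi := by positivity
    have b2 : (3 / 2 * WdB_St σ) * Real.pi ≤ 1 / 2 * Real.pi := mul_le_mul_of_nonneg_right hh hp.le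
    have c1 : 0 ≤ Real.cos ((3 / 2 * WdB_St σ) * Real.pi) :=
      Real.cos_nonneg_of_neg_pi_div_two_le_of_le (by linarith) (by linarith)
    have c2 : 0 ≤ Real.sin ((3 / 2 * WdB_St σ) * Real.pi) :=
      Real.sin_nonneg_of_nonneg_of_le_pi b1 (by linarith)
    rw [← ec] at c1
    rw [← es] at c2
    have c3 : 0 ≤ u1 r * Real.sin (2 * Real.pi * WdB_al 1 σ) := mul_nonneg hu.le c2
    exact hne (by linarith)
  · rw [ec]
    have b2 : 1 / 2 * Real.pi ≤ (3 / 2 * WdB_St σ) * Real.pi := mul_le_mul_of_nonneg_right hh.le hp.le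
    have b3 : (3 / 2 * WdB_St σ) * Real.pi ≤ (3 / 2) * Real.pi := mul_le_mul_of_nonneg_right (by linarith) hp.le
    exact Real.cos_nonpos_of_pi_div_two_le_of_le (by linarith) (by linarith)

theorem sh_B {r : ℕ} (hr : 1 ≤ r) :
    SH (fun σ => qp r σ + ntl r (tl0 r []) (-1) σ) (pos (gw (gB r) (2 * r) ++ xs 1)) (-1, 2 * (r : ℤ)) := by
  have hr' : (1 : ℝ) ≤ r := by exact_mod_cast hr
  have hu := u1_pos hr
  have hu' := u1_le hr
  have hcast : ((2 * r : ℕ) : ℤ) = 2 * (r : ℤ) := by push_cast; rfl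
  have hcastR : ((2 * r : ℕ) : ℝ) = 2 * (r : ℝ) := by push_cast; rfl
  refine Pool.Agent.PTH.sh_trans (u' := WdB_H r 1) ⟨15 / 16, WdB_H r, WdB_H_cont hr, WdB_H_zero r, rfl,
    fun l hl hl' => WdB_H_seg hr hl hl'⟩ ?_
  have hw : IsSeg (WdB_H r 1) (15 / 16) (-1, ((2 * r : ℕ) : ℤ)) := by
    rw [hcast]
    exact WdB_H_seg hr zero_le_one le_rfl
  have hγ : gB r (2 * r) = -2 := by
    unfold gB
    rw [if_neg (by omega), if_neg (by omega)]
  have hxs : -1 - gB r (2 * r) = 1 := by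
    rw [hγ]
    norm_num
  have hbc : ∀ σ, 13 / 16 ≤ σ → 2 * (r : ℝ) - 1 / 32 ≤ (WdB_H r 1 σ).2 ∧ (WdB_H r 1 σ).2 ≤ 2 * r + 1 / 2 + 1 / 32 := by
    intro σ hσ
    rw [(WdB_H_late hr 1 hσ).2]
    have h1 := (WdB_small hr (2 * Real.pi * WdB_al 1 σ)).2
    have h2 := Real.abs_cos_le_one (2 * Real.pi * WdB_al 1 σ)
    have h3 := WdB_lmb_nonneg σ
    have h4 := WdB_lmb_le σ
    have h5 := Pool.Agent.PTH.bump_nonneg (lmb σ)
    have h6 := Pool.Agent.PTH.bump_le (lmb σ)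
    rw [abs_le] at h1 h2
    obtain ⟨z, hz⟩ : ∃ z, z = u1 r * Real.sin (2 * Real.pi * WdB_al 1 σ) + Real.cos (2 * Real.pi * WdB_al 1 σ) / 64 := ⟨_, rfl⟩
    rw [← hz]
    have h7 : |z| ≤ 1 / 32 := by
      rw [hz, abs_le]
      constructor <;> linarith [h1.1, h1.2, h2.1, h2.2]
    have h8 : |(1 - lmb σ) * z| ≤ 1 / 32 := by
      rw [abs_mul, abs_of_nonneg (show 0 ≤ 1 - lmb σ by linarith)]
      calc (1 - lmb σ) * |z| ≤ 1 * |z| := mul_le_mul_of_nonneg_right (by linarith) (abs_nonneg z)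
        _ ≤ 1 / 32 := by linarith
    rw [abs_le] at h8
    constructor <;> linarith [h8.1, h8.2]
  have key := Pool.Agent.PTH.sh_gap (T := 59 / 64) hw (gB r) ?_ ?_ (by norm_num) ?_ ?_ ?_ ?_
  · rw [hxs, hcast] at key
    exact key
  · unfold gB
    rw [if_pos (by omega)]
  · intro τ
    rcases le_or_gt τ (13 / 16) with h | h
    · rw [WdB_H_early r 1 h]
      have h1 := (WdB_bd hr τ).1
      linarith
    · have h1 := (hbc τ h.le).1
      linarith
  · obtain ⟨a1, a2⟩ := WdB_al_one (σ := 59 / 64) (by norm_num)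
    rw [(WdB_H_late hr 1 (show (13 / 16 : ℝ) ≤ 59 / 64 by norm_num)).2, WdB_lmb_half, Pool.Agent.PTH.bump_half, hcastR, a1, a2]
    constructor <;> linarith
  · intro τ hτ i hi
    rcases le_or_gt τ (13 / 16) with h | h
    · rw [WdB_H_early r 1 h] at hi ⊢
      rcases WdB_row hr hi with ⟨h1, h2⟩ | ⟨h1, h3, h2⟩
      · unfold gB
        rw [if_pos h1]
        push_cast
        rw [sub_zero]
        exact h2
      · unfold gB
        rw [if_neg (by omega), if_pos h3]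
        push_cast
        rw [sub_neg_eq_add]
        exact h2
    obtain ⟨e1, e2⟩ := WdB_H_late hr 1 h.le
    rcases le_or_gt τ (29 / 32) with h' | h'
    · have hb := hbc τ h.le
      rw [hi] at hb
      have hi2 : i = 2 * r := by
        have k1 : ((2 * r : ℕ) : ℝ) < ((i + 1 : ℕ) : ℝ) := by
          push_cast
          linarith [hb.1]
        have k2 : (i : ℝ) < ((2 * r + 1 : ℕ) : ℝ) := by
          push_cast
          linarith [hb.2]
        have k3 : 2 * r < i + 1 := by exact_mod_cast k1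
        have k4 : i < 2 * r + 1 := by exact_mod_cast k2
        omega
      rw [e2, WdB_lmb_left h', Pool.Agent.PTH.bump_left le_rfl, hi2, hcastR] at hi
      have hz : u1 r * Real.sin (2 * Real.pi * WdB_al 1 τ) + Real.cos (2 * Real.pi * WdB_al 1 τ) / 64 = 0 := by
        linarith
      have hc := WdB_cos_neg hr hz
      have hc' := (WdB_small hr (2 * Real.pi * WdB_al 1 τ)).1
      rw [e1, WdB_lmb_left h', hi2, hγ]
      push_cast
      have hc2 : u1 r * Real.cos (2 * Real.pi * WdB_al 1 τ) < 0 := mul_neg_of_pos_of_neg hu hc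
      rw [abs_le] at hc'
      rw [abs_lt]
      constructor <;> linarith [hc'.1]
    · exfalso
      obtain ⟨a1, a2⟩ := WdB_al_one (σ := τ) (by linarith)
      rw [e2, a1, a2] at hi
      have h2 := WdB_lmb_low hτ
      have h1 := WdB_lmb_nonneg τ
      have h3 := Pool.Agent.PTH.bump_nonneg (lmb τ)
      have h3' := Pool.Agent.PTH.bump_le (lmb τ)
      have h5 : 0 < (1 - lmb τ) * u1 r := mul_pos (by linarith) hu
      have h6 : (1 - lmb τ) * u1 r ≤ 1 * u1 r := mul_le_mul_of_nonneg_right (by linarith) hu.le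
      refine Pool.Agent.PTH.no_int (j := 2 * r) ?_ ?_ i hi
      · rw [hcastR]
        linarith
      · rw [hcastR]
        linarith
  · intro τ hτ
    rw [hcastR]
    rcases le_or_gt τ (13 / 16) with h | h
    · rw [WdB_H_early r 1 h]
      have h1 := (WdB_bd hr τ).2
      linarith
    · have h1 := (hbc τ h.le).2
      linarith
  · intro τ hτ
    obtain ⟨e1, -⟩ := WdB_H_late hr 1 (show 13 / 16 ≤ τ by linarith)
    obtain ⟨a1, a2⟩ := WdB_al_one (σ := τ) (by linarith)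
    have hb := hbc τ (by linarith)
    have h1 := WdB_lmb_high hτ
    have h2 := WdB_lmb_le τ
    rw [e1, a1, hcastR]
    push_cast
    refine ⟨?_, ?_, ?_⟩
    · rw [abs_lt]
      constructor <;> linarith
    · linarith [hb.1]
    · linarith [hb.2]

theorem mk_B {r : ℕ} (hr : 1 ≤ r) : (FreeGroup.mk (gw (gB r) (2 * r) ++ xs 1) : CSW.F2) =
    CSW.fy ^ (r - 1) * CSW.fx⁻¹ * CSW.fy ^ r * CSW.fx⁻¹ * CSW.fy * CSW.fx := by
  rw [← FreeGroup.mul_mk, Pool.Agent.PTH.mk_gw, Pool.Agent.PTH.mk_xs]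
  obtain ⟨k, rfl⟩ : ∃ k, r = k + 1 := ⟨r - 1, by omega⟩
  have h0 : CSW.pw (gB (k + 1)) (2 * k + 1 + 1) =
      CSW.pw (gB (k + 1)) (2 * k + 1) * CSW.fx ^ (-1 : ℤ) * CSW.fy := by
    refine pw_jump ?_
    unfold gB
    rw [if_neg (by omega), if_neg (by omega), if_neg (by omega), if_pos (by omega)]
    rfl
  have h1 : CSW.pw (gB (k + 1)) (2 * k + 1) = CSW.pw (gB (k + 1)) (k + 1) * CSW.fy ^ (2 * k + 1 - (k + 1)) := by
    refine pw_const (by omega) ?_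
    intro i hi hi'
    unfold gB
    rw [if_neg (by omega), if_pos (by omega), if_neg (by omega), if_pos (by omega)]
  have h2 : CSW.pw (gB (k + 1)) (k + 1) = CSW.pw (gB (k + 1)) k * CSW.fx ^ (-1 : ℤ) * CSW.fy := by
    refine pw_jump ?_
    unfold gB
    rw [if_neg (by omega), if_pos (by omega), if_pos (by omega)]
    rfl
  have h3 : CSW.pw (gB (k + 1)) k = CSW.fy ^ k := by
    refine pw_zero ?_
    intro i hi
    unfold gB
    rw [if_pos (by omega)]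
  rw [show 2 * (k + 1) = 2 * k + 1 + 1 by ring, h0, h1, h2, h3, zpow_neg_one, zpow_one, Nat.add_sub_cancel,
    show 2 * k + 1 - (k + 1) = k by omega, pow_succ' CSW.fy k]
  simp only [mul_assoc]

end Pool.Agent.B1X
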