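import Pool.Agent.B1X.Trn
import Pool.Agent.B1X.WdA
import Pool.Agent.B1X.WdB

/-!
# B1X/Fin: `b1`

`trn` with `tl = tl0 r L`, `o = -1`; `sh_app` (`a = 15/16`, `b = 63/64`) with `sh_A`, `sh_B`, `tl0_split` (`ntl r (tl0 r L) o = ntl r (tl0 r []) o + pos L ..`);
`PTH.pathEq_of_words` (`tl0_path`, `ntl_path`): for all `L`: `PathEq (wpath (GA ++ L)) (wpath (GB ++ L))`.  `PTH.mem_GamF_iff'`: `mk GA (mk GB)⁻¹ ∈ Γ`,
the inverse is `U x⁻¹ y x (U y)⁻¹ = U x⁻¹ y (U y x⁻¹)⁻¹`, `U = y^{r-1} x⁻¹ y^r`.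
-/

open scoped Manifold ContDiff Topology

namespace Pool.Agent.B1X

open Pool.Agent.CSW (fx fy)
open Pool.Agent.PTH (Gam GamF sumZ gw xs pos SH IsPath)
open Pool.Agent.CSG (stp)

universe u

theorem Fin_sumA {r : ℕ} (hr : 1 ≤ r) : sumZ (gw (gA r) (2 * r)) = (-1, 2 * (r : ℤ)) := by
  rw [PTH.sumZ_gw]
  have h1 : gA r (2 * r) = -1 := by
    unfold gA
    rw [if_neg (by omega)]
  have h2 : gA r 0 = 0 := by
    unfold gA
    rw [if_pos (by omega)]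
  rw [h1, h2]
  push_cast
  rfl

theorem Fin_sumB {r : ℕ} (hr : 1 ≤ r) : sumZ (gw (gB r) (2 * r) ++ xs 1) = (-1, 2 * (r : ℤ)) := by
  rw [PTH.sumZ_append, PTH.sumZ_gw, PTH.sumZ_xs]
  have h1 : gB r (2 * r) = -2 := by
    unfold gB
    rw [if_neg (by omega), if_neg (by omega)]
  have h2 : gB r 0 = 0 := by
    unfold gB
    rw [if_pos (by omega)]
  rw [h1, h2]
  refine Prod.ext ?_ ?_
  · show (-2 : ℤ) - 0 + 1 = -1
    norm_num
  · show ((2 * r : ℕ) : ℤ) + 0 = 2 * (r : ℤ)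
    push_cast
    ring

theorem Fin_key {r : ℕ} (hr : 1 ≤ r) (L : List (Bool × Bool)) :
    PTH.PathEq.{u} (PTH.wpath (gw (gA r) (2 * r) ++ L)) (PTH.wpath ((gw (gB r) (2 * r) ++ xs 1) ++ L)) := by
  have ho : (-1 : ℝ) = 1 ∨ (-1 : ℝ) = -1 := Or.inr rfl
  have h1 := trn.{u} hr (tl0_tail hr L) (fun σ hσ => tl0_zero r L (hσ.trans (by norm_num))) ho
  have eA : sumZ (gw (gA r) (2 * r) ++ L) = (-1, 2 * (r : ℤ)) + sumZ L := by
    rw [PTH.sumZ_append, Fin_sumA hr]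
  have eB : sumZ ((gw (gB r) (2 * r) ++ xs 1) ++ L) = (-1, 2 * (r : ℤ)) + sumZ L := by
    rw [PTH.sumZ_append, Fin_sumB hr]
  have hA : SH (fun σ => qp r σ + tl0 r L σ) (pos (gw (gA r) (2 * r) ++ L)) (sumZ (gw (gA r) (2 * r) ++ L)) := by
    have h := sh_app (a := 15 / 16) (b := 63 / 64) (by norm_num) (tl0_seg hr) (Fin_sumA hr) (sh_A hr) L
    rw [eA]
    have e : (fun σ => qp r σ + tl0 r L σ) =
        fun σ => (qp r σ + tl0 r [] σ) + pos L (L.length * stp (15 / 16) (63 / 64) σ) := by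
      funext σ
      rw [tl0_split r L σ, add_assoc]
    rw [e]
    exact h
  have hB : SH (fun σ => qp r σ + ntl r (tl0 r L) (-1) σ) (pos ((gw (gB r) (2 * r) ++ xs 1) ++ L))
      (sumZ ((gw (gB r) (2 * r) ++ xs 1) ++ L)) := by
    have h := sh_app (a := 15 / 16) (b := 63 / 64) (by norm_num) (ntl_seg hr ho) (Fin_sumB hr) (sh_B hr) L
    rw [eB]
    have e : (fun σ => qp r σ + ntl r (tl0 r L) (-1) σ) =
        fun σ => (qp r σ + ntl r (tl0 r []) (-1) σ) + pos L (L.length * stp (15 / 16) (63 / 64) σ) := by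
      funext σ
      unfold ntl
      rw [tl0_split r L σ, add_assoc, add_assoc]
    rw [e]
    exact h
  refine (PTH.pathEq_of_words ?_ ?_ hA hB).1 h1
  · rw [eA]
    exact tl0_path hr L
  · rw [eB]
    exact ntl_path hr L ho

theorem b1 (r : ℕ) (hr : 1 ≤ r) : fy ^ (r - 1) * fx⁻¹ * fy ^ r * fx⁻¹ * fy *
    (fy ^ (r - 1) * fx⁻¹ * fy ^ r * fy * fx⁻¹)⁻¹ ∈ Gam.{u} := by
  have h : (FreeGroup.mk (gw (gA r) (2 * r)) : FreeGroup Bool) *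
      (FreeGroup.mk (gw (gB r) (2 * r) ++ xs 1))⁻¹ ∈ GamF.{u} :=
    (PTH.mem_GamF_iff' _ _).2 (Fin_key hr)
  have h' : (FreeGroup.mk (gw (gA r) (2 * r)) : FreeGroup Bool) *
      (FreeGroup.mk (gw (gB r) (2 * r) ++ xs 1))⁻¹ ∈ Gam.{u} := h
  have h2 := Gam.{u}.inv_mem h'
  have eA := mk_A hr
  have eB := mk_B hr
  have e : ((FreeGroup.mk (gw (gA r) (2 * r)) : FreeGroup Bool) *
      (FreeGroup.mk (gw (gB r) (2 * r) ++ xs 1))⁻¹)⁻¹ = fy ^ (r - 1) * fx⁻¹ * fy ^ r * fx⁻¹ * fy *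
    (fy ^ (r - 1) * fx⁻¹ * fy ^ r * fy * fx⁻¹)⁻¹ := by
    rw [show (FreeGroup.mk (gw (gA r) (2 * r)) : FreeGroup Bool) =
      fy ^ (r - 1) * fx⁻¹ * fy ^ r * fy from eA, show (FreeGroup.mk (gw (gB r) (2 * r) ++ xs 1) : FreeGroup Bool) =
      fy ^ (r - 1) * fx⁻¹ * fy ^ r * fx⁻¹ * fy * fx from eB]
    group
  rw [← e]
  exact h2

end Pool.Agent.B1X
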