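import Pool.Agent.B1X.FnA

/-!
# B1X/FnB: the functions `Uf`, `Vf`, `nf`   (difficulty 2)

`Uf r σ = (4 σ - 1/2) aa bb + u1 (1 - aa) + (2 - u1) (1 - bb)`; `aa = stp (33/256) (17/128)`, `bb = 1 - stp (79/128) (159/256)`.
* `Uf_pos`, `Uf_le` (`σ ≤ 17/128`): `bb = 1`; for `σ ≤ 33/256` the value is `u1 ∈ (0, 1/64]`; for `33/256 ≤ σ ≤ 17/128` it is a convex
  combination of `u1` and `4 σ - 1/2 ∈ [1/64, 1/32]`.
* `Uf_ge`, `Uf_lt` (`79/128 ≤ σ`): `aa = 1`; for `σ ≥ 159/256` the value is `2 - u1`; for `79/128 ≤ σ ≤ 159/256` it is a convex combination of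
  `4 σ - 1/2 ∈ [63/32, 127/64]` and `2 - u1 ∈ [127/64, 2)`.
* `Uf_deriv`: on `[17/128, 79/128]` the derivative is `4` (at the interior points: `Uf = 4 σ - 1/2` near `σ`; at the end points the derivative is
  computed from one side, e.g. `HasDerivWithinAt` on `Ici` and `UniqueDiffWithinAt`; or with the product rule, `aa' = 0` at `17/128` as `aa ≤ 1`
  has a maximum there: `IsLocalMax.deriv_eq_zero`).
* `Vf σ = -(1/64) bump (128 σ - 95/2)`: `bump_left, bump_right, bump_pos, bump_le, bump_nonneg, bump_smooth` of PTH/Wrd.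
* `nf σ = mu (999 + Sf (4 σ - 1/2) + stp (31/32) (33/32) (4 σ - 1/2) + Sf (4 σ - 3/2))`.
-/

open scoped Manifold ContDiff Topology
open Set Filter
open Complex (I)
open Pool.Agent.CSG (stp)

namespace Pool.Agent.B1X

private theorem FnB_aa_smooth : ContDiff ℝ ∞ aa := CSG.stp_smooth _ _
private theorem FnB_bb_smooth : ContDiff ℝ ∞ bb := contDiff_const.sub (CSG.stp_smooth _ _)
private theorem FnB_aa_nonneg (σ : ℝ) : 0 ≤ aa σ := CSG.stp_nonneg _ _ _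
private theorem FnB_aa_le (σ : ℝ) : aa σ ≤ 1 := CSG.stp_le_one _ _ _
private theorem FnB_bb_nonneg (σ : ℝ) : 0 ≤ bb σ := by
  have := CSG.stp_le_one (79 / 128) (159 / 256) σ
  unfold bb; linarith
private theorem FnB_bb_le (σ : ℝ) : bb σ ≤ 1 := by
  have := CSG.stp_nonneg (79 / 128) (159 / 256) σ
  unfold bb; linarith
private theorem FnB_aa_zero {σ : ℝ} (h : σ ≤ 33 / 256) : aa σ = 0 := CSG.stp_zero (by norm_num) h
private theorem FnB_aa_one {σ : ℝ} (h : 17 / 128 ≤ σ) : aa σ = 1 := CSG.stp_one (by norm_num) h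
private theorem FnB_bb_one {σ : ℝ} (h : σ ≤ 79 / 128) : bb σ = 1 := by
  unfold bb; rw [CSG.stp_zero (by norm_num) h, sub_zero]
private theorem FnB_bb_zero {σ : ℝ} (h : 159 / 256 ≤ σ) : bb σ = 0 := by
  unfold bb; rw [CSG.stp_one (by norm_num) h, sub_self]

theorem Uf_smooth (r : ℕ) : ContDiff ℝ ∞ (Uf r) := by
  have h1 : ContDiff ℝ ∞ (fun σ : ℝ => 4 * σ - 1 / 2) :=
    (contDiff_const.mul contDiff_id).sub contDiff_const
  exact (((h1.mul FnB_aa_smooth).mul FnB_bb_smooth).add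
    (contDiff_const.mul (contDiff_const.sub FnB_aa_smooth))).add
    (contDiff_const.mul (contDiff_const.sub FnB_bb_smooth))
theorem Uf_left (r : ℕ) {σ : ℝ} (h : σ ≤ 33 / 256) : Uf r σ = u1 r := by
  unfold Uf
  rw [FnB_aa_zero h, FnB_bb_one (by linarith)]
  ring
theorem Uf_mid (r : ℕ) {σ : ℝ} (h : 17 / 128 ≤ σ) (h' : σ ≤ 79 / 128) : Uf r σ = 4 * σ - 1 / 2 := by
  unfold Uf
  rw [FnB_aa_one h, FnB_bb_one h']
  ring
theorem Uf_right (r : ℕ) {σ : ℝ} (h : 159 / 256 ≤ σ) : Uf r σ = 2 - u1 r := by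
  unfold Uf
  rw [FnB_aa_one (by linarith), FnB_bb_zero h]
  ring
theorem Uf_pos {r : ℕ} (hr : 1 ≤ r) {σ : ℝ} (h : σ ≤ 17 / 128) : 0 < Uf r σ := by
  rcases le_total σ (33 / 256) with h1 | h1
  · rw [Uf_left r h1]; exact u1_pos hr
  · unfold Uf
    rw [FnB_bb_one (by linarith)]
    have h2 := FnB_aa_nonneg σ
    have h3 := FnB_aa_le σ
    have h4 := u1_pos hr
    have h5 : (1 / 64 : ℝ) ≤ 4 * σ - 1 / 2 := by linarith
    rcases eq_or_lt_of_le h2 with h6 | h6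
    · rw [← h6]; linarith
    · have h7 : 0 < (4 * σ - 1 / 2) * aa σ := mul_pos (by linarith) h6
      have h8 : 0 ≤ u1 r * (1 - aa σ) := mul_nonneg h4.le (by linarith)
      linarith
theorem Uf_le {r : ℕ} (hr : 1 ≤ r) {σ : ℝ} (h : σ ≤ 17 / 128) : Uf r σ ≤ 1 / 32 := by
  unfold Uf
  rw [FnB_bb_one (by linarith)]
  have h2 := FnB_aa_nonneg σ
  have h3 := FnB_aa_le σ
  have h4 := u1_le hr
  have h7 : (4 * σ - 1 / 2) * aa σ ≤ 1 / 32 * aa σ := mul_le_mul_of_nonneg_right (by linarith) h2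
  have h8 : u1 r * (1 - aa σ) ≤ 1 / 32 * (1 - aa σ) :=
    mul_le_mul_of_nonneg_right (by linarith) (by linarith)
  linarith
theorem Uf_ge {r : ℕ} (hr : 1 ≤ r) {σ : ℝ} (h : 79 / 128 ≤ σ) : 63 / 32 ≤ Uf r σ := by
  unfold Uf
  rw [FnB_aa_one (by linarith)]
  have h2 := FnB_bb_nonneg σ
  have h3 := FnB_bb_le σ
  have h4 := u1_le hr
  have h7 : 63 / 32 * bb σ ≤ (4 * σ - 1 / 2) * bb σ := mul_le_mul_of_nonneg_right (by linarith) h2
  have h8 : 63 / 32 * (1 - bb σ) ≤ (2 - u1 r) * (1 - bb σ) :=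
    mul_le_mul_of_nonneg_right (by linarith) (by linarith)
  linarith
theorem Uf_lt {r : ℕ} (hr : 1 ≤ r) {σ : ℝ} (h : 79 / 128 ≤ σ) : Uf r σ ≤ 2 - u1 r := by
  rcases le_total (159 / 256) σ with h1 | h1
  · rw [Uf_right r h1]
  · unfold Uf
    rw [FnB_aa_one (by linarith)]
    have h2 := FnB_bb_nonneg σ
    have h4 := u1_le hr
    have h7 : (4 * σ - 1 / 2) * bb σ ≤ (2 - u1 r) * bb σ :=
      mul_le_mul_of_nonneg_right (by linarith) h2
    linarith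
theorem Uf_deriv (r : ℕ) {σ : ℝ} (h : 17 / 128 ≤ σ) (h' : σ ≤ 79 / 128) : deriv (Uf r) σ = 4 := by
  have hc : Continuous (deriv (Uf r)) :=
    (Uf_smooth r).continuous_deriv (by simp)
  have hcl : IsClosed {x : ℝ | deriv (Uf r) x = 4} := isClosed_eq hc continuous_const
  have hsub : Ioo (17 / 128 : ℝ) (79 / 128) ⊆ {x : ℝ | deriv (Uf r) x = 4} := by
    intro x hx
    have h1 : Uf r =ᶠ[𝓝 x] fun σ => 4 * σ - 1 / 2 := by
      filter_upwards [Ioo_mem_nhds hx.1 hx.2] with y hy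
      exact Uf_mid r hy.1.le hy.2.le
    have h2 : HasDerivAt (fun σ : ℝ => 4 * σ - 1 / 2) 4 x := by
      have := ((hasDerivAt_id x).const_mul (4 : ℝ)).sub_const (1 / 2)
      simpa using this
    show deriv (Uf r) x = 4
    rw [h1.deriv_eq, h2.deriv]
  have h3 : closure (Ioo (17 / 128 : ℝ) (79 / 128)) ⊆ {x : ℝ | deriv (Uf r) x = 4} :=
    closure_minimal hsub hcl
  rw [closure_Ioo (by norm_num)] at h3
  exact h3 ⟨h, h'⟩

theorem Vf_smooth : ContDiff ℝ ∞ Vf := by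
  have h1 : ContDiff ℝ ∞ (fun σ : ℝ => 128 * σ - 95 / 2) :=
    (contDiff_const.mul contDiff_id).sub contDiff_const
  exact contDiff_const.mul (PTH.bump_smooth.comp h1)
theorem Vf_left {σ : ℝ} (h : σ ≤ 95 / 256) : Vf σ = 0 := by
  unfold Vf
  rw [PTH.bump_left (by linarith), mul_zero]
theorem Vf_right {σ : ℝ} (h : 97 / 256 ≤ σ) : Vf σ = 0 := by
  unfold Vf
  rw [PTH.bump_right (by linarith), mul_zero]
theorem Vf_neg {σ : ℝ} (h : 95 / 256 < σ) (h' : σ < 97 / 256) : Vf σ < 0 := by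
  have := PTH.bump_pos (τ := 128 * σ - 95 / 2) (by linarith) (by linarith)
  unfold Vf
  linarith
theorem Vf_le (σ : ℝ) : Vf σ ≤ 0 := by
  have := PTH.bump_nonneg (128 * σ - 95 / 2)
  unfold Vf
  linarith
theorem Vf_ge (σ : ℝ) : -(1 / 128) ≤ Vf σ := by
  have := PTH.bump_le (128 * σ - 95 / 2)
  unfold Vf
  linarith

theorem nf_smooth : ContDiff ℝ ∞ nf := by
  have h1 : ContDiff ℝ ∞ (fun σ : ℝ => 4 * σ - 1 / 2) :=
    (contDiff_const.mul contDiff_id).sub contDiff_const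
  have h2 : ContDiff ℝ ∞ (fun σ : ℝ => 4 * σ - 3 / 2) :=
    (contDiff_const.mul contDiff_id).sub contDiff_const
  exact contDiff_const.mul (((contDiff_const.add (Sf_smooth.comp h1)).add
    ((CSG.stp_smooth _ _).comp h1)).add (Sf_smooth.comp h2))
theorem nf_mono : Monotone nf := by
  intro x y hxy
  have h1 : Sf (4 * x - 1 / 2) ≤ Sf (4 * y - 1 / 2) := Sf_mono (by linarith)
  have h2 : stp (31 / 32) (33 / 32) (4 * x - 1 / 2) ≤ stp (31 / 32) (33 / 32) (4 * y - 1 / 2) :=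
    CSG.stp_mono (by norm_num) (by linarith)
  have h3 : Sf (4 * x - 3 / 2) ≤ Sf (4 * y - 3 / 2) := Sf_mono (by linarith)
  unfold nf
  exact mul_le_mul_of_nonneg_left (by linarith) mu_pos.le
theorem nf_ge (σ : ℝ) : 999 * mu ≤ nf σ := by
  have h1 := Sf_nonneg (4 * σ - 1 / 2)
  have h2 : 0 ≤ stp (31 / 32) (33 / 32) (4 * σ - 1 / 2) := CSG.stp_nonneg _ _ _
  have h3 := Sf_nonneg (4 * σ - 3 / 2)
  unfold nf
  rw [mul_comm]
  exact mul_le_mul_of_nonneg_left (by linarith) mu_pos.le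
theorem nf_le (σ : ℝ) : nf σ ≤ 1002 * mu := by
  have h1 := Sf_le (4 * σ - 1 / 2)
  have h2 : stp (31 / 32) (33 / 32) (4 * σ - 1 / 2) ≤ 1 := CSG.stp_le_one _ _ _
  have h3 := Sf_le (4 * σ - 3 / 2)
  unfold nf
  rw [mul_comm (1002 : ℝ)]
  exact mul_le_mul_of_nonneg_left (by linarith) mu_pos.le
theorem nf_first {σ : ℝ} (h : σ ≤ 47 / 128) : nf σ = (999 + Sf (4 * σ - 1 / 2)) * mu := by
  unfold nf
  have h1 : stp (31 / 32) (33 / 32) (4 * σ - 1 / 2) = 0 := CSG.stp_zero (by norm_num) (by linarith)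
  rw [h1, Sf_left (τ := 4 * σ - 3 / 2) (by linarith)]
  ring
theorem nf_second {σ : ℝ} (h : 49 / 128 ≤ σ) : nf σ = (1001 + Sf (4 * σ - 3 / 2)) * mu := by
  unfold nf
  have h1 : stp (31 / 32) (33 / 32) (4 * σ - 1 / 2) = 1 := CSG.stp_one (by norm_num) (by linarith)
  rw [h1, Sf_right (τ := 4 * σ - 1 / 2) (by linarith)]
  ring
theorem nf_low {σ : ℝ} (h : σ ≤ 7 / 32) : nf σ = 999 * mu := by
  rw [nf_first (by linarith), Sf_left (by linarith), add_zero]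
theorem nf_high {σ : ℝ} (h : 17 / 32 ≤ σ) : nf σ = 1002 * mu := by
  rw [nf_second (by linarith), Sf_right (by linarith)]
  norm_num
theorem nf_shift {σ : ℝ} (h : 17 / 128 ≤ σ) (h' : σ ≤ 47 / 128) : nf (σ + 1 / 4) = nf σ + 2 * mu := by
  rw [nf_first h', nf_second (by linarith)]
  have : 4 * (σ + 1 / 4) - 3 / 2 = 4 * σ - 1 / 2 := by ring
  rw [this]
  ring

end Pool.Agent.B1X
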