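import Pool.Agent.B1X.FnB

/-!
# B1X/FnC: the radius `rT`   (difficulty 3)

`rT = (1 - g1) Lp + g1 Lq`, `g1 = 0` for `σ ≤ 1/32`, `g1 = 1` for `σ ≥ 1/16`.  Write `S = stp (-3/4) (-1/2) σ`:
* `Lp = (1 - S) (-σ) + S (27/64 - σ/16)`; derivative `-(1 - S) - S/16 + S' (27/64 + 15 σ/16)`; `S' ≥ 0`, and `S' = 0` for `σ ≥ -1/2`
  (also for `σ ≤ -3/4`), while `27/64 + 15 σ/16 < 0` for `σ < -9/20`, so the derivative is `≤ -1/16` everywhere.
* `rr (nf² ) = 1/2 + nf²/8` is nondecreasing; `Lq = rr (nf²) - (17/128 - σ) (1 - stp (1/8) (17/128) σ) + (σ - rr (nf²)) stp (79/128) (3/4) σ`.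
  For `σ ≤ 79/128` the last summand is `0`.  For `σ ≤ 17/128` we have `nf = 999 mu` (`nf_low`), the derivative is
  `(1 - stp (1/8) (17/128) σ) + (17/128 - σ) stp' ≥ 1 - stp (1/8) (17/128) σ`, positive for `σ < 17/128`.  For `17/128 ≤ σ ≤ 79/128`: `Lq = rr (nf²)`.
  For `σ ≥ 79/128` (`nf = 1002 mu`, `nf_high`): the derivative is `stp (79/128) (3/4) σ + (σ - rr) stp'`, positive for `σ > 79/128`
  (`rr (nf²) < 51/100 < σ`).  For `σ ≥ 3/4`: `Lq = σ`.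
* `rT_hair`: for `1/32 < σ' < 1/16 ≤ σ`: `Lp σ' < 27/64 < 55/128 ≤ Lq (1/16)` and `Lq σ' < Lq (1/16)`, so the convex combination
  `rT σ' < Lq (1/16) = rT (1/16) ≤ rT σ`.
* `rT_gt`: `σ ≤ 1/32`: `rT σ = Lp σ ≥ Lp (1/32) = 27/64 - 1/512 > 3/8`; `1/32 ≤ σ ≤ 1/16`: convex combination of `Lp σ ≥ Lp (1/16) = 27/64 - 1/256` and
  `Lq σ ≥ 1/2 - 13/128`; then monotone.  `rT_lt`: `σ ≤ 1/32`: `Lp` is decreasing, `Lp (-1) = 1`; `σ ≥ 1/16`: monotone, `rT 1 = 1`, strictly after `3/4`.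
* the derivative of `rT` at `1/32` and at `1/16`: `g1' = 0` there (minimum / maximum of `g1`), or one-sided derivatives.
-/

open scoped Manifold ContDiff Topology
open Set Filter
open Complex (I)
open Pool.Agent.CSG (stp)

namespace Pool.Agent.B1X

/-! ### auxiliary functions -/

theorem FnC_stp_has (a b σ : ℝ) : HasDerivAt (stp a b) (deriv (stp a b) σ) σ :=
  ((CSG.stp_smooth a b).differentiable (by simp)).differentiableAt.hasDerivAt

theorem FnC_stp_right {a b σ : ℝ} (hab : a < b) (h : b ≤ σ) : deriv (stp a b) σ = 0 := by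
  apply IsLocalMax.deriv_eq_zero
  apply Filter.Eventually.of_forall
  intro x
  show stp a b x ≤ stp a b σ
  rw [CSG.stp_one hab h]
  exact CSG.stp_le_one a b x

theorem FnC_stp_left {a b σ : ℝ} (hab : a < b) (h : σ ≤ a) : deriv (stp a b) σ = 0 := by
  apply IsLocalMin.deriv_eq_zero
  apply Filter.Eventually.of_forall
  intro x
  show stp a b σ ≤ stp a b x
  rw [CSG.stp_zero hab h]
  exact CSG.stp_nonneg a b x

/-- the radius of the ribbon -/
theorem FnC_R_lo (σ : ℝ) : 1 / 2 + 1 / 1280000 < rr (nf σ ^ 2) := by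
  have h := nf_ge σ
  have h0 : (0 : ℝ) ≤ 999 * mu := by
    unfold mu
    norm_num
  have h1 : (999 * mu) ^ 2 ≤ nf σ ^ 2 := pow_le_pow_left₀ h0 h 2
  unfold rr
  have h2 : (1 : ℝ) / 1280000 < (999 * mu) ^ 2 / 8 := by
    unfold mu
    norm_num
  linarith

theorem FnC_R_hi (σ : ℝ) : rr (nf σ ^ 2) < 51 / 100 := by
  have h := nf_le σ
  have h0 : (0 : ℝ) ≤ nf σ := le_trans (by unfold mu; norm_num) (nf_ge σ)
  have h1 : nf σ ^ 2 ≤ (1002 * mu) ^ 2 := pow_le_pow_left₀ h0 h 2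
  unfold rr
  have h2 : (1002 * mu) ^ 2 / 8 < 1 / 100 := by
    unfold mu
    norm_num
  linarith

theorem FnC_R_smooth : ContDiff ℝ ∞ (fun σ => rr (nf σ ^ 2)) := by
  unfold rr
  exact contDiff_const.add ((nf_smooth.pow 2).div_const 8)

theorem FnC_R_mono : Monotone (fun σ => rr (nf σ ^ 2)) := by
  intro x y hxy
  have h0 : (0 : ℝ) ≤ nf x := le_trans (by unfold mu; norm_num) (nf_ge x)
  have h1 : nf x ^ 2 ≤ nf y ^ 2 := pow_le_pow_left₀ h0 (nf_mono hxy) 2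
  show rr (nf x ^ 2) ≤ rr (nf y ^ 2)
  unfold rr
  linarith

theorem FnC_R_has (σ : ℝ) :
    HasDerivAt (fun σ => rr (nf σ ^ 2)) (deriv (fun σ => rr (nf σ ^ 2)) σ) σ :=
  (FnC_R_smooth.differentiable (by simp)).differentiableAt.hasDerivAt

theorem FnC_Lp_smooth : ContDiff ℝ ∞ Lp := by
  unfold Lp
  have h := CSG.stp_smooth (-(3 / 4)) (-(1 / 2))
  fun_prop

theorem FnC_Lq_smooth : ContDiff ℝ ∞ Lq := by
  unfold Lq
  have h := FnC_R_smooth
  have h1 := CSG.stp_smooth (1 / 8) (17 / 128)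
  have h2 := CSG.stp_smooth (79 / 128) (3 / 4)
  exact (h.sub ((contDiff_const.sub contDiff_id).mul (contDiff_const.sub h1))).add
    ((contDiff_id.sub h).mul h2)

theorem rT_smooth : ContDiff ℝ ∞ rT := by
  unfold rT
  exact ((contDiff_const.sub g1_smooth).mul FnC_Lp_smooth).add (g1_smooth.mul FnC_Lq_smooth)

theorem FnC_Lp_has (σ : ℝ) : ∃ D, HasDerivAt Lp D σ ∧ D ≤ -(1 / 16) := by
  have hS := FnC_stp_has (-(3 / 4)) (-(1 / 2)) σ
  have h1 : HasDerivAt Lp (((0 - deriv (stp (-(3 / 4)) (-(1 / 2))) σ) * (-σ) +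
      (1 - stp (-(3 / 4)) (-(1 / 2)) σ) * (-1)) +
      (deriv (stp (-(3 / 4)) (-(1 / 2))) σ * (27 / 64 - σ / 16) +
        stp (-(3 / 4)) (-(1 / 2)) σ * (0 - 1 / 16))) σ := by
    unfold Lp
    exact (((hasDerivAt_const σ (1 : ℝ)).sub hS).mul (hasDerivAt_id σ).neg).add
      (hS.mul ((hasDerivAt_const σ (27 / 64 : ℝ)).sub ((hasDerivAt_id σ).div_const 16)))
  refine ⟨_, h1, ?_⟩
  have h2 : deriv (stp (-(3 / 4)) (-(1 / 2))) σ * (27 / 64 + 15 / 16 * σ) ≤ 0 := by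
    rcases le_total σ (-(9 / 20)) with h | h
    · exact mul_nonpos_of_nonneg_of_nonpos (CSG.stp_deriv_nonneg (by norm_num) σ) (by linarith)
    · rw [FnC_stp_right (by norm_num) (by linarith), zero_mul]
  have h3 := CSG.stp_le_one (-(3 / 4)) (-(1 / 2)) σ
  nlinarith

theorem FnC_Lq_has (σ : ℝ) : ∃ D, HasDerivAt Lq D σ ∧ 0 ≤ D ∧
    ((σ < 17 / 128 ∨ 79 / 128 < σ) → 0 < D) := by
  have hA := FnC_stp_has (1 / 8) (17 / 128) σ
  have hB := FnC_stp_has (79 / 128) (3 / 4) σ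
  have hR := FnC_R_has σ
  have hR0 : 0 ≤ deriv (fun σ => rr (nf σ ^ 2)) σ := FnC_R_mono.deriv_nonneg
  set R' := deriv (fun σ => rr (nf σ ^ 2)) σ with hR'
  set A' := deriv (stp (1 / 8) (17 / 128)) σ with hA'
  set B' := deriv (stp (79 / 128) (3 / 4)) σ with hB'
  have h1 : HasDerivAt Lq ((R' - ((0 - 1) * (1 - stp (1 / 8) (17 / 128) σ) +
      (17 / 128 - σ) * (0 - A'))) +
      ((1 - R') * stp (79 / 128) (3 / 4) σ + (σ - rr (nf σ ^ 2)) * B')) σ := by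
    unfold Lq
    exact (hR.sub (((hasDerivAt_const σ (17 / 128 : ℝ)).sub (hasDerivAt_id σ)).mul
      ((hasDerivAt_const σ (1 : ℝ)).sub hA))).add (((hasDerivAt_id σ).sub hR).mul hB)
  have hA0 : 0 ≤ (17 / 128 - σ) * A' := by
    rcases le_total σ (17 / 128) with h | h
    · exact mul_nonneg (by linarith) (CSG.stp_deriv_nonneg (by norm_num) σ)
    · rw [hA', FnC_stp_right (by norm_num) h, mul_zero]
  have hB0 : 0 ≤ (σ - rr (nf σ ^ 2)) * B' := by
    rcases le_total σ (79 / 128) with h | h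
    · rw [hB', FnC_stp_left (by norm_num) h, mul_zero]
    · have := FnC_R_hi σ
      exact mul_nonneg (by linarith) (CSG.stp_deriv_nonneg (by norm_num) σ)
  have a1 := CSG.stp_le_one (1 / 8) (17 / 128) σ
  have b0 := CSG.stp_nonneg (79 / 128) (3 / 4) σ
  have b1 := CSG.stp_le_one (79 / 128) (3 / 4) σ
  have hRB : 0 ≤ R' * (1 - stp (79 / 128) (3 / 4) σ) := mul_nonneg hR0 (by linarith)
  have e : (R' - ((0 - 1) * (1 - stp (1 / 8) (17 / 128) σ) +
      (17 / 128 - σ) * (0 - A'))) +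
      ((1 - R') * stp (79 / 128) (3 / 4) σ + (σ - rr (nf σ ^ 2)) * B') =
      R' * (1 - stp (79 / 128) (3 / 4) σ) + (1 - stp (1 / 8) (17 / 128) σ) +
        (17 / 128 - σ) * A' + stp (79 / 128) (3 / 4) σ + (σ - rr (nf σ ^ 2)) * B' := by ring
  rw [e] at h1
  refine ⟨_, h1, by linarith, ?_⟩
  rintro (h | h)
  · have := CSG.stp_lt_one (a := 1 / 8) (b := 17 / 128) (by norm_num) h
    linarith
  · have := CSG.stp_pos (a := 79 / 128) (b := 3 / 4) (by norm_num) h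
    linarith

theorem FnC_rT_has (σ : ℝ) {D E : ℝ} (hD : HasDerivAt Lp D σ) (hE : HasDerivAt Lq E σ) :
    HasDerivAt rT ((0 - deriv g1 σ) * Lp σ + (1 - g1 σ) * D + (deriv g1 σ * Lq σ + g1 σ * E)) σ := by
  unfold rT
  have hg : HasDerivAt g1 (deriv g1 σ) σ :=
    (g1_smooth.differentiable (by simp)).differentiableAt.hasDerivAt
  exact (((hasDerivAt_const σ (1 : ℝ)).sub hg).mul hD).add (hg.mul hE)

theorem FnC_g1_left {σ : ℝ} (h : σ ≤ 1 / 32) : deriv g1 σ = 0 := by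
  apply IsLocalMin.deriv_eq_zero
  apply Filter.Eventually.of_forall
  intro x
  show g1 σ ≤ g1 x
  rw [g1_left h]
  exact g1_nonneg x

theorem FnC_g1_right {σ : ℝ} (h : 1 / 16 ≤ σ) : deriv g1 σ = 0 := by
  apply IsLocalMax.deriv_eq_zero
  apply Filter.Eventually.of_forall
  intro x
  show g1 x ≤ g1 σ
  rw [g1_right h]
  exact g1_le x

theorem FnC_rT_lo {σ : ℝ} (h : σ ≤ 1 / 32) : rT σ = Lp σ := by
  unfold rT
  rw [g1_left h]
  ring

theorem FnC_rT_hi {σ : ℝ} (h : 1 / 16 ≤ σ) : rT σ = Lq σ := by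
  unfold rT
  rw [g1_right h]
  ring

theorem FnC_Lp_mid {σ : ℝ} (h : -(1 / 2) ≤ σ) : Lp σ = 27 / 64 - σ / 16 := by
  unfold Lp
  rw [CSG.stp_one (by norm_num) h]
  ring

theorem FnC_Lq_low {σ : ℝ} (h : σ ≤ 1 / 8) : Lq σ = rr ((999 * mu) ^ 2) - 17 / 128 + σ := by
  unfold Lq
  rw [CSG.stp_zero (by norm_num) h, CSG.stp_zero (by norm_num) (by linarith), nf_low (by linarith)]
  ring

theorem FnC_R0 : 1 / 2 < rr ((999 * mu) ^ 2) := by
  unfold rr mu
  norm_num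

theorem rT_left {σ : ℝ} (h : σ ≤ -(3 / 4)) : rT σ = -σ := by
  rw [FnC_rT_lo (by linarith)]
  unfold Lp
  rw [CSG.stp_zero (by norm_num) h]
  ring

theorem rT_right {σ : ℝ} (h : 3 / 4 ≤ σ) : rT σ = σ := by
  rw [FnC_rT_hi (by linarith)]
  unfold Lq
  rw [CSG.stp_one (a := 1 / 8) (by norm_num) (by linarith), CSG.stp_one (by norm_num) h]
  ring

theorem rT_mid {σ : ℝ} (h : 17 / 128 ≤ σ) (h' : σ ≤ 79 / 128) : rT σ = rr (nf σ ^ 2) := by
  rw [FnC_rT_hi (by linarith)]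
  unfold Lq
  rw [CSG.stp_one (a := 1 / 8) (by norm_num) h, CSG.stp_zero (by norm_num) h']
  ring

theorem FnC_deriv_left {σ : ℝ} (h : σ ≤ 1 / 32) : deriv rT σ ≤ -(1 / 16) := by
  obtain ⟨D, hD, hD'⟩ := FnC_Lp_has σ
  obtain ⟨E, hE, -, -⟩ := FnC_Lq_has σ
  rw [(FnC_rT_has σ hD hE).deriv, FnC_g1_left h, g1_left h]
  linarith

theorem FnC_deriv_right {σ : ℝ} (h : 1 / 16 ≤ σ) :
    0 ≤ deriv rT σ ∧ ((σ < 17 / 128 ∨ 79 / 128 < σ) → 0 < deriv rT σ) := by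
  obtain ⟨D, hD, -⟩ := FnC_Lp_has σ
  obtain ⟨E, hE, hE0, hE1⟩ := FnC_Lq_has σ
  rw [(FnC_rT_has σ hD hE).deriv, FnC_g1_right h, g1_right h]
  refine ⟨by linarith, fun h' => ?_⟩
  have := hE1 h'
  linarith

theorem rT_deriv_neg {σ : ℝ} (h : σ ≤ 1 / 32) : deriv rT σ < 0 := by
  have := FnC_deriv_left h
  linarith

theorem rT_anti : StrictAntiOn rT (Iic (1 / 32)) := by
  apply strictAntiOn_of_deriv_neg (convex_Iic _) rT_smooth.continuous.continuousOn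
  intro x hx
  rw [interior_Iic] at hx
  exact rT_deriv_neg (le_of_lt hx)

theorem rT_deriv_nonneg {σ : ℝ} (h : 1 / 16 ≤ σ) : 0 ≤ deriv rT σ := (FnC_deriv_right h).1

theorem rT_deriv_pos {σ : ℝ} (h : 1 / 16 ≤ σ) (h' : σ < 17 / 128 ∨ 79 / 128 < σ) : 0 < deriv rT σ :=
  (FnC_deriv_right h).2 h'

theorem rT_mono : MonotoneOn rT (Ici (1 / 16)) := by
  apply monotoneOn_of_deriv_nonneg (convex_Ici _) rT_smooth.continuous.continuousOn
    (rT_smooth.differentiable (by simp)).differentiableOn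
  intro x hx
  rw [interior_Ici] at hx
  exact rT_deriv_nonneg (le_of_lt hx)

theorem rT_strict₁ {σ σ' : ℝ} (h : 1 / 16 ≤ σ) (h' : σ < 17 / 128) (h'' : σ < σ') : rT σ < rT σ' := by
  have h1 : StrictMonoOn rT (Icc (1 / 16) (17 / 128)) := by
    apply strictMonoOn_of_deriv_pos (convex_Icc _ _) rT_smooth.continuous.continuousOn
    intro x hx
    rw [interior_Icc] at hx
    exact rT_deriv_pos hx.1.le (Or.inl hx.2)
  have h2 : σ < min σ' (17 / 128) := lt_min h'' h'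
  have h3 : rT σ < rT (min σ' (17 / 128)) :=
    h1 ⟨h, h'.le⟩ ⟨h.trans h2.le, min_le_right _ _⟩ h2
  exact h3.trans_le (rT_mono (h.trans h2.le) (h.trans h''.le) (min_le_left _ _))

theorem rT_strict₂ {σ σ' : ℝ} (h : 79 / 128 < σ') (h' : 1 / 16 ≤ σ) (h'' : σ < σ') : rT σ < rT σ' := by
  have h1 : StrictMonoOn rT (Ici (79 / 128)) := by
    apply strictMonoOn_of_deriv_pos (convex_Ici _) rT_smooth.continuous.continuousOn
    intro x hx
    rw [interior_Ici] at hx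
    have hx' : (79 : ℝ) / 128 < x := hx
    exact rT_deriv_pos (by linarith) (Or.inr hx')
  have h2 : max σ (79 / 128) < σ' := max_lt h'' h
  have h3 : rT (max σ (79 / 128)) < rT σ' :=
    h1 (le_max_right _ _ : (79 : ℝ) / 128 ≤ max σ (79 / 128)) h.le h2
  exact lt_of_le_of_lt (rT_mono h' (h'.trans (le_max_left _ _)) (le_max_left _ _)) h3

theorem FnC_rT_16 : 55 / 128 < rT (1 / 16) := by
  rw [FnC_rT_hi le_rfl, FnC_Lq_low (by norm_num)]
  have := FnC_R0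
  linarith

theorem rT_hair {σ σ' : ℝ} (h : 1 / 32 < σ') (h' : σ' < 1 / 16) (h'' : 1 / 16 ≤ σ) : rT σ' < rT σ := by
  have h1 : rT (1 / 16) ≤ rT σ := rT_mono (le_refl (1 / 16 : ℝ)) h'' h''
  refine lt_of_lt_of_le ?_ h1
  have h2 : Lp σ' < rT (1 / 16) := by
    have := FnC_rT_16
    rw [FnC_Lp_mid (by linarith)]
    linarith
  have h3 : Lq σ' < rT (1 / 16) := by
    rw [FnC_rT_hi le_rfl, FnC_Lq_low (σ := σ') (by linarith), FnC_Lq_low (σ := 1 / 16) (by norm_num)]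
    linarith
  have g0 := g1_pos h
  have g2 := g1_lt h'
  show (1 - g1 σ') * Lp σ' + g1 σ' * Lq σ' < rT (1 / 16)
  have h4 := mul_lt_mul_of_pos_left h2 (by linarith : 0 < 1 - g1 σ')
  have h5 := mul_lt_mul_of_pos_left h3 g0
  linarith

theorem FnC_rT_32 : rT (1 / 32) = 27 / 64 - 1 / 32 / 16 := by
  rw [FnC_rT_lo le_rfl, FnC_Lp_mid (by norm_num)]

theorem rT_gt {σ : ℝ} (h : -1 < σ) (h' : σ < 1) : 3 / 8 < rT σ := by
  rcases le_total σ (1 / 32) with h1 | h1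
  · have h2 : rT (1 / 32) ≤ rT σ := rT_anti.antitoneOn h1 (le_refl (1 / 32 : ℝ)) h1
    rw [FnC_rT_32] at h2
    linarith
  · rcases le_total σ (1 / 16) with h2 | h2
    · show 3 / 8 < (1 - g1 σ) * Lp σ + g1 σ * Lq σ
      rw [FnC_Lp_mid (by linarith), FnC_Lq_low (by linarith)]
      have h3 := FnC_R0
      have g0 := g1_nonneg σ
      have g2 := g1_le σ
      have h4 : (1 - g1 σ) * (49 / 128) ≤ (1 - g1 σ) * (27 / 64 - σ / 16) :=
        mul_le_mul_of_nonneg_left (by linarith) (by linarith)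
      have h5 : g1 σ * (49 / 128) ≤ g1 σ * (rr ((999 * mu) ^ 2) - 17 / 128 + σ) :=
        mul_le_mul_of_nonneg_left (by linarith) g0
      linarith
    · have h3 : rT (1 / 16) ≤ rT σ := rT_mono (le_refl (1 / 16 : ℝ)) h2 h2
      have := FnC_rT_16
      linarith

theorem rT_lt {σ : ℝ} (h : -1 < σ) (h' : σ < 1) : rT σ < 1 := by
  rcases le_total σ (1 / 32) with h1 | h1
  · have h2 : rT σ < rT (-1) := rT_anti (show (-1 : ℝ) ≤ 1 / 32 by norm_num) h1 h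
    rw [rT_left (by norm_num : (-1 : ℝ) ≤ -(3 / 4))] at h2
    linarith
  · rcases lt_or_ge σ (1 / 16) with h2 | h2
    · rcases eq_or_lt_of_le h1 with h3 | h3
      · rw [← h3, FnC_rT_32]
        norm_num
      · have h4 := rT_hair h3 h2 (by norm_num : (1 : ℝ) / 16 ≤ 3 / 4)
        rw [rT_right le_rfl] at h4
        linarith
    · have h3 := rT_strict₂ (by norm_num : (79 : ℝ) / 128 < 1) h2 h'
      rw [rT_right (by norm_num : (3 : ℝ) / 4 ≤ 1)] at h3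
      exact h3

/-- the radius is at most `13/16` for `1/32 ≤ σ ≤ 13/16` -/
theorem rT_le {σ : ℝ} (h : 1 / 32 ≤ σ) (h' : σ ≤ 13 / 16) : rT σ ≤ 13 / 16 := by
  rcases lt_or_ge σ (1 / 16) with h2 | h2
  · rcases eq_or_lt_of_le h with h3 | h3
    · rw [← h3, FnC_rT_32]
      norm_num
    · have h4 := rT_hair h3 h2 (by norm_num : (1 : ℝ) / 16 ≤ 3 / 4)
      rw [rT_right le_rfl] at h4
      linarith
  · have h3 := rT_mono h2 (h2.trans h') h'
    rw [rT_right (by norm_num : (3 : ℝ) / 4 ≤ 13 / 16)] at h3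
    exact h3

theorem rr_gt (σ : ℝ) : 1 / 2 + 1 / 1280000 < rr (nf σ ^ 2) := FnC_R_lo σ

end Pool.Agent.B1X
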