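import Pool.Agent.B1X.VpM
import Pool.Agent.B1X.FnA

/-!
# B1X/GxM: the map `Gx`   (difficulty 3)

`W = w + i y`, `NW W`: `‖W‖ = 1`, `w > 0`, `|y| ≤ 1/190`; then `1 - w = y²/(1 + w) ≤ y² ≤ 1/36100`.
* `nw_Wn`: `Y = c - mu z`, `c ≥ 1000 mu`, `‖z‖ < 5`: `re Y > 995 mu`, `|im Y| < 5 mu`, `‖Y‖ ≥ re Y`, `|im (Y/‖Y‖)| < 5/995 < 1/190`.
* `Gx_re_eq`, `Gx_im_eq`: `re = w τ + (1 - w) S`, `im = m(τ) y`, `m(τ) = (1 - S) τ + S (1 - τ) ≥ min τ (1 - τ)`, `S = Sf τ`.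
* `Gx_re_ge`, `Gx_re_le`: `w τ ≤ re ≤ 1 - (1 - τ) w` (`0 ≤ S ≤ 1`).
* `Gx_lower`: let `a = |τ - τ'|`, `b = |y - y'|`, `Δ = Gx τ W - Gx τ' W'`.  `|w - w'| = |y² - y'²| / (w + w') ≤ b / 189`.
  `re Δ = w (τ - τ') + (τ' - S') (w - w') + (1 - w) (S - S')` with `|τ' - S'| ≤ 1`, `|S - S'| ≤ 32 a` (`Sf_lip`), so
  `|re Δ| ≥ (1 - 1/36100 - 32/36100) a - b/189 ≥ (999/1000) a - b/189`.
  `im Δ = m(τ) (y - y') + (m(τ) - m(τ')) y'`, `m(τ) ≥ 1/32`, `|m(τ) - m(τ')| ≤ 33 a`, so `|im Δ| ≥ b/32 - (33/190) a`.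
  Hence `b ≤ 32 |im Δ| + 5.56 a`, `0.969 a ≤ |re Δ| + 0.17 |im Δ|`, `a ≤ 1.3 ‖Δ‖`, `b ≤ 40 ‖Δ‖`; `‖W - W'‖ ≤ |w - w'| + b ≤ (1 + 1/189) b`.
  So `a + ‖W - W'‖ ≤ 50 ‖Δ‖`.
* `Gx_lat`: `re ∈ (0, 1)`, `|im| ≤ 1/190`, for both, so the difference `m + n i` has `m = n = 0`.
* `Gx_far`: `n ≠ 0`: `|im| ≥ 1 - 1/190`.  `n = 0`, `m ≤ -1` or `m ≥ 2`: `|re - m| > 1`.  `m = 0`: if `τ ≤ 3/8` then `‖Gx‖ = τ > 1/32`, otherwise
  `re ≥ w τ > 1/3`.  `m = 1`: if `τ ≥ 5/8` then `‖1 - Gx‖ = 1 - τ > 1/32`, otherwise `1 - re ≥ (1 - τ) w > 1/3`.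
* `Gx_A`: the same distinction; `A ≤ 21/64 < 1/3`.
-/

open scoped Manifold ContDiff Topology
open Set Filter
open Complex (I)

namespace Pool.Agent.B1X

def NW (W : ℂ) : Prop := ‖W‖ = 1 ∧ 0 < W.re ∧ |W.im| ≤ 1 / 190

theorem ribY_gt {c : ℝ} {z : ℂ} (h : 1000 * mu ≤ c) (hz : ‖z‖ < 5) : 995 * mu < ‖(c : ℂ) - (mu : ℂ) * z‖ := by
  have hmu := mu_pos
  have hc : 0 < c := by linarith
  have h1 : ‖(c : ℂ)‖ - ‖(mu : ℂ) * z‖ ≤ ‖(c : ℂ) - (mu : ℂ) * z‖ := norm_sub_norm_le _ _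
  rw [norm_mul, Complex.norm_real, Complex.norm_real, Real.norm_of_nonneg hc.le,
    Real.norm_of_nonneg hmu.le] at h1
  have h2 : mu * ‖z‖ < mu * 5 := mul_lt_mul_of_pos_left hz hmu
  linarith

theorem ribY_lt {c : ℝ} {z : ℂ} (h : 0 ≤ c) (h' : c ≤ 1001 * mu) (hz : ‖z‖ < 5) : ‖(c : ℂ) - (mu : ℂ) * z‖ < 1006 * mu := by
  have hmu := mu_pos
  have h1 : ‖(c : ℂ) - (mu : ℂ) * z‖ ≤ ‖(c : ℂ)‖ + ‖(mu : ℂ) * z‖ := norm_sub_le _ _
  rw [norm_mul, Complex.norm_real, Complex.norm_real, Real.norm_of_nonneg h,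
    Real.norm_of_nonneg hmu.le] at h1
  have h2 : mu * ‖z‖ < mu * 5 := mul_lt_mul_of_pos_left hz hmu
  linarith

theorem nw_Wn {c : ℝ} {z : ℂ} (h : 1000 * mu ≤ c) (hz : ‖z‖ < 5) : NW (Wn ((c : ℂ) - (mu : ℂ) * z)) := by
  have hmu := mu_pos
  have hY := ribY_gt h hz
  have hY0 : 0 < ‖(c : ℂ) - (mu : ℂ) * z‖ := by linarith
  have hre : ((c : ℂ) - (mu : ℂ) * z).re = c - mu * z.re := by
    simp [Complex.sub_re, Complex.mul_re]
  have him : ((c : ℂ) - (mu : ℂ) * z).im = -(mu * z.im) := by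
    simp [Complex.sub_im, Complex.mul_im]
  have hzr : z.re < 5 := lt_of_le_of_lt (le_trans (le_abs_self _) (Complex.abs_re_le_norm z)) hz
  have hzi : |z.im| < 5 := lt_of_le_of_lt (Complex.abs_im_le_norm z) hz
  refine ⟨Wn_norm (norm_pos_iff.1 hY0), ?_, ?_⟩
  · unfold Wn
    rw [Complex.div_ofReal_re, hre]
    have h2 : mu * z.re < mu * 5 := mul_lt_mul_of_pos_left hzr hmu
    exact div_pos (by linarith) hY0
  · unfold Wn
    rw [Complex.div_ofReal_im, him, abs_div, abs_neg, abs_mul, abs_of_pos hmu,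
      abs_of_pos hY0, div_le_iff₀ hY0]
    have h2 : mu * |z.im| < mu * 5 := mul_lt_mul_of_pos_left hzi hmu
    linarith

theorem GxM_sq {W : ℂ} (h : NW W) : W.re ^ 2 + W.im ^ 2 = 1 := by
  have h1 := Complex.sq_norm W
  rw [h.1, Complex.normSq_apply] at h1
  linarith

theorem nw_re {W : ℂ} (h : NW W) : 1 - 1 / 36100 ≤ W.re ∧ W.re ≤ 1 := by
  have h1 := GxM_sq h
  obtain ⟨h0, h2, h3⟩ := h
  have h4 : W.re ≤ 1 := by
    rw [← h0]
    exact le_trans (le_abs_self _) (Complex.abs_re_le_norm W)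
  have h5 : W.im ^ 2 ≤ (1 / 190) ^ 2 := by
    rw [← sq_abs W.im]
    exact pow_le_pow_left₀ (abs_nonneg _) h3 2
  refine ⟨?_, h4⟩
  nlinarith

theorem Gx_re_eq (τ : ℝ) (W : ℂ) : (Gx τ W).re = W.re * τ + (1 - W.re) * Sf τ := by
  unfold Gx
  simp only [Complex.add_re, Complex.mul_re, Complex.ofReal_re, Complex.ofReal_im, Complex.sub_re,
    Complex.one_re, Complex.conj_re, Complex.conj_im, Complex.sub_im, Complex.one_im, Complex.mul_im]
  ring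

theorem Gx_im_eq (τ : ℝ) (W : ℂ) : (Gx τ W).im = ((1 - Sf τ) * τ + Sf τ * (1 - τ)) * W.im := by
  unfold Gx
  simp only [Complex.add_im, Complex.mul_re, Complex.ofReal_re, Complex.ofReal_im, Complex.sub_re,
    Complex.one_re, Complex.conj_re, Complex.conj_im, Complex.sub_im, Complex.one_im, Complex.mul_im]
  ring

theorem Gx_left {τ : ℝ} (h : τ ≤ 3 / 8) (W : ℂ) : Gx τ W = (τ : ℂ) * W := by
  unfold Gx
  rw [Sf_left h]
  push_cast
  ring

theorem Gx_right {τ : ℝ} (h : 5 / 8 ≤ τ) (W : ℂ) : Gx τ W = 1 - ((1 - τ : ℝ) : ℂ) * (starRingEnd ℂ) W := by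
  unfold Gx
  rw [Sf_right h]
  push_cast
  ring

theorem Gx_one (τ : ℝ) : Gx τ 1 = τ := by
  unfold Gx
  rw [map_one]
  push_cast
  ring

theorem Gx_smooth : ContDiff ℝ ∞ fun q : ℝ × ℂ => Gx q.1 q.2 := by
  unfold Gx
  have hS : ContDiff ℝ ∞ fun q : ℝ × ℂ => Sf q.1 := Sf_smooth.comp contDiff_fst
  have hfst : ContDiff ℝ ∞ fun q : ℝ × ℂ => q.1 := contDiff_fst
  have hsnd : ContDiff ℝ ∞ fun q : ℝ × ℂ => q.2 := contDiff_snd
  have hcj : ContDiff ℝ ∞ fun q : ℝ × ℂ => (starRingEnd ℂ) q.2 :=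
    Complex.conjCLE.contDiff.comp contDiff_snd
  have hof : ContDiff ℝ ∞ fun x : ℝ => (x : ℂ) := Complex.ofRealCLM.contDiff
  have h1 : ContDiff ℝ ∞ fun q : ℝ × ℂ => (((1 - Sf q.1) * q.1 : ℝ) : ℂ) :=
    hof.comp ((contDiff_const.sub hS).mul hfst)
  have h2 : ContDiff ℝ ∞ fun q : ℝ × ℂ => ((Sf q.1 : ℝ) : ℂ) := hof.comp hS
  have h3 : ContDiff ℝ ∞ fun q : ℝ × ℂ => ((1 - q.1 : ℝ) : ℂ) := hof.comp (contDiff_const.sub hfst)
  exact (h1.mul hsnd).add (h2.mul (contDiff_const.sub (h3.mul hcj)))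

theorem Gx_re_ge {τ : ℝ} {W : ℂ} (hW : NW W) (h : 0 ≤ τ) (h' : τ ≤ 1) : W.re * τ ≤ (Gx τ W).re := by
  rw [Gx_re_eq]
  have h1 := (nw_re hW).2
  have := mul_nonneg (by linarith : 0 ≤ 1 - W.re) (Sf_nonneg τ)
  linarith

theorem Gx_re_le {τ : ℝ} {W : ℂ} (hW : NW W) (h : 0 ≤ τ) (h' : τ ≤ 1) : (Gx τ W).re ≤ 1 - W.re * (1 - τ) := by
  rw [Gx_re_eq]
  have h1 := (nw_re hW).2
  have := mul_nonneg (by linarith : 0 ≤ 1 - W.re) (by linarith [Sf_le τ] : 0 ≤ 1 - Sf τ)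
  linarith

theorem Gx_im_le {τ : ℝ} {W : ℂ} (hW : NW W) (h : 0 ≤ τ) (h' : τ ≤ 1) : |(Gx τ W).im| ≤ 1 / 190 := by
  rw [Gx_im_eq, abs_mul]
  have s0 := Sf_nonneg τ
  have s1 := Sf_le τ
  have h1 : 0 ≤ (1 - Sf τ) * τ + Sf τ * (1 - τ) :=
    add_nonneg (mul_nonneg (by linarith) h) (mul_nonneg s0 (by linarith))
  have h2 : (1 - Sf τ) * τ + Sf τ * (1 - τ) ≤ 1 := by nlinarith
  rw [abs_of_nonneg h1]
  calc ((1 - Sf τ) * τ + Sf τ * (1 - τ)) * |W.im| ≤ 1 * |W.im| :=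
        mul_le_mul_of_nonneg_right h2 (abs_nonneg _)
    _ ≤ 1 / 190 := by rw [one_mul]; exact hW.2.2

theorem Gx_lower {τ τ' : ℝ} {W W' : ℂ} (hW : NW W) (hW' : NW W') (h : 1 / 32 < τ) (h1 : τ < 31 / 32) (h' : 1 / 32 < τ')
    (h1' : τ' < 31 / 32) : |τ - τ'| + ‖W - W'‖ ≤ 50 * ‖Gx τ W - Gx τ' W'‖ := by
  obtain ⟨w0, w1⟩ := nw_re hW
  obtain ⟨w0', w1'⟩ := nw_re hW'
  have hsq := GxM_sq hW
  have hsq' := GxM_sq hW'
  have hy := abs_le.1 hW.2.2
  have hy' := abs_le.1 hW'.2.2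
  have s0 := Sf_nonneg τ
  have s1 := Sf_le τ
  have s0' := Sf_nonneg τ'
  have s1' := Sf_le τ'
  have hS := Sf_lip τ τ'
  have ha := abs_nonneg (τ - τ')
  have hb := abs_nonneg (W.im - W'.im)
  -- difference of the real parts
  have hww : |W.re - W'.re| ≤ |W.im - W'.im| / 189 := by
    have e1 : (W.re - W'.re) * (W.re + W'.re) = -((W.im - W'.im) * (W.im + W'.im)) := by
      linear_combination hsq - hsq'
    have e2 : |W.re - W'.re| * (W.re + W'.re) = |W.im - W'.im| * |W.im + W'.im| := by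
      rw [← abs_of_pos (by linarith : 0 < W.re + W'.re), ← abs_mul, ← abs_mul, e1, abs_neg]
    have e3 : |W.im + W'.im| ≤ 2 / 190 := by
      rw [abs_le]
      constructor <;> linarith [hy.1, hy.2, hy'.1, hy'.2]
    have e4 : |W.im - W'.im| * |W.im + W'.im| ≤ |W.im - W'.im| * (2 / 190) :=
      mul_le_mul_of_nonneg_left e3 hb
    have e5 : |W.re - W'.re| * (2 * (1 - 1 / 36100)) ≤ |W.re - W'.re| * (W.re + W'.re) :=
      mul_le_mul_of_nonneg_left (by linarith) (abs_nonneg _)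
    have e6 := abs_nonneg (W.re - W'.re)
    linarith
  set Δ := Gx τ W - Gx τ' W' with hΔ
  have hre : Δ.re = W.re * (τ - τ') + (τ' - Sf τ') * (W.re - W'.re) +
      (1 - W.re) * (Sf τ - Sf τ') := by
    rw [hΔ, Complex.sub_re, Gx_re_eq, Gx_re_eq]
    ring
  have him : Δ.im = ((1 - Sf τ) * τ + Sf τ * (1 - τ)) * (W.im - W'.im) +
      ((τ - τ') * (1 - 2 * Sf τ') + (Sf τ - Sf τ') * (1 - 2 * τ)) * W'.im := by
    rw [hΔ, Complex.sub_im, Gx_im_eq, Gx_im_eq]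
    ring
  have r1 : (999 / 1000) * |τ - τ'| - |W.im - W'.im| / 189 ≤ |Δ.re| := by
    have t1 : |W.re * (τ - τ')| = W.re * |τ - τ'| := by
      rw [abs_mul, abs_of_pos (by linarith : 0 < W.re)]
    have t2 : |(τ' - Sf τ') * (W.re - W'.re)| ≤ |W.re - W'.re| := by
      rw [abs_mul]
      have : |τ' - Sf τ'| ≤ 1 := by
        rw [abs_le]; constructor <;> linarith
      calc |τ' - Sf τ'| * |W.re - W'.re| ≤ 1 * |W.re - W'.re| :=
            mul_le_mul_of_nonneg_right this (abs_nonneg _)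
        _ = _ := one_mul _
    have t3 : |(1 - W.re) * (Sf τ - Sf τ')| ≤ (1 / 36100) * (32 * |τ - τ'|) := by
      rw [abs_mul, abs_of_nonneg (by linarith : 0 ≤ 1 - W.re)]
      exact mul_le_mul (by linarith) hS (abs_nonneg _) (by norm_num)
    have t4 : |W.re * (τ - τ')| ≤ |Δ.re| + |(τ' - Sf τ') * (W.re - W'.re)| +
        |(1 - W.re) * (Sf τ - Sf τ')| := by
      have : W.re * (τ - τ') = Δ.re - (τ' - Sf τ') * (W.re - W'.re) -
          (1 - W.re) * (Sf τ - Sf τ') := by rw [hre]; ring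
      rw [this]
      exact le_trans (abs_sub _ _) (by linarith [abs_sub Δ.re ((τ' - Sf τ') * (W.re - W'.re))])
    have t5 : (1 - 1 / 36100) * |τ - τ'| ≤ W.re * |τ - τ'| := mul_le_mul_of_nonneg_right w0 ha
    linarith
  have r2 : |W.im - W'.im| / 32 - (33 / 190) * |τ - τ'| ≤ |Δ.im| := by
    have m1 : 1 / 32 ≤ (1 - Sf τ) * τ + Sf τ * (1 - τ) := by nlinarith
    have t1 : |((1 - Sf τ) * τ + Sf τ * (1 - τ)) * (W.im - W'.im)| =
        ((1 - Sf τ) * τ + Sf τ * (1 - τ)) * |W.im - W'.im| := by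
      rw [abs_mul, abs_of_pos (by linarith)]
    have t2 : |(τ - τ') * (1 - 2 * Sf τ') + (Sf τ - Sf τ') * (1 - 2 * τ)| ≤ 33 * |τ - τ'| := by
      have u1 : |(τ - τ') * (1 - 2 * Sf τ')| ≤ |τ - τ'| := by
        rw [abs_mul]
        have : |1 - 2 * Sf τ'| ≤ 1 := by rw [abs_le]; constructor <;> linarith
        calc |τ - τ'| * |1 - 2 * Sf τ'| ≤ |τ - τ'| * 1 := mul_le_mul_of_nonneg_left this ha
          _ = _ := mul_one _
      have u2 : |(Sf τ - Sf τ') * (1 - 2 * τ)| ≤ 32 * |τ - τ'| := by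
        rw [abs_mul]
        have : |1 - 2 * τ| ≤ 1 := by rw [abs_le]; constructor <;> linarith
        calc |Sf τ - Sf τ'| * |1 - 2 * τ| ≤ |Sf τ - Sf τ'| * 1 :=
              mul_le_mul_of_nonneg_left this (abs_nonneg _)
          _ ≤ _ := by rw [mul_one]; exact hS
      exact le_trans (abs_add_le _ _) (by linarith)
    have t3 : |((τ - τ') * (1 - 2 * Sf τ') + (Sf τ - Sf τ') * (1 - 2 * τ)) * W'.im| ≤
        33 * |τ - τ'| * (1 / 190) := by
      rw [abs_mul]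
      exact mul_le_mul t2 hW'.2.2 (abs_nonneg _) (by positivity)
    have t4 : |((1 - Sf τ) * τ + Sf τ * (1 - τ)) * (W.im - W'.im)| ≤ |Δ.im| +
        |((τ - τ') * (1 - 2 * Sf τ') + (Sf τ - Sf τ') * (1 - 2 * τ)) * W'.im| := by
      have : ((1 - Sf τ) * τ + Sf τ * (1 - τ)) * (W.im - W'.im) = Δ.im -
          ((τ - τ') * (1 - 2 * Sf τ') + (Sf τ - Sf τ') * (1 - 2 * τ)) * W'.im := by rw [him]; ring
      rw [this]
      exact abs_sub _ _
    have t5 : (1 / 32) * |W.im - W'.im| ≤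
        ((1 - Sf τ) * τ + Sf τ * (1 - τ)) * |W.im - W'.im| := mul_le_mul_of_nonneg_right m1 hb
    linarith
  have n1 : |Δ.re| ≤ ‖Δ‖ := Complex.abs_re_le_norm Δ
  have n2 : |Δ.im| ≤ ‖Δ‖ := Complex.abs_im_le_norm Δ
  have n3 : ‖W - W'‖ ≤ |W.re - W'.re| + |W.im - W'.im| := by
    have := Complex.norm_le_abs_re_add_abs_im (W - W')
    rwa [Complex.sub_re, Complex.sub_im] at this
  linarith

theorem GxM_re_pos {τ : ℝ} {W : ℂ} (hW : NW W) (h : 1 / 32 < τ) (h1 : τ < 31 / 32) :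
    0 < (Gx τ W).re ∧ (Gx τ W).re < 1 := by
  have a1 := Gx_re_ge hW (by linarith) (by linarith) (τ := τ)
  have a2 := Gx_re_le hW (by linarith) (by linarith) (τ := τ)
  have a3 : 0 < W.re * τ := mul_pos hW.2.1 (by linarith)
  have a4 : 0 < W.re * (1 - τ) := mul_pos hW.2.1 (by linarith)
  constructor <;> linarith

theorem Gx_lat {τ τ' : ℝ} {W W' : ℂ} (hW : NW W) (hW' : NW W') (h : 1 / 32 < τ) (h1 : τ < 31 / 32) (h' : 1 / 32 < τ')
    (h1' : τ' < 31 / 32) {m n : ℤ} (he : Gx τ' W' = Gx τ W + (m + n * I)) : m = 0 ∧ n = 0 := by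
  have a1 := GxM_re_pos hW h h1
  have a2 := GxM_re_pos hW' h' h1'
  have b1 := abs_le.1 (Gx_im_le hW (by linarith) (by linarith) (τ := τ))
  have b2 := abs_le.1 (Gx_im_le hW' (by linarith) (by linarith) (τ := τ'))
  have e1 := congrArg Complex.re he
  have e2 := congrArg Complex.im he
  simp only [Complex.add_re, Complex.add_im, Complex.mul_re, Complex.mul_im, Complex.intCast_re,
    Complex.intCast_im, Complex.I_re, Complex.I_im, mul_zero, mul_one, zero_mul, sub_zero, add_zero,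
    zero_add] at e1 e2
  constructor
  · have c1 : (m : ℝ) < 1 := by linarith
    have c2 : (-1 : ℝ) < m := by linarith
    have c3 : m < 1 := by exact_mod_cast c1
    have c4 : -1 < m := by exact_mod_cast c2
    omega
  · have c1 : (n : ℝ) < 1 := by linarith
    have c2 : (-1 : ℝ) < n := by linarith
    have c3 : n < 1 := by exact_mod_cast c1
    have c4 : -1 < n := by exact_mod_cast c2
    omega

theorem GxM_cases {τ : ℝ} {W : ℂ} (hW : NW W) (h : 1 / 32 < τ) (h1 : τ < 31 / 32) (m n : ℤ) :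
    1 / 3 < ‖Gx τ W - (m + n * I)‖ ∨
      (n = 0 ∧ m = 0 ∧ ‖Gx τ W - (m + n * I)‖ = τ) ∨
      (n = 0 ∧ m = 1 ∧ ‖Gx τ W - (m + n * I)‖ = 1 - τ) := by
  have a1 := GxM_re_pos hW h h1
  have b1 := abs_le.1 (Gx_im_le hW (by linarith) (by linarith) (τ := τ))
  obtain ⟨w0, w1⟩ := nw_re hW
  have e1 : (Gx τ W - (m + n * I)).re = (Gx τ W).re - m := by
    simp [Complex.sub_re, Complex.mul_re]
  have e2 : (Gx τ W - (m + n * I)).im = (Gx τ W).im - n := by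
    simp [Complex.sub_im, Complex.mul_im]
  have nr := Complex.abs_re_le_norm (Gx τ W - (m + n * I))
  have ni := Complex.abs_im_le_norm (Gx τ W - (m + n * I))
  rw [e1] at nr
  rw [e2] at ni
  by_cases hn : n = 0
  · by_cases hm0 : m = 0
    · subst hn
      subst hm0
      rcases le_or_gt τ (3 / 8) with ht | ht
      · right; left
        refine ⟨rfl, rfl, ?_⟩
        rw [Gx_left ht]
        simp only [Int.cast_zero, zero_mul, add_zero, sub_zero]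
        rw [norm_mul, hW.1, mul_one, Complex.norm_real, Real.norm_of_nonneg (by linarith)]
      · left
        have := Gx_re_ge hW (by linarith) (by linarith) (τ := τ)
        have h4 : (1 - 1 / 36100) * (3 / 8) ≤ W.re * τ :=
          mul_le_mul w0 ht.le (by norm_num) (by linarith)
        have h5 := le_abs_self ((Gx τ W).re - ((0 : ℤ) : ℝ))
        simp only [Int.cast_zero, sub_zero] at h5 nr
        refine lt_of_lt_of_le ?_ (le_trans h5 ?_)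
        · linarith
        · simpa using nr
    · by_cases hm1 : m = 1
      · subst hn
        subst hm1
        rcases le_or_gt (5 / 8) τ with ht | ht
        · right; right
          refine ⟨rfl, rfl, ?_⟩
          rw [Gx_right ht]
          have : (1 - ((1 - τ : ℝ) : ℂ) * (starRingEnd ℂ) W - (((1 : ℤ) : ℂ) + ((0 : ℤ) : ℂ) * I)) =
              -(((1 - τ : ℝ) : ℂ) * (starRingEnd ℂ) W) := by
            push_cast
            ring
          rw [this, norm_neg, norm_mul, Complex.norm_real, Real.norm_of_nonneg (by linarith),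
            Complex.norm_conj, hW.1, mul_one]
        · left
          have h3 := Gx_re_le hW (by linarith) (by linarith) (τ := τ)
          have h4 : (1 - 1 / 36100) * (3 / 8) ≤ W.re * (1 - τ) :=
            mul_le_mul w0 (by linarith) (by norm_num) (by linarith)
          have h5 := neg_abs_le ((Gx τ W).re - ((1 : ℤ) : ℝ))
          have h6 : (Gx τ W).re - ((1 : ℤ) : ℝ) = (Gx τ W).re - 1 := by norm_num
          rw [h6] at h5 nr
          have h9 : (1 / 3 : ℝ) < |(Gx τ W).re - 1| := by linarith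
          exact lt_of_lt_of_le h9 nr
      · left
        subst hn
        have h7 : m ≤ -1 ∨ 2 ≤ m := by omega
        rcases h7 with h7 | h7
        · have h8 : (m : ℝ) ≤ -1 := by exact_mod_cast h7
          have h5 := le_abs_self ((Gx τ W).re - (m : ℝ))
          have h9 : (1 / 3 : ℝ) < |(Gx τ W).re - (m : ℝ)| := by linarith [a1.1]
          exact lt_of_lt_of_le h9 nr
        · have h8 : (2 : ℝ) ≤ m := by exact_mod_cast h7
          have h5 := neg_abs_le ((Gx τ W).re - (m : ℝ))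
          have h9 : (1 / 3 : ℝ) < |(Gx τ W).re - (m : ℝ)| := by linarith [a1.2]
          exact lt_of_lt_of_le h9 nr
  · left
    have h7 : n ≤ -1 ∨ 1 ≤ n := by omega
    rcases h7 with h7 | h7
    · have h8 : (n : ℝ) ≤ -1 := by exact_mod_cast h7
      have h5 := le_abs_self ((Gx τ W).im - (n : ℝ))
      linarith
    · have h8 : (1 : ℝ) ≤ n := by exact_mod_cast h7
      have h5 := neg_abs_le ((Gx τ W).im - (n : ℝ))
      linarith

theorem Gx_far {τ : ℝ} {W : ℂ} (hW : NW W) (h : 1 / 32 < τ) (h1 : τ < 31 / 32) (m n : ℤ) :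
    1 / 32 < ‖Gx τ W - (m + n * I)‖ := by
  rcases GxM_cases hW h h1 m n with h2 | ⟨-, -, h2⟩ | ⟨-, -, h2⟩ <;> linarith

theorem Gx_A {τ A : ℝ} {W : ℂ} (hW : NW W) (h : 1 / 32 < τ) (h1 : τ < 31 / 32) {m n : ℤ} (hA : 19 / 64 ≤ A) (hA' : A ≤ 21 / 64)
    (he : ‖Gx τ W - (m + n * I)‖ = A) : n = 0 ∧ (m = 0 ∧ τ = A ∨ m = 1 ∧ τ = 1 - A) := by
  rcases GxM_cases hW h h1 m n with h2 | ⟨hn, hm, h2⟩ | ⟨hn, hm, h2⟩
  · exfalso
    linarith
  · exact ⟨hn, Or.inl ⟨hm, by linarith⟩⟩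
  · exact ⟨hn, Or.inr ⟨hm, by linarith⟩⟩

end Pool.Agent.B1X
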