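import Pool.Agent.B1X.FnC

/-!
# B1X/HpA: the isotopy from the path to the hairpin arc   (difficulty 3)

`hk r tl s σ` (`σ = 4 l`): `s = 0` is the arc of the path `qp + tl`, `s = 1` is the hairpin arc.  `X(σ) = 1/2 - Uf + tl₁`.
* `hk_a` (`σ ≤ 1/32`: `g1 = 0`, `tl = 0`, `Vf` does not matter): `z = (1 - s) σ - s rT σ` (`ex 0 = 1`, `ex (1/2) = -1`), `Y = 0`.
* `hk_b` (`1/32 ≤ σ ≤ 1/16`): `Uf = u1`, `Vf = 0`, `tl = 0`: `Y = r u1 g1 = g1 σ / 64`; `‖z‖ ≤ (1 - s) σ + s rT σ` (triangle inequality, `rT > 0`).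
* `hk_c` (`1/16 ≤ σ`): `g1 = 1`, so both arguments of `ex` are `X(σ)`.
* `hk_imm`: (a) `σ ≤ 1/32`: the derivative of `z` (smooth, so it can be computed from the left, where `z` is real) is `(1 - s) - s rT' > 0` (`rT_deriv_neg`).
  (b) `1/32 < σ < 1/16`: near `σ` we have `Y = g1/64`, derivative `g1'/64 > 0` (`g1_deriv`).
  (c) `1/16 ≤ σ`: (computed from the right) `z' = (R' + 2 π i R X') ex X`, `R = (1 - s) σ + s rT σ > 0`.  If `z' = 0` then `R' = 0` and `X' = 0`.
  `R' = (1 - s) + s rT'`, `rT' ≥ 0` (`rT_deriv_nonneg`), so `s = 1` and `rT' = 0`, so `17/128 ≤ σ ≤ 79/128` (`rT_deriv_pos`), but there `X' = -4`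
  (`Uf_deriv`, `tl = 0` near `σ`).
-/

open scoped Manifold ContDiff Topology
open Set Filter
open Complex (I)
open Pool.Agent.RSG (ex)

namespace Pool.Agent.B1X

noncomputable def hk (r : ℕ) (tl : ℝ → ℝ × ℝ) (s σ : ℝ) : ℂ × ℝ :=
  ((((1 - s) * σ : ℝ) : ℂ) * ex ((1 / 2 - Uf r σ) * g1 σ + (tl σ).1) +
      ((s * rT σ : ℝ) : ℂ) * ex (1 / 2 - g1 σ * Uf r σ + (tl σ).1),
    (r * Uf r σ + Vf σ) * g1 σ + (tl σ).2)

theorem hk_smooth {r : ℕ} {tl : ℝ → ℝ × ℝ} (ht : ContDiff ℝ ∞ tl) : ContDiff ℝ ∞ fun q : ℝ × ℝ => hk r tl q.1 q.2 := by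
  have e1 : ContDiff ℝ ∞ fun q : ℝ × ℝ => q.1 := contDiff_fst
  have e2 : ContDiff ℝ ∞ fun q : ℝ × ℝ => q.2 := contDiff_snd
  have a1 : ContDiff ℝ ∞ fun q : ℝ × ℝ => Uf r q.2 := (Uf_smooth r).comp e2
  have a2 : ContDiff ℝ ∞ fun q : ℝ × ℝ => Vf q.2 := Vf_smooth.comp e2
  have a3 : ContDiff ℝ ∞ fun q : ℝ × ℝ => g1 q.2 := g1_smooth.comp e2
  have a4 : ContDiff ℝ ∞ fun q : ℝ × ℝ => rT q.2 := rT_smooth.comp e2
  have a5 : ContDiff ℝ ∞ fun q : ℝ × ℝ => tl q.2 := ht.comp e2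
  have a6 : ContDiff ℝ ∞ fun q : ℝ × ℝ => (tl q.2).1 := contDiff_fst.comp a5
  have a7 : ContDiff ℝ ∞ fun q : ℝ × ℝ => (tl q.2).2 := contDiff_snd.comp a5
  have b1 : ContDiff ℝ ∞ fun q : ℝ × ℝ => (((1 - q.1) * q.2 : ℝ) : ℂ) :=
    Complex.ofRealCLM.contDiff.comp ((contDiff_const.sub e1).mul e2)
  have b2 : ContDiff ℝ ∞ fun q : ℝ × ℝ => ((q.1 * rT q.2 : ℝ) : ℂ) :=
    Complex.ofRealCLM.contDiff.comp (e1.mul a4)
  have b3 : ContDiff ℝ ∞ fun q : ℝ × ℝ => ex ((1 / 2 - Uf r q.2) * g1 q.2 + (tl q.2).1) :=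
    Pool.Agent.RSG.ex_smooth.comp (((contDiff_const.sub a1).mul a3).add a6)
  have b4 : ContDiff ℝ ∞ fun q : ℝ × ℝ => ex (1 / 2 - g1 q.2 * Uf r q.2 + (tl q.2).1) :=
    Pool.Agent.RSG.ex_smooth.comp ((contDiff_const.sub (a3.mul a1)).add a6)
  exact ((b1.mul b3).add (b2.mul b4)).prodMk ((((contDiff_const.mul a1).add a2).mul a3).add a7)

theorem hk_a {r : ℕ} {tl : ℝ → ℝ × ℝ} (ht : Tail r tl) (s : ℝ) {σ : ℝ} (h : σ ≤ 1 / 32) :
    hk r tl s σ = ((((1 - s) * σ - s * rT σ : ℝ) : ℂ), 0) := by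
  unfold hk
  rw [ht.zero σ (by linarith), g1_left h]
  simp only [Prod.fst_zero, Prod.snd_zero, mul_zero, zero_mul, add_zero, sub_zero]
  rw [Pool.Agent.RSG.ex_zero, Pool.Agent.RSG.ex_half]
  congr 1
  push_cast
  ring

theorem hk_b {r : ℕ} (hr : 1 ≤ r) {tl : ℝ → ℝ × ℝ} (ht : Tail r tl) {s : ℝ} (hs : s ∈ Icc (0 : ℝ) 1) {σ : ℝ} (h : 1 / 32 ≤ σ)
    (h' : σ ≤ 1 / 16) : (hk r tl s σ).2 = g1 σ / 64 ∧ ‖(hk r tl s σ).1‖ ≤ (1 - s) * σ + s * rT σ := by
  have hR : 0 < rT σ := by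
    have := rT_gt (σ := σ) (by linarith) (by linarith)
    linarith
  constructor
  · unfold hk
    rw [ht.zero σ (by linarith), Uf_left r (by linarith), Vf_left (by linarith)]
    simp only [Prod.snd_zero, add_zero]
    rw [u1_mul hr]
    ring
  · unfold hk
    refine (norm_add_le _ _).trans ?_
    rw [norm_mul, norm_mul, Pool.Agent.RSG.ex_norm, Pool.Agent.RSG.ex_norm, mul_one, mul_one,
      Complex.norm_real, Complex.norm_real,
      Real.norm_of_nonneg (mul_nonneg (sub_nonneg.2 hs.2) (by linarith)),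
      Real.norm_of_nonneg (mul_nonneg hs.1 hR.le)]

theorem hk_c {r : ℕ} {tl : ℝ → ℝ × ℝ} (s : ℝ) {σ : ℝ} (h : 1 / 16 ≤ σ) :
    hk r tl s σ = ((((1 - s) * σ + s * rT σ : ℝ) : ℂ) * ex (1 / 2 - Uf r σ + (tl σ).1), r * Uf r σ + Vf σ + (tl σ).2) := by
  unfold hk
  rw [g1_right h]
  simp only [mul_one, one_mul]
  congr 1
  push_cast
  ring

theorem hk_imm {r : ℕ} (hr : 1 ≤ r) {tl : ℝ → ℝ × ℝ} (ht : Tail r tl) {s : ℝ} (hs : s ∈ Icc (0 : ℝ) 1) {σ : ℝ} (h : |σ| < 1) :
    deriv (hk r tl s) σ ≠ 0 := by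
  intro hd
  obtain ⟨hσ1, hσ2⟩ := abs_lt.1 h
  have hsm : ContDiff ℝ ∞ (hk r tl s) :=
    (hk_smooth (r := r) ht.smooth).comp (contDiff_const.prodMk contDiff_id)
  have hD : HasDerivAt (hk r tl s) 0 σ := by
    have := (hsm.differentiable (by simp)).differentiableAt (x := σ) |>.hasDerivAt
    rwa [hd] at this
  have hD1 : HasDerivAt (fun x => (hk r tl s x).1) 0 σ := by
    have := (hasFDerivAt_fst (𝕜 := ℝ) (E := ℂ) (F := ℝ) (p := hk r tl s σ)).comp_hasDerivAt σ hD
    rw [map_zero] at this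
    exact this
  have hD2 : HasDerivAt (fun x => (hk r tl s x).2) 0 σ := by
    have := (hasFDerivAt_snd (𝕜 := ℝ) (E := ℂ) (F := ℝ) (p := hk r tl s σ)).comp_hasDerivAt σ hD
    rw [map_zero] at this
    exact this
  have hRd : HasDerivAt rT (deriv rT σ) σ :=
    ((rT_smooth.differentiable (by simp)).differentiableAt (x := σ)).hasDerivAt
  rcases le_or_gt σ (1 / 32) with h1 | h1
  · -- the left part
    have e1 : HasDerivWithinAt (fun x : ℝ => (((1 - s) * x - s * rT x : ℝ) : ℂ)) 0 (Iic σ) σ := by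
      refine (hD1.hasDerivWithinAt (s := Iic σ)).congr ?_ ?_
      · intro x hx
        rw [hk_a ht s (le_trans hx h1)]
      · rw [hk_a ht s h1]
    have e2 : HasDerivWithinAt (fun x : ℝ => (((1 - s) * x - s * rT x : ℝ) : ℂ))
        (((1 - s) * 1 - s * deriv rT σ : ℝ) : ℂ) (Iic σ) σ :=
      (HasDerivAt.ofReal_comp
        (((hasDerivAt_id σ).const_mul (1 - s)).sub (hRd.const_mul s))).hasDerivWithinAt
    have e3 := (uniqueDiffWithinAt_Iic σ).eq_deriv _ e1 e2
    have e4 : (1 - s) * 1 - s * deriv rT σ = 0 := by exact_mod_cast e3.symm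
    have e5 := rT_deriv_neg h1
    rcases eq_or_lt_of_le hs.1 with h2 | h2
    · rw [← h2] at e4
      norm_num at e4
    · nlinarith [mul_pos h2 (neg_pos.2 e5), hs.2]
  · rcases lt_or_ge σ (1 / 16) with h2 | h2
    · -- the middle part
      have e0 : (fun x => (hk r tl s x).2) =ᶠ[𝓝 σ] fun x => g1 x / 64 := by
        filter_upwards [Ioo_mem_nhds h1 h2] with x hx
        exact (hk_b hr ht hs hx.1.le hx.2.le).1
      have e1 : HasDerivAt (fun x => g1 x / 64) 0 σ := hD2.congr_of_eventuallyEq e0.symm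
      have e2 : HasDerivAt (fun x => g1 x / 64) (deriv g1 σ / 64) σ :=
        (((g1_smooth.differentiable (by simp)).differentiableAt (x := σ)).hasDerivAt).div_const 64
      have e3 := e1.unique e2
      have e4 := g1_deriv h1 h2
      linarith
    · -- the right part
      have hR : 3 / 8 < rT σ := rT_gt hσ1 hσ2
      have ht1 : HasDerivAt (fun x => (tl x).1) (deriv (fun x => (tl x).1) σ) σ := by
        have : ContDiff ℝ ∞ fun x => (tl x).1 := contDiff_fst.comp ht.smooth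
        exact ((this.differentiable (by simp)).differentiableAt (x := σ)).hasDerivAt
      have hUd : HasDerivAt (Uf r) (deriv (Uf r) σ) σ :=
        (((Uf_smooth r).differentiable (by simp)).differentiableAt (x := σ)).hasDerivAt
      have e1 : HasDerivWithinAt (fun x : ℝ => (((1 - s) * x + s * rT x : ℝ) : ℂ) *
          ex (1 / 2 - Uf r x + (tl x).1)) 0 (Ici σ) σ := by
        refine (hD1.hasDerivWithinAt (s := Ici σ)).congr ?_ ?_
        · intro x hx
          rw [hk_c s (le_trans h2 hx)]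
        · rw [hk_c s h2]
      have eR : HasDerivAt (fun x : ℝ => (((1 - s) * x + s * rT x : ℝ) : ℂ))
          (((1 - s) * 1 + s * deriv rT σ : ℝ) : ℂ) σ :=
        HasDerivAt.ofReal_comp
          (((hasDerivAt_id σ).const_mul (1 - s)).add (hRd.const_mul s))
      have eX : HasDerivAt (fun x : ℝ => 1 / 2 - Uf r x + (tl x).1)
          (0 - deriv (Uf r) σ + deriv (fun x => (tl x).1) σ) σ :=
        ((hasDerivAt_const σ (1 / 2 : ℝ)).sub hUd).add ht1
      have eE : HasDerivAt (fun x : ℝ => ex (1 / 2 - Uf r x + (tl x).1))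
          ((0 - deriv (Uf r) σ + deriv (fun x => (tl x).1) σ) •
            (2 * Real.pi * I * ex (1 / 2 - Uf r σ + (tl σ).1))) σ :=
        HasDerivAt.scomp σ (Pool.Agent.PTH.TC_ex_deriv _) eX
      have e2 := (eR.mul eE).hasDerivWithinAt (s := Ici σ)
      have e3 := (uniqueDiffWithinAt_Ici σ).eq_deriv _ e1 e2
      set X : ℝ := 0 - deriv (Uf r) σ + deriv (fun x => (tl x).1) σ with hX
      set E : ℂ := ex (1 / 2 - Uf r σ + (tl σ).1) with hE
      have hEne : E ≠ 0 := Pool.Agent.RSG.ex_ne _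
      have e4 : E * ((((1 - s) * 1 + s * deriv rT σ : ℝ) : ℂ) +
          ((((1 - s) * σ + s * rT σ) * X * (2 * Real.pi) : ℝ) : ℂ) * I) = 0 := by
        rw [e3, Complex.real_smul]
        push_cast
        ring
      have e5 := (mul_eq_zero.1 e4).resolve_left hEne
      have e6 : (1 - s) * 1 + s * deriv rT σ = 0 := by
        have := congrArg Complex.re e5
        simpa using this
      have e7 : ((1 - s) * σ + s * rT σ) * X * (2 * Real.pi) = 0 := by
        have := congrArg Complex.im e5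
        simpa using this
      have hRpos : 0 < (1 - s) * σ + s * rT σ := by
        rcases eq_or_lt_of_le hs.1 with h3 | h3
        · rw [← h3]
          linarith
        · nlinarith [mul_pos h3 (show 0 < rT σ by linarith),
            mul_nonneg (sub_nonneg.2 hs.2) (show (0 : ℝ) ≤ σ by linarith)]
      have e8 : X = 0 := by
        have h3 := (mul_eq_zero.1 e7).resolve_right (by positivity)
        exact (mul_eq_zero.1 h3).resolve_left hRpos.ne'
      have h5 := rT_deriv_nonneg h2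
      have h6 : s = 1 := by
        by_contra hne
        have : s < 1 := lt_of_le_of_ne hs.2 hne
        nlinarith [mul_nonneg hs.1 h5]
      have h7 : deriv rT σ = 0 := by
        rw [h6] at e6
        linarith
      have h8 : 17 / 128 ≤ σ := by
        by_contra hlt
        have := rT_deriv_pos h2 (Or.inl (not_le.1 hlt))
        linarith
      have h9 : σ ≤ 79 / 128 := by
        by_contra hlt
        have := rT_deriv_pos h2 (Or.inr (not_le.1 hlt))
        linarith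
      have h10 := Uf_deriv r h8 h9
      have h11 : deriv (fun x => (tl x).1) σ = 0 := by
        have : (fun x => (tl x).1) =ᶠ[𝓝 σ] fun _ => (0 : ℝ) := by
          filter_upwards [Iio_mem_nhds (show σ < 13 / 16 by linarith)] with x hx
          rw [ht.zero x (le_of_lt hx)]
          rfl
        rw [this.deriv_eq, deriv_const]
      rw [hX, h10, h11] at e8
      norm_num at e8

end Pool.Agent.B1X
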