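import Pool.Agent.B1X.HpA

/-!
# B1X/HpB: the curves of the isotopy are embedded   (difficulty 3)

Suppose `hk s σ = hk s σ' + (0, m)`; by symmetry `σ < σ'` (exchange the two, `m ↦ -m`).  Write `z, Y` for the components.
1. `σ' ≤ 1/32` (`hk_a`): the real function `(1 - s) σ - s rT σ` is strictly increasing (`rT_anti`), contradiction.
2. `σ ≤ 1/32 < σ' < 1/16`: `Y σ = 0` and `Y σ' = g1 σ'/64 ∈ (0, 1/64)`, no integer difference.
3. `1/32 < σ < σ' ≤ 1/16`: `Y = g1/64 ∈ (0, 1/64]`, so `m = 0`, `g1 σ = g1 σ'`, contradiction to `g1_strict`.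
4. `σ ≤ 1/32`, `1/16 ≤ σ'`: `z σ` is real, `z σ' = R' ex X'`, `R' > 0`, so `ex X' = 1` or `-1` (`‖ex‖ = 1`, imaginary part `0`); `Y σ' = -m` is an integer.
   If `ex X' = -1 = ex (1/2)`, then `X' = 1/2 + k` (`RSG.ex_eq_iff`), and `(X', Y σ') = qp r σ' + tl σ'` is an obstacle (`g1 = 1`), contradiction to `Tail.avoid`.
   If `ex X' = 1`: `(1 - s) σ' + s rT σ' = (1 - s) σ - s rT σ`, i.e. `(1 - s) (σ' - σ) + s (rT σ + rT σ') = 0`, but both summands are `≥ 0`, not both `0`.
5. `1/32 < σ < 1/16 ≤ σ'`: `‖z σ‖ ≤ (1 - s) σ + s rT σ < (1 - s) σ' + s rT σ' = ‖z σ'‖` (`rT_hair`).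
6. `1/16 ≤ σ`: `(1 - s) σ + s rT σ = (1 - s) σ' + s rT σ'` (norms); `rT_mono`: so `s = 1` and `rT σ = rT σ'`.  `rT_strict₁`, `rT_strict₂`: `17/128 ≤ σ`, `σ' ≤ 79/128`.
   `X = 1 - 4 σ`, `X' = 1 - 4 σ'` (`tl = 0`) and `ex X = ex X'`, so `4 (σ' - σ)` is an integer, positive and `≤ 31/16`: `σ' = σ + 1/4`, `σ ≤ 47/128`,
   `nf_shift`: `nf σ' = nf σ + 2 mu > nf σ > 0`, `rT σ' = rr (nf σ' ^ 2) > rr (nf σ ^ 2) = rT σ` (`rT_mid`), contradiction.
-/

open scoped Manifold ContDiff Topology
open Set Filter
open Complex (I)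
open Pool.Agent.RSG (ex)

namespace Pool.Agent.B1X

theorem HpB_lt {r : ℕ} (hr : 1 ≤ r) {tl : ℝ → ℝ × ℝ} (ht : Tail r tl) {s : ℝ} (hs : s ∈ Icc (0 : ℝ) 1) {σ σ' : ℝ} (h : |σ| < 1)
    (h' : |σ'| < 1) {m : ℤ} (he : hk r tl s σ = hk r tl s σ' + (0, (m : ℝ))) (hlt : σ < σ') : False := by
  obtain ⟨p1, p2⟩ := abs_lt.1 h
  obtain ⟨q1, q2⟩ := abs_lt.1 h'
  have hs0 := hs.1
  have hs1 := hs.2
  have ez : (hk r tl s σ).1 = (hk r tl s σ').1 := by
    rw [he]
    show (hk r tl s σ').1 + 0 = _
    rw [add_zero]
  have ey : (hk r tl s σ).2 = (hk r tl s σ').2 + (m : ℝ) := by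
    rw [he]
    rfl
  have hR : 3 / 8 < rT σ := rT_gt p1 p2
  have hR' : 3 / 8 < rT σ' := rT_gt q1 q2
  rcases le_or_gt σ' (1 / 32) with c1 | c1
  · -- case 1
    have c2 : σ ≤ 1 / 32 := by linarith
    rw [hk_a ht s c1, hk_a ht s c2] at ez
    have e1 : (1 - s) * σ - s * rT σ = (1 - s) * σ' - s * rT σ' := Complex.ofReal_injective ez
    have e2 : rT σ' < rT σ := rT_anti (mem_Iic.2 c2) (mem_Iic.2 c1) hlt
    rcases eq_or_lt_of_le hs0 with h3 | h3
    · rw [← h3] at e1
      linarith
    · nlinarith [mul_pos h3 (sub_pos.2 e2), mul_nonneg (sub_nonneg.2 hs1) (sub_pos.2 hlt).le]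
  · rcases lt_or_ge σ' (1 / 16) with c2 | c2
    · have hb' := (hk_b hr ht hs c1.le c2.le).1
      have g0' := g1_pos c1
      have g1' := g1_lt c2
      rcases le_or_gt σ (1 / 32) with c3 | c3
      · -- case 2
        rw [hb', hk_a ht s c3] at ey
        have ey' : (0 : ℝ) = g1 σ' / 64 + m := ey
        have e1 : (m : ℝ) < 0 := by linarith
        have e2 : (-1 : ℝ) < m := by linarith
        have e3 : m < 0 := by exact_mod_cast e1
        have e4 : -1 < m := by exact_mod_cast e2
        omega
      · -- case 3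
        have c4 : σ < 1 / 16 := by linarith
        have hb := (hk_b hr ht hs c3.le c4.le).1
        have g0 := g1_pos c3
        have g1s := g1_lt c4
        rw [hb', hb] at ey
        have e1 : (m : ℝ) < 1 := by linarith
        have e2 : (-1 : ℝ) < m := by linarith
        have e3 : m < 1 := by exact_mod_cast e1
        have e4 : -1 < m := by exact_mod_cast e2
        have e5 : m = 0 := by omega
        rw [e5] at ey
        have e6 : g1 σ < g1 σ' := g1_strict ⟨c3.le, c4.le⟩ ⟨c1.le, c2.le⟩ hlt
        push_cast at ey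
        linarith
    · -- `σ' ≥ 1/16`
      have hc' := hk_c (r := r) (tl := tl) s c2
      have Rpos' : 0 < (1 - s) * σ' + s * rT σ' := by
        rcases eq_or_lt_of_le hs0 with h3 | h3
        · rw [← h3]
          linarith
        · nlinarith [mul_pos h3 (show 0 < rT σ' by linarith),
            mul_nonneg (sub_nonneg.2 hs1) (show (0 : ℝ) ≤ σ' by linarith)]
      have hn' : ‖(hk r tl s σ').1‖ = (1 - s) * σ' + s * rT σ' := by
        rw [hc']
        show ‖(((1 - s) * σ' + s * rT σ' : ℝ) : ℂ) * ex (1 / 2 - Uf r σ' + (tl σ').1)‖ = _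
        rw [norm_mul, Pool.Agent.RSG.ex_norm, mul_one, Complex.norm_real,
          Real.norm_of_nonneg Rpos'.le]
      rcases le_or_gt σ (1 / 32) with c3 | c3
      · -- case 4
        rw [hk_a ht s c3, hc'] at ez
        rw [hk_a ht s c3] at ey
        have ey' : (0 : ℝ) = (hk r tl s σ').2 + m := ey
        have ez' : (((1 - s) * σ - s * rT σ : ℝ) : ℂ) =
          (((1 - s) * σ' + s * rT σ' : ℝ) : ℂ) * ex (1 / 2 - Uf r σ' + (tl σ').1) := ez
        set X : ℝ := 1 / 2 - Uf r σ' + (tl σ').1 with hX
        -- `ex X` is real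
        have him : (ex X).im = 0 := by
          have h3 := congrArg Complex.im ez'
          rw [Complex.ofReal_im, Complex.im_ofReal_mul] at h3
          exact (mul_eq_zero.1 h3.symm).resolve_left Rpos'.ne'
        have hre : (ex X).re = 1 ∨ (ex X).re = -1 := by
          have h3 := Pool.Agent.RSG.ex_norm X
          have h4 : (ex X).re * (ex X).re + (ex X).im * (ex X).im = 1 := by
            rw [← Complex.normSq_apply, ← Complex.sq_norm, h3, one_pow]
          rw [him] at h4
          have h5 : ((ex X).re - 1) * ((ex X).re + 1) = 0 := by linarith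
          rcases mul_eq_zero.1 h5 with h6 | h6
          · left; linarith
          · right; linarith
        rcases hre with h3 | h3
        · -- `ex X = 1`
          have h4 := congrArg Complex.re ez'
          rw [Complex.ofReal_re, Complex.re_ofReal_mul, h3, mul_one] at h4
          have h5 : (1 - s) * (σ' - σ) + s * (rT σ + rT σ') = 0 := by linarith
          rcases eq_or_lt_of_le hs0 with h6 | h6
          · rw [← h6] at h5
            linarith
          · nlinarith [mul_pos h6 (show 0 < rT σ + rT σ' by linarith),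
              mul_nonneg (sub_nonneg.2 hs1) (sub_pos.2 hlt).le]
        · -- `ex X = -1`
          have h4 : ex (1 / 2) = ex X := by
            rw [Pool.Agent.RSG.ex_half]
            apply Complex.ext
            · rw [h3]; simp
            · rw [him]; simp
          obtain ⟨k, hk'⟩ := Pool.Agent.RSG.ex_eq_iff.1 h4
          apply ht.avoid σ'
          refine ⟨k, -m, ?_⟩
          apply Prod.ext
          · show (1 / 2 - Uf r σ') * g1 σ' + (tl σ').1 = (k : ℝ) + 1 / 2
            rw [g1_right c2, mul_one]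
            rw [hX] at hk'
            linarith
          · show (r * Uf r σ' + Vf σ') * g1 σ' + (tl σ').2 = ((-m : ℤ) : ℝ)
            rw [g1_right c2, mul_one]
            rw [hc'] at ey'
            have ey'' : (0 : ℝ) = r * Uf r σ' + Vf σ' + (tl σ').2 + m := ey'
            push_cast
            linarith
      · rcases lt_or_ge σ (1 / 16) with c4 | c4
        · -- case 5
          have hb := (hk_b hr ht hs c3.le c4.le).2
          rw [ez, hn'] at hb
          have h3 := rT_hair c3 c4 c2
          rcases eq_or_lt_of_le hs0 with h6 | h6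
          · rw [← h6] at hb
            linarith
          · nlinarith [mul_pos h6 (sub_pos.2 h3), mul_nonneg (sub_nonneg.2 hs1) (sub_pos.2 hlt).le]
        · -- case 6
          have hc := hk_c (r := r) (tl := tl) s c4
          have Rpos : 0 < (1 - s) * σ + s * rT σ := by
            rcases eq_or_lt_of_le hs0 with h3 | h3
            · rw [← h3]
              linarith
            · nlinarith [mul_pos h3 (show 0 < rT σ by linarith),
                mul_nonneg (sub_nonneg.2 hs1) (show (0 : ℝ) ≤ σ by linarith)]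
          have hn : ‖(hk r tl s σ).1‖ = (1 - s) * σ + s * rT σ := by
            rw [hc]
            show ‖(((1 - s) * σ + s * rT σ : ℝ) : ℂ) * ex (1 / 2 - Uf r σ + (tl σ).1)‖ = _
            rw [norm_mul, Pool.Agent.RSG.ex_norm, mul_one, Complex.norm_real,
              Real.norm_of_nonneg Rpos.le]
          have h3 : (1 - s) * σ + s * rT σ = (1 - s) * σ' + s * rT σ' := by
            rw [← hn, ← hn', ez]
          have h4 : rT σ ≤ rT σ' := rT_mono (mem_Ici.2 c4) (mem_Ici.2 c2) hlt.le
          have h5 : s = 1 := by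
            by_contra hne
            have h6 : s < 1 := lt_of_le_of_ne hs1 hne
            nlinarith [mul_nonneg hs0 (sub_nonneg.2 h4), mul_pos (sub_pos.2 h6) (sub_pos.2 hlt)]
          have h6 : rT σ = rT σ' := by
            rw [h5] at h3
            linarith
          have h7 : 17 / 128 ≤ σ := by
            by_contra hl
            have := rT_strict₁ c4 (not_le.1 hl) hlt
            linarith
          have h8 : σ' ≤ 79 / 128 := by
            by_contra hl
            have := rT_strict₂ (not_le.1 hl) c4 hlt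
            linarith
          have h9 : 17 / 128 ≤ σ' := by linarith
          have h10 : σ ≤ 79 / 128 := by linarith
          -- the angles
          have h11 : ex (1 - 4 * σ) = ex (1 - 4 * σ') := by
            rw [hc, hc'] at ez
            have ez' : (((1 - s) * σ + s * rT σ : ℝ) : ℂ) * ex (1 / 2 - Uf r σ + (tl σ).1) =
              (((1 - s) * σ' + s * rT σ' : ℝ) : ℂ) * ex (1 / 2 - Uf r σ' + (tl σ').1) := ez
            rw [← h3] at ez'
            have h12 : (((1 - s) * σ + s * rT σ : ℝ) : ℂ) ≠ 0 := by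
              exact_mod_cast Rpos.ne'
            have h13 := mul_left_cancel₀ h12 ez'
            rw [ht.zero σ (by linarith), ht.zero σ' (by linarith), Uf_mid r h7 h10,
              Uf_mid r h9 h8] at h13
            have e1 : (1 : ℝ) / 2 - (4 * σ - 1 / 2) + (0 : ℝ × ℝ).1 = 1 - 4 * σ := by
              show (1 : ℝ) / 2 - (4 * σ - 1 / 2) + 0 = 1 - 4 * σ
              ring
            have e2 : (1 : ℝ) / 2 - (4 * σ' - 1 / 2) + (0 : ℝ × ℝ).1 = 1 - 4 * σ' := by
              show (1 : ℝ) / 2 - (4 * σ' - 1 / 2) + 0 = 1 - 4 * σ'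
              ring
            rw [e1, e2] at h13
            exact h13
          obtain ⟨k, hk'⟩ := Pool.Agent.RSG.ex_eq_iff.1 h11
          have k1 : (k : ℝ) < 0 := by linarith
          have k2 : (-2 : ℝ) < k := by linarith
          have k3 : k < 0 := by exact_mod_cast k1
          have k4 : -2 < k := by exact_mod_cast k2
          have k5 : k = -1 := by omega
          rw [k5] at hk'
          have h12 : σ' = σ + 1 / 4 := by
            push_cast at hk'
            linarith
          have h13 : σ ≤ 47 / 128 := by linarith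
          have h14 := nf_shift h7 h13
          rw [← h12] at h14
          have h15 := mu_pos
          have h16 := nf_ge σ
          have h17 : 0 < nf σ := by linarith
          rw [rT_mid h7 h10, rT_mid h9 h8, h14] at h6
          unfold rr at h6
          nlinarith [mul_pos h15 h17, mul_pos h15 h15]

theorem hk_inj {r : ℕ} (hr : 1 ≤ r) {tl : ℝ → ℝ × ℝ} (ht : Tail r tl) {s : ℝ} (hs : s ∈ Icc (0 : ℝ) 1) {σ σ' : ℝ} (h : |σ| < 1)
    (h' : |σ'| < 1) {m : ℤ} (he : hk r tl s σ = hk r tl s σ' + (0, (m : ℝ))) : σ = σ' := by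
  rcases lt_trichotomy σ σ' with h1 | h1 | h1
  · exact (HpB_lt hr ht hs h h' he h1).elim
  · exact h1
  · refine (HpB_lt (m := -m) hr ht hs h' h ?_ h1).elim
    rw [he, add_assoc]
    have : ((0, (m : ℝ)) : ℂ × ℝ) + (0, ((-m : ℤ) : ℝ)) = 0 := by
      apply Prod.ext
      · simp
      · simp
    rw [this, add_zero]

end Pool.Agent.B1X
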