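import Pool.Agent.B1X.HpB
import Pool.Agent.ISO.LiftB

/-!
# B1X/Hpn: the arc of the path is equivalent to the hairpin arc   (difficulty 1)

`ISO.arcEq_of_isotopy` with `k s l = hk r tl s (4 l)`, `ε = 1/16`: `k 0 = arc (qp + tl)`, `k 1 = gT` (`Vp r (xT) (rT)`: `ex (1/2 - xT.re)`, `xT.re = g1 Uf - tl₁`;
`r xT.re + xT.im = r g1 Uf + Vf + tl₂`, and `Vf = Vf g1` because `Vf = 0` for `σ ≤ 1/16`).
`hend`: `|σ| ≥ 3/4`: `rT σ = |σ|` (`rT_left`, `rT_right`), `hk_a`, `hk_c`: independent of `s`.  `hin`: `‖z‖ ≤ (1 - s) |σ| + s rT σ < 1` (`rT_lt`).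
`himm`: `hk_imm` and the chain rule.  `hinj`: `hk_inj`.
-/

open scoped Manifold ContDiff Topology
open Set Filter
open Complex (I)
open Pool.Agent.RSG (ex)

namespace Pool.Agent.B1X

open Pool.Agent.PTH (ArcEq arc)

universe u

theorem Hpn_zero (r : ℕ) (tl : ℝ → ℝ × ℝ) (σ : ℝ) :
    hk r tl 0 σ = (((σ : ℝ) : ℂ) * ex ((qp r σ + tl σ).1), (qp r σ + tl σ).2) := by
  unfold hk qp
  simp only [sub_zero, one_mul, zero_mul, Complex.ofReal_zero, add_zero, Prod.fst_add,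
    Prod.snd_add]

theorem Hpn_one (r : ℕ) (tl : ℝ → ℝ × ℝ) (σ : ℝ) :
    hk r tl 1 σ = Vp r (xT r tl σ) (rT σ) := by
  unfold hk Vp xT
  simp only [sub_self, one_mul, zero_mul, Complex.ofReal_zero, zero_add]
  have e1 : 1 / 2 - g1 σ * Uf r σ + (tl σ).1 = 1 / 2 - (g1 σ * Uf r σ - (tl σ).1) := by ring
  rw [e1]
  have e2 : (r * Uf r σ + Vf σ) * g1 σ + (tl σ).2 =
      r * (g1 σ * Uf r σ - (tl σ).1) + (Vf σ + (tl σ).2 + r * (tl σ).1) := by
    rcases le_or_gt σ (1 / 16) with h | h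
    · rw [Vf_left (by linarith)]
      ring
    · rw [g1_right h.le]
      ring
  rw [e2]

theorem Hpn_smooth {r : ℕ} {tl : ℝ → ℝ × ℝ} (ht : Tail r tl) (s : ℝ) :
    ContDiff ℝ ∞ (hk r tl s) :=
  (hk_smooth (r := r) ht.smooth).comp (contDiff_const.prodMk contDiff_id)

theorem hpn {r : ℕ} (hr : 1 ≤ r) {tl : ℝ → ℝ × ℝ} (ht : Tail r tl) :
    ArcEq.{u} (arc fun σ => qp r σ + tl σ) (gT r tl) := by
  have h4 : ∀ l : ℝ, |l| < 1 / 4 → |4 * l| < 1 := by
    intro l hl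
    rw [abs_mul, abs_of_pos (by norm_num : (0 : ℝ) < 4)]
    linarith
  refine Pool.Agent.ISO.arcEq_of_isotopy (fun s l => hk r tl s (4 * l)) (ε := 1 / 16)
    (by norm_num) ?_ ?_ ?_ ?_ ?_ ?_ ?_
  · intro s _ l _
    have h1 : ContDiff ℝ ∞ fun q : ℝ × ℝ => (q.1, 4 * q.2) :=
      contDiff_fst.prodMk (contDiff_const.mul contDiff_snd)
    exact ((hk_smooth (r := r) ht.smooth).comp h1).contDiffAt
  · intro l _
    show hk r tl 0 (4 * l) = arc (fun σ => qp r σ + tl σ) l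
    rw [Hpn_zero]
    rfl
  · intro l _
    exact Hpn_one r tl (4 * l)
  · intro s _ l hl hl'
    show hk r tl s (4 * l) = hk r tl 0 (4 * l)
    rcases le_or_gt 0 l with h0 | h0
    · rw [abs_of_nonneg h0] at hl'
      rw [hk_c s (by linarith), hk_c 0 (by linarith), rT_right (by linarith)]
      have e : (1 - s) * (4 * l) + s * (4 * l) = (1 - 0) * (4 * l) + 0 * (4 * l) := by ring
      rw [e]
    · rw [abs_of_neg h0] at hl'
      rw [hk_a ht s (by linarith), hk_a ht 0 (by linarith), rT_left (by linarith)]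
      have e : (1 - s) * (4 * l) - s * (-(4 * l)) = (1 - 0) * (4 * l) - 0 * (-(4 * l)) := by ring
      rw [e]
  · intro s hs l hl
    show ‖(hk r tl s (4 * l)).1‖ < 1
    obtain ⟨a1, a2⟩ := abs_lt.1 (h4 l hl)
    have hR : 3 / 8 < rT (4 * l) := rT_gt a1 a2
    have hR1 : rT (4 * l) < 1 := rT_lt a1 a2
    have h5 : ‖(hk r tl s (4 * l)).1‖ ≤ (1 - s) * |4 * l| + s * rT (4 * l) := by
      unfold hk
      refine (norm_add_le _ _).trans ?_
      rw [norm_mul, norm_mul, Pool.Agent.RSG.ex_norm, Pool.Agent.RSG.ex_norm, mul_one, mul_one,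
        Complex.norm_real, Complex.norm_real, Real.norm_eq_abs, Real.norm_eq_abs, abs_mul,
        abs_of_nonneg (sub_nonneg.2 hs.2),
        abs_of_nonneg (mul_nonneg hs.1 (by linarith : (0 : ℝ) ≤ rT (4 * l)))]
    refine h5.trans_lt ?_
    have h6 := h4 l hl
    rcases eq_or_lt_of_le hs.1 with h7 | h7
    · rw [← h7]
      linarith
    · nlinarith [mul_pos h7 (sub_pos.2 hR1), mul_nonneg (sub_nonneg.2 hs.2) (sub_pos.2 h6).le]
  · intro s hs l hl
    show deriv (fun l => hk r tl s (4 * l)) l ≠ 0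
    have h5 := hk_imm hr ht hs (h4 l hl)
    have h6 : HasDerivAt (hk r tl s) (deriv (hk r tl s) (4 * l)) (4 * l) :=
      (((Hpn_smooth ht s).differentiable (by simp)).differentiableAt (x := 4 * l)).hasDerivAt
    have h7 : HasDerivAt (fun l : ℝ => 4 * l) (4 * 1) l := (hasDerivAt_id l).const_mul 4
    have h8 : HasDerivAt (fun l => hk r tl s (4 * l)) ((4 * 1 : ℝ) • deriv (hk r tl s) (4 * l)) l :=
      HasDerivAt.scomp l h6 h7
    rw [h8.deriv]
    exact smul_ne_zero (by norm_num) h5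
  · intro s hs l l' hl hl' m he
    have h5 : 4 * l = 4 * l' := hk_inj hr ht hs (h4 l hl) (h4 l' hl') he
    linarith

end Pool.Agent.B1X
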