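import Pool.Agent.B1X.Defs
import Pool.Agent.PTH.TC

/-!
# B1X/VpM: the coordinates `Vp`   (difficulty 2)

* `Vp_add`: `Vp r (x + m + n i) ρ = Vp r x ρ + (0, r m + n)` (`ex (y - m) = ex y`, `RSG.ex_add_int`).
* `Vp_inj`: `MT` means equal first components and second components equal modulo `Z`.  Norms: `ρ' = ρ`; `ex (1/2 - x'.re) = ex (1/2 - x.re)`,
  so (`RSG.ex_eq_iff`) `x'.re = x.re + m`; then `x'.im = x.im + (integer)`.
* `Vp_ld`: composition of the affine permutation `(x, ρ) ↦ ((X, Y), ρ) = ((1/2 - x.re) + i (r x.re + x.im), ρ)` and of the polar map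
  `(X + iY, ρ) ↦ (ρ ex X, Y)`; see `TC_polar_ld` in PTH/TC for the same computation (there with one more variable `t`).  Or directly by
  `CSG.ld_of_fderiv`.
-/

open scoped Manifold ContDiff Topology
open Set Filter
open Complex (I)
open Pool.Agent.RSG (ex)

namespace Pool.Agent.B1X

open Pool.Agent.SPR (MT)

theorem Vp_add (r : ℕ) (x : ℂ) (ρ : ℝ) (m n : ℤ) : MT (Vp r x ρ) (Vp r (x + (m + n * I)) ρ) := by
  refine ⟨r * m + n, ?_⟩
  have e1 : (x + ((m : ℂ) + n * I)).re = x.re + m := by simp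
  have e2 : (x + ((m : ℂ) + n * I)).im = x.im + n := by simp
  unfold Vp
  rw [e1, e2]
  refine Prod.ext ?_ ?_
  · show (ρ : ℂ) * ex (1 / 2 - (x.re + m)) = (ρ : ℂ) * ex (1 / 2 - x.re) + 0
    have h : (1 : ℝ) / 2 - x.re = 1 / 2 - (x.re + m) + (m : ℤ) := by ring
    rw [add_zero, h, RSG.ex_add_int]
  · show (r : ℝ) * (x.re + m) + (x.im + n) = r * x.re + x.im + ((r * m + n : ℤ) : ℝ)
    push_cast
    ring

theorem Vp_inj {r : ℕ} {x x' : ℂ} {ρ ρ' : ℝ} (h : 0 < ρ) (h' : 0 < ρ') (hm : MT (Vp r x ρ) (Vp r x' ρ')) :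
    ρ' = ρ ∧ ∃ m n : ℤ, x' = x + (m + n * I) := by
  obtain ⟨k, hk⟩ := hm
  have h1 : (ρ' : ℂ) * ex (1 / 2 - x'.re) = (ρ : ℂ) * ex (1 / 2 - x.re) := by
    have := congrArg Prod.fst hk
    simpa [Vp] using this
  have h2 : (r : ℝ) * x'.re + x'.im = r * x.re + x.im + k := by
    have := congrArg Prod.snd hk
    simpa [Vp] using this
  obtain ⟨h3, m, h4⟩ := RSG.ex_polar h' h h1
  refine ⟨h3, m, k - r * m, ?_⟩
  have h5 : x'.re = x.re + m := by linarith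
  apply Complex.ext
  · simp [h5]
  · have h6 : x'.im = x.im + (k - r * m) := by
      rw [h5] at h2
      linarith
    simp [h6]

theorem Vp_norm (r : ℕ) (x : ℂ) {ρ : ℝ} (h : 0 ≤ ρ) : ‖(Vp r x ρ).1‖ = ρ := by
  unfold Vp
  rw [norm_mul, RSG.ex_norm, mul_one, Complex.norm_real, Real.norm_eq_abs, abs_of_nonneg h]

theorem Vp_smooth (r : ℕ) : ContDiff ℝ ∞ fun q : ℂ × ℝ => Vp r q.1 q.2 := by
  have e1 : ContDiff ℝ ∞ fun q : ℂ × ℝ => ((q.2 : ℝ) : ℂ) :=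
    Complex.ofRealCLM.contDiff.comp contDiff_snd
  have e0 : ContDiff ℝ ∞ fun q : ℂ × ℝ => q.1.re := Complex.reCLM.contDiff.comp contDiff_fst
  have e2 : ContDiff ℝ ∞ fun q : ℂ × ℝ => ex (1 / 2 - q.1.re) := RSG.ex_smooth.comp (contDiff_const.sub e0)
  have e3 : ContDiff ℝ ∞ fun q : ℂ × ℝ => (r : ℝ) * q.1.re + q.1.im :=
    (contDiff_const.mul e0).add (Complex.imCLM.contDiff.comp contDiff_fst)
  exact (e1.mul e2).prodMk e3

theorem Vp_ld (r : ℕ) (x : ℂ) {ρ : ℝ} (h : 0 < ρ) :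
    IsLocalDiffeomorphAt 𝓘(ℝ, ℂ × ℝ) 𝓘(ℝ, ℂ × ℝ) ∞ (fun q : ℂ × ℝ => Vp r q.1 q.2) (x, ρ) := by
  refine CSG.ld_of_fderiv (Filter.Eventually.of_forall fun y => (Vp_smooth r).contDiffAt) rfl ?_
  rintro ⟨v, t⟩ hv
  set f : ℂ × ℝ → ℂ × ℝ := fun q => Vp r q.1 q.2 with hf
  have hd : HasFDerivAt f (fderiv ℝ f (x, ρ)) ((x, ρ) + (0 : ℝ) • (v, t)) := by
    rw [zero_smul, add_zero]
    exact ((Vp_smooth r).differentiable (by simp) _).hasFDerivAt
  have hl : HasDerivAt (fun τ : ℝ => ((x, ρ) : ℂ × ℝ) + τ • (v, t)) (v, t) 0 := by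
    have := ((hasDerivAt_id (0 : ℝ)).smul_const ((v, t) : ℂ × ℝ)).const_add ((x, ρ) : ℂ × ℝ)
    simpa using this
  have h1 : HasDerivAt (f ∘ fun τ : ℝ => ((x, ρ) : ℂ × ℝ) + τ • (v, t)) (fderiv ℝ f (x, ρ) (v, t)) 0 :=
    HasFDerivAt.comp_hasDerivAt (0 : ℝ) hd hl
  rw [hv] at h1
  have h2 : HasDerivAt (fun τ : ℝ => (((ρ + τ * t : ℝ) : ℂ) * ex (1 / 2 - x.re + τ * (-v.re)),
      (r * x.re + x.im) + τ * (r * v.re + v.im)))
      ((t : ℂ) * ex (1 / 2 - x.re) + ρ * (2 * Real.pi * I * ex (1 / 2 - x.re) * (-v.re : ℝ)), r * v.re + v.im) 0 := by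
    have a1 : HasDerivAt (fun τ : ℝ => ((ρ + τ * t : ℝ) : ℂ)) (t : ℂ) 0 := by
      have : HasDerivAt (fun τ : ℝ => ρ + τ * t) t 0 := by
        simpa using ((hasDerivAt_id (0 : ℝ)).mul_const t).const_add ρ
      exact this.ofReal_comp
    have a2 : HasDerivAt (fun τ : ℝ => 1 / 2 - x.re + τ * (-v.re)) (-v.re) 0 := by
      simpa using ((hasDerivAt_id (0 : ℝ)).mul_const (-v.re)).const_add (1 / 2 - x.re)
    have a3 : HasDerivAt (fun τ : ℝ => ex (1 / 2 - x.re + τ * (-v.re)))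
        (2 * Real.pi * I * ex (1 / 2 - x.re) * (-v.re : ℝ)) 0 := by
      have b1 : HasDerivAt ex (2 * Real.pi * I * ex (1 / 2 - x.re)) (1 / 2 - x.re + 0 * (-v.re)) := by
        rw [zero_mul, add_zero]; exact PTH.TC_ex_deriv _
      have b2 := b1.scomp (0 : ℝ) a2
      refine b2.congr_deriv ?_
      rw [Complex.real_smul]
      ring
    have a4 : HasDerivAt (fun τ : ℝ => (r * x.re + x.im) + τ * (r * v.re + v.im)) (r * v.re + v.im) 0 := by
      simpa using ((hasDerivAt_id (0 : ℝ)).mul_const (r * v.re + v.im)).const_add (r * x.re + x.im)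
    have a6 := a1.mul a3
    have a7 := a6.prodMk a4
    refine a7.congr_deriv ?_
    simp
  have h3 : (f ∘ fun τ : ℝ => ((x, ρ) : ℂ × ℝ) + τ • (v, t)) =
      fun τ : ℝ => (((ρ + τ * t : ℝ) : ℂ) * ex (1 / 2 - x.re + τ * (-v.re)),
        (r * x.re + x.im) + τ * (r * v.re + v.im)) := by
    funext τ
    have e1 : (1 : ℝ) / 2 - (x.re + τ * v.re) = 1 / 2 - x.re + τ * (-v.re) := by ring
    refine Prod.ext ?_ ?_
    · simp only [hf, Function.comp, Vp, Prod.fst_add, Prod.snd_add, Prod.smul_fst, Prod.smul_snd, Complex.add_re, Complex.smul_re,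
        smul_eq_mul, e1]
    · simp only [hf, Function.comp, Vp, Prod.fst_add, Prod.snd_add, Prod.smul_fst, Prod.smul_snd, Complex.add_re, Complex.smul_re,
        Complex.add_im, Complex.smul_im, smul_eq_mul]
      ring
  rw [h3] at h1
  have h4 := h1.unique h2
  have h5 : (t : ℂ) * ex (1 / 2 - x.re) + ρ * (2 * Real.pi * I * ex (1 / 2 - x.re) * (-v.re : ℝ)) = 0 :=
    (congrArg Prod.fst h4).symm
  have h6 : (0 : ℝ) = r * v.re + v.im := congrArg (fun q : ℂ × ℝ => q.2) h4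
  have h8 : ex (1 / 2 - x.re) * ((t : ℂ) + ρ * (2 * Real.pi * I * (-v.re : ℝ))) = 0 := by
    rw [← h5]; ring
  have h9 : (t : ℂ) + ρ * (2 * Real.pi * I * (-v.re : ℝ)) = 0 := (mul_eq_zero.1 h8).resolve_left (RSG.ex_ne _)
  have h10 : t = 0 := by
    have := congrArg Complex.re h9
    simpa using this
  have h11 : v.re = 0 := by
    have := congrArg Complex.im h9
    have h12 : ρ * (2 * Real.pi * v.re) = 0 := by simpa using this
    have hpi := Real.pi_pos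
    have h13 : v.re * (ρ * (2 * Real.pi)) = 0 := by linarith
    exact (mul_eq_zero.1 h13).resolve_right (by positivity)
  rw [h11, mul_zero, zero_add] at h6
  have h14 : v = 0 := Complex.ext h11 h6.symm
  rw [h14, h10]
  rfl

theorem Wn_norm {Y : ℂ} (h : Y ≠ 0) : ‖Wn Y‖ = 1 := by
  unfold Wn
  rw [norm_div, Complex.norm_real, norm_norm]
  exact div_self (norm_ne_zero_iff.2 h)

theorem Wn_mul (Y : ℂ) : (‖Y‖ : ℂ) * Wn Y = Y := by
  unfold Wn
  by_cases h : Y = 0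
  · simp [h]
  · have : (‖Y‖ : ℂ) ≠ 0 := by
      exact_mod_cast norm_ne_zero_iff.2 h
    field_simp

theorem Wn_pos {c : ℝ} (h : 0 < c) : Wn (c : ℂ) = 1 := by
  unfold Wn
  rw [Complex.norm_real, Real.norm_eq_abs, abs_of_pos h]
  have : (c : ℂ) ≠ 0 := by exact_mod_cast h.ne'
  exact div_self this

theorem Wn_neg (Y : ℂ) : Wn (-Y) = -Wn Y := by
  unfold Wn
  rw [norm_neg, neg_div]

theorem Wn_conj (Y : ℂ) : Wn ((starRingEnd ℂ) Y) = (starRingEnd ℂ) (Wn Y) := by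
  unfold Wn
  rw [map_div₀, Complex.conj_ofReal, Complex.norm_conj]

end Pool.Agent.B1X
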