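import Pool.Agent.B1X.FnC
import Pool.Agent.B1X.VpM

/-!
# B1X/KSt: the position of the hairpin arc   (difficulty 2)

`xT r tl σ = (g1 Uf - tl₁) + i (Vf + tl₂ + r tl₁)`; `tl σ = 0` for `σ ≤ 13/16` (`Tail.zero`), `g1 = 0` for `σ ≤ 1/32`, `g1 = 1` for `σ ≥ 1/16`.
The five cases `K1` ... `K5`.  `K3_near`: outside of the windows the point is within `1/32` (half windows: `17/64`) of a lattice point:
`σ ≤ 47/128` etc.: `Vf = 0` unless `95/256 < σ < 97/256`, where `|u - 1| < 1/64`, `|v| ≤ 1/128`.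
-/

open scoped Manifold ContDiff Topology
open Set Filter
open Complex (I)

namespace Pool.Agent.B1X

theorem KSt_re (r : ℕ) (tl : ℝ → ℝ × ℝ) (σ : ℝ) : (xT r tl σ).re = g1 σ * Uf r σ - (tl σ).1 := rfl

theorem KSt_im (r : ℕ) (tl : ℝ → ℝ × ℝ) (σ : ℝ) :
    (xT r tl σ).im = Vf σ + (tl σ).2 + r * (tl σ).1 := rfl

theorem KSt_zero {r : ℕ} {tl : ℝ → ℝ × ℝ} {σ : ℝ} (h : tl σ = 0) :
    xT r tl σ = ⟨g1 σ * Uf r σ, Vf σ⟩ := by
  apply Complex.ext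
  · rw [KSt_re, h]; simp
  · rw [KSt_im, h]; simp

/-- the norm of `⟨a, b⟩ - m` -/
theorem KSt_norm (a b c : ℝ) : ‖(⟨a, b⟩ : ℂ) - (c : ℂ)‖ ≤ |a - c| + |b| := by
  refine (Complex.norm_le_abs_re_add_abs_im _).trans ?_
  simp

theorem KSt_u (σ : ℝ) (h : |4 * σ - 3 / 2| ≤ 17 / 64) :
    ‖(⟨4 * σ - 1 / 2, Vf σ⟩ : ℂ) - ((1 : ℝ) : ℂ)‖ ≤ max |4 * σ - 3 / 2| (3 / 128) := by
  refine (KSt_norm _ _ _).trans ?_
  have e : 4 * σ - 1 / 2 - 1 = 4 * σ - 3 / 2 := by ring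
  rw [e]
  by_cases h1 : σ ≤ 95 / 256
  · rw [Vf_left h1, abs_zero, add_zero]
    exact le_max_left _ _
  · by_cases h2 : 97 / 256 ≤ σ
    · rw [Vf_right h2, abs_zero, add_zero]
      exact le_max_left _ _
    · push Not at h1 h2
      have h3 : |4 * σ - 3 / 2| ≤ 1 / 64 := by
        rw [abs_le]; constructor <;> linarith
      have h4 : |Vf σ| ≤ 1 / 128 := by
        rw [abs_le]
        exact ⟨Vf_ge σ, (Vf_le σ).trans (by norm_num)⟩
      exact le_trans (by linarith) (le_max_right _ _)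

theorem K1 {r : ℕ} {tl : ℝ → ℝ × ℝ} (ht : Tail r tl) {σ : ℝ} (h : σ ≤ 1 / 32) : xT r tl σ = 0 := by
  rw [KSt_zero (ht.zero σ (by linarith)), g1_left h, Vf_left (by linarith), zero_mul]
  rfl

theorem K2 {r : ℕ} (hr : 1 ≤ r) {tl : ℝ → ℝ × ℝ} (ht : Tail r tl) {σ : ℝ} (h : σ ≤ 17 / 128) : ‖xT r tl σ‖ ≤ 1 / 32 := by
  rw [KSt_zero (ht.zero σ (by linarith)), Vf_left (by linarith)]
  have h1 := KSt_norm (g1 σ * Uf r σ) 0 0
  have e : ‖(⟨g1 σ * Uf r σ, 0⟩ : ℂ) - ((0 : ℝ) : ℂ)‖ = ‖(⟨g1 σ * Uf r σ, 0⟩ : ℂ)‖ := by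
    rw [Complex.ofReal_zero, sub_zero]
  rw [e, sub_zero, abs_zero, add_zero] at h1
  refine h1.trans ?_
  rw [abs_mul, abs_of_nonneg (g1_nonneg σ), abs_of_pos (Uf_pos hr h)]
  have h2 := Uf_le hr h
  have h3 := Uf_pos hr h
  have h4 := g1_nonneg σ
  have h5 := g1_le σ
  nlinarith

theorem K3 {r : ℕ} {tl : ℝ → ℝ × ℝ} (ht : Tail r tl) {σ : ℝ} (h : 17 / 128 ≤ σ) (h' : σ ≤ 79 / 128) :
    xT r tl σ = ⟨4 * σ - 1 / 2, Vf σ⟩ := by
  rw [KSt_zero (ht.zero σ (by linarith)), g1_right (by linarith), Uf_mid r h h', one_mul]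

theorem K4 {r : ℕ} (hr : 1 ≤ r) {tl : ℝ → ℝ × ℝ} (ht : Tail r tl) {σ : ℝ} (h : 79 / 128 ≤ σ) (h' : σ ≤ 13 / 16) :
    ‖xT r tl σ - 2‖ ≤ 1 / 32 := by
  rw [KSt_zero (ht.zero σ h'), g1_right (by linarith), Vf_right (by linarith), one_mul]
  have h1 := KSt_norm (Uf r σ) 0 2
  rw [abs_zero, add_zero] at h1
  have e : ((2 : ℝ) : ℂ) = 2 := by norm_num
  rw [e] at h1
  refine h1.trans ?_
  have h2 := Uf_ge hr h
  have h3 := Uf_lt hr h
  have h4 := u1_pos hr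
  rw [abs_le]; constructor <;> linarith

/-- for `159/256 ≤ σ`, as long as the tail is `0` -/
theorem K5 {r : ℕ} {tl : ℝ → ℝ × ℝ} {σ : ℝ} (h : 159 / 256 ≤ σ) (h' : tl σ = 0) :
    xT r tl σ = ((2 - u1 r : ℝ) : ℂ) := by
  rw [KSt_zero h', g1_right (by linarith), Vf_right (by linarith), one_mul, Uf_right r h]
  rfl

/-- outside of the windows `(17/128, 47/128)`, `(49/128, 79/128)` -/
theorem K_near {r : ℕ} (hr : 1 ≤ r) {tl : ℝ → ℝ × ℝ} (ht : Tail r tl) {σ : ℝ} (h : σ ≤ 13 / 16)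
    (h1 : ¬ (17 / 128 < σ ∧ σ < 47 / 128)) (h2 : ¬ (49 / 128 < σ ∧ σ < 79 / 128)) :
    ∃ m : ℤ, ‖xT r tl σ - m‖ ≤ 1 / 32 := by
  by_cases c1 : σ ≤ 17 / 128
  · refine ⟨0, ?_⟩
    rw [Int.cast_zero, sub_zero]
    exact K2 hr ht c1
  · by_cases c2 : 79 / 128 ≤ σ
    · refine ⟨2, ?_⟩
      have := K4 hr ht c2 h
      push_cast
      exact this
    · push Not at c1 c2
      have c3 : 47 / 128 ≤ σ := by
        by_contra hc
        exact h1 ⟨c1, not_le.1 hc⟩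
      have c4 : σ ≤ 49 / 128 := by
        by_contra hc
        exact h2 ⟨not_le.1 hc, c2⟩
      refine ⟨1, ?_⟩
      rw [K3 ht c1.le c2.le]
      have h3 : |4 * σ - 3 / 2| ≤ 1 / 32 := by
        rw [abs_le]; constructor <;> linarith
      have h4 := KSt_u σ (h3.trans (by norm_num))
      have e : (((1 : ℤ)) : ℂ) = ((1 : ℝ) : ℂ) := by norm_num
      rw [e]
      exact h4.trans (max_le h3 (by norm_num))

/-- outside of the half windows `(49/256, 79/256)`, `(113/256, 143/256)` -/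
theorem K_half {r : ℕ} (hr : 1 ≤ r) {tl : ℝ → ℝ × ℝ} (ht : Tail r tl) {σ : ℝ} (h : 17 / 128 ≤ σ) (h' : σ ≤ 79 / 128)
    (h1 : ¬ (49 / 256 < σ ∧ σ < 79 / 256)) (h2 : ¬ (113 / 256 < σ ∧ σ < 143 / 256)) :
    ∃ m : ℤ, ‖xT r tl σ - m‖ ≤ 17 / 64 := by
  rw [K3 ht h h']
  by_cases c1 : σ ≤ 49 / 256
  · refine ⟨0, ?_⟩
    have h3 := KSt_norm (4 * σ - 1 / 2) (Vf σ) 0
    rw [Vf_left (by linarith), abs_zero, add_zero, sub_zero] at h3
    rw [Vf_left (by linarith)]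
    have e : (((0 : ℤ)) : ℂ) = ((0 : ℝ) : ℂ) := by norm_num
    rw [e]
    refine h3.trans ?_
    rw [abs_le]; constructor <;> linarith
  · by_cases c2 : 143 / 256 ≤ σ
    · refine ⟨2, ?_⟩
      have h3 := KSt_norm (4 * σ - 1 / 2) (Vf σ) 2
      rw [Vf_right (by linarith), abs_zero, add_zero] at h3
      rw [Vf_right (by linarith)]
      have e : (((2 : ℤ)) : ℂ) = ((2 : ℝ) : ℂ) := by norm_num
      rw [e]
      refine h3.trans ?_
      rw [abs_le]; constructor <;> linarith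
    · push Not at c1 c2
      have c3 : 79 / 256 ≤ σ := by
        by_contra hc
        exact h1 ⟨c1, not_le.1 hc⟩
      have c4 : σ ≤ 113 / 256 := by
        by_contra hc
        exact h2 ⟨not_le.1 hc, c2⟩
      refine ⟨1, ?_⟩
      have h3 : |4 * σ - 3 / 2| ≤ 17 / 64 := by
        rw [abs_le]; constructor <;> linarith
      have h4 := KSt_u σ h3
      have e : (((1 : ℤ)) : ℂ) = ((1 : ℝ) : ℂ) := by norm_num
      rw [e]
      exact h4.trans (max_le h3 (by norm_num))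

theorem xT_smooth {r : ℕ} {tl : ℝ → ℝ × ℝ} (ht : ContDiff ℝ ∞ tl) : ContDiff ℝ ∞ (xT r tl) := by
  have e : xT r tl = fun σ => ((g1 σ * Uf r σ - (tl σ).1 : ℝ) : ℂ) +
      ((Vf σ + (tl σ).2 + r * (tl σ).1 : ℝ) : ℂ) * I := by
    funext σ
    apply Complex.ext
    · rw [KSt_re]; simp
    · rw [KSt_im]; simp
  rw [e]
  have h1 : ContDiff ℝ ∞ fun σ => g1 σ * Uf r σ - (tl σ).1 :=
    (g1_smooth.mul (Uf_smooth r)).sub (contDiff_fst.comp ht)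
  have h2 : ContDiff ℝ ∞ fun σ => Vf σ + (tl σ).2 + r * (tl σ).1 :=
    (Vf_smooth.add (contDiff_snd.comp ht)).add (contDiff_const.mul (contDiff_fst.comp ht))
  exact (Complex.ofRealCLM.contDiff.comp h1).add
    ((Complex.ofRealCLM.contDiff.comp h2).mul contDiff_const)

theorem gT_smooth {r : ℕ} {tl : ℝ → ℝ × ℝ} (ht : ContDiff ℝ ∞ tl) : ContDiff ℝ ∞ (gT r tl) := by
  have h4 : ContDiff ℝ ∞ fun l : ℝ => 4 * l := contDiff_const.mul contDiff_id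
  exact (Vp_smooth r).comp (((xT_smooth ht).comp h4).prodMk (rT_smooth.comp h4))

theorem gT_norm {r : ℕ} {tl : ℝ → ℝ × ℝ} {l : ℝ} (h : |l| < 1 / 4) : ‖(gT r tl l).1‖ < 1 := by
  rw [abs_lt] at h
  have h1 : -1 < 4 * l := by linarith
  have h2 : 4 * l < 1 := by linarith
  have h3 := rT_gt h1 h2
  have h4 := rT_lt h1 h2
  unfold gT
  rw [Vp_norm r _ (by linarith)]
  exact h4

end Pool.Agent.B1X
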