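import Pool.Agent.B1X.KSt
import Pool.Agent.B1X.Cap

/-!
# B1X/Off: the arc and the capsule   (difficulty 2)

Let `MT (de r (y, s)) (gT r tl l)`, `‖y‖ ≤ 1`, `|s| ≤ 1`, `σ = 4 l`.  `Vp_inj`: `rT σ = rd y s`, `xT σ = xd y s + (m + n i)`, `‖xd‖ ≤ Ac s ≤ 21/64`.
* `σ ≥ 13/16`: `rT σ = σ > 5/8 ≥ rd` (`rd_le`), contradiction.
* `σ ≤ 17/128` or `79/128 ≤ σ ≤ 13/16`: `K2`, `K4`: `‖xT - k‖ ≤ 1/32`, `k = 0` or `2`; since `1/32 + 21/64 < 1`, `k = m + n i`, so `‖xd‖ ≤ 1/32` and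
  `rd ≤ 23/64 < 3/8 < rT` (`rd_small`, `rT_gt`), contradiction.
* so `17/128 < σ < 79/128`, `rT σ = rr (nf²) > 1/2 + 1/1280000` (`rT_mid`, `rr_gt`), so `‖y‖² ≥ 1/160000` by `rd_in`, `rr (‖y‖²) = rr (nf²)`, `‖y‖ = nf σ`
  (`off_main`).  Then `‖xd‖ = Ac s ≥ 19/64`.  If `σ` is outside of the half windows, `K_half`: `‖xT - k‖ ≤ 17/64`, `17/64 + 21/64 < 1`, so `k = m + n i` and
  `‖xd‖ ≤ 17/64`, contradiction.  `f1 u`, `|u| < 1/2`: `4 f1 u ∈ (49/256, 79/256)`; `4 f2 u ∈ (113/256, 143/256)`.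
-/

open scoped Manifold ContDiff Topology
open Set Filter
open Complex (I)

namespace Pool.Agent.B1X

open Pool.Agent.SPR (MT)

/-- an integer near a Gaussian integer -/
theorem Off_int {x w : ℂ} {k m n : ℤ} (e : x = w + (m + n * I)) {a b : ℝ} (h1 : ‖x - k‖ ≤ a)
    (h2 : ‖w‖ ≤ b) (hab : a + b < 1) : ‖w‖ ≤ a := by
  have h3 : ‖((m - k : ℤ) : ℂ) + ((n : ℤ) : ℂ) * I‖ < 1 := by
    have e1 : ((m - k : ℤ) : ℂ) + ((n : ℤ) : ℂ) * I = (x - k) - w := by
      rw [e]; push_cast; ring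
    rw [e1]
    exact (norm_sub_le _ _).trans_lt (by linarith)
  have hre : |(((m - k : ℤ)) : ℝ)| < 1 := by
    have := (Complex.abs_re_le_norm (((m - k : ℤ) : ℂ) + ((n : ℤ) : ℂ) * I)).trans_lt h3
    simpa using this
  have him : |((n : ℤ) : ℝ)| < 1 := by
    have := (Complex.abs_im_le_norm (((m - k : ℤ) : ℂ) + ((n : ℤ) : ℂ) * I)).trans_lt h3
    simpa using this
  have hm : m - k = 0 := by
    have : |(m - k : ℤ)| < 1 := by exact_mod_cast hre
    exact Int.abs_lt_one_iff.1 this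
  have hn : n = 0 := by
    have : |(n : ℤ)| < 1 := by exact_mod_cast him
    exact Int.abs_lt_one_iff.1 this
  have hmk : m = k := by linarith
  have e2 : x - k = w := by
    rw [e, hmk, hn]; push_cast; ring
  rw [← e2]
  exact h1

theorem off_main {r : ℕ} (hr : 1 ≤ r) {tl : ℝ → ℝ × ℝ} (ht : Tail r tl) {l : ℝ} (hl : |l| < 1 / 4) {y : ℂ} {s : ℝ} (hy : ‖y‖ ≤ 1)
    (hs : |s| ≤ 1) (h : MT (de r (y, s)) (gT r tl l)) :
    17 / 128 < 4 * l ∧ 4 * l < 79 / 128 ∧ 1 / 160000 ≤ ‖y‖ ^ 2 ∧ ‖y‖ = nf (4 * l) ∧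
      ∃ m n : ℤ, xT r tl (4 * l) = xd y s + (m + n * I) := by
  rw [abs_lt] at hl
  have hs20 : |s| < 20 := by linarith
  have hAc : Ac s ≤ 21 / 64 := by
    have := (abs_le.1 hs).2
    unfold Ac; linarith
  have hxd : ‖xd y s‖ ≤ 21 / 64 := (xd_le y hs20).trans hAc
  have hrd := rd_pos (y := y) (s := s) (by linarith)
  have hrT := rT_gt (σ := 4 * l) (by linarith) (by linarith)
  have hde : de r (y, s) = Vp r (xd y s) (rd y s) := rfl
  have hgT : gT r tl l = Vp r (xT r tl (4 * l)) (rT (4 * l)) := rfl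
  rw [hde, hgT] at h
  obtain ⟨e1, m, n, e2⟩ := Vp_inj hrd (by linarith) h
  have hsig : 4 * l < 13 / 16 := by
    by_contra hc
    push Not at hc
    have h3 := rT_right (σ := 4 * l) (by linarith)
    have h4 := rd_le hy hs20
    linarith
  have hlow : 17 / 128 < 4 * l := by
    by_contra hc
    push Not at hc
    have h3 := K2 hr ht hc
    have h4 : ‖xd y s‖ ≤ 1 / 32 := by
      refine Off_int (k := 0) e2 (a := 1 / 32) ?_ hxd (by norm_num)
      rw [Int.cast_zero, sub_zero]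
      exact h3
    have h5 := rd_small hs h4
    linarith
  have hhigh : 4 * l < 79 / 128 := by
    by_contra hc
    push Not at hc
    have h3 := K4 hr ht hc hsig.le
    have h4 : ‖xd y s‖ ≤ 1 / 32 := by
      refine Off_int (k := 2) e2 (a := 1 / 32) ?_ hxd (by norm_num)
      push_cast
      exact h3
    have h5 := rd_small hs h4
    linarith
  have hmid := rT_mid hlow.le hhigh.le
  have hgt := rr_gt (4 * l)
  have hq : 1 / 160000 ≤ ‖y‖ ^ 2 := by
    by_contra hc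
    push Not at hc
    have := rd_in hc hs20
    rw [hmid] at e1
    linarith
  have hrr : rr (nf (4 * l) ^ 2) = rr (‖y‖ ^ 2) := by
    rw [← hmid, e1, rd_out hq s]
  have hsq : nf (4 * l) ^ 2 = ‖y‖ ^ 2 := by
    unfold rr at hrr
    linarith
  have hnf : 0 ≤ nf (4 * l) := by
    have h1 := nf_ge (4 * l)
    have h2 := mu_pos
    linarith
  refine ⟨hlow, hhigh, hq, ?_, m, n, e2⟩
  exact ((pow_left_inj₀ hnf (norm_nonneg y) (by norm_num)).1 hsq).symm

theorem off {r : ℕ} (hr : 1 ≤ r) {tl : ℝ → ℝ × ℝ} (ht : Tail r tl) {l : ℝ} (hl : |l| < 1 / 4)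
    (h : ∀ u, |u| < 1 / 2 → l ≠ f1 u ∧ l ≠ f2 u) {y : ℂ} {s : ℝ} (hy : ‖y‖ ≤ 1) (hs : |s| ≤ 1) :
    ¬ MT (de r (y, s)) (gT r tl l) := by
  intro hm
  obtain ⟨h1, h2, hq, -, m, n, e⟩ := off_main hr ht hl hy hs hm
  have hs' := abs_le.1 hs
  have w1 : ¬ (49 / 256 < 4 * l ∧ 4 * l < 79 / 256) := by
    rintro ⟨ha, hb⟩
    have hu : |(l - 1 / 16) / (15 / 512)| < 1 / 2 := by
      rw [abs_lt, lt_div_iff₀ (by norm_num), div_lt_iff₀ (by norm_num)]
      constructor <;> linarith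
    refine (h _ hu).1 ?_
    unfold f1
    field_simp
    ring
  have w2 : ¬ (113 / 256 < 4 * l ∧ 4 * l < 143 / 256) := by
    rintro ⟨ha, hb⟩
    have hu : |(l - 1 / 8) / (15 / 512)| < 1 / 2 := by
      rw [abs_lt, lt_div_iff₀ (by norm_num), div_lt_iff₀ (by norm_num)]
      constructor <;> linarith
    refine (h _ hu).2 ?_
    unfold f2
    field_simp
    ring
  obtain ⟨k, hk⟩ := K_half hr ht h1.le h2.le w1 w2
  have hAc : Ac s ≤ 21 / 64 := by unfold Ac; linarith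
  have hAc' : 19 / 64 ≤ Ac s := by unfold Ac; linarith
  have hxd : ‖xd y s‖ ≤ 21 / 64 := (xd_le y (by linarith)).trans hAc
  have h3 := Off_int e hk hxd (by norm_num)
  have hy0 : y ≠ 0 := by
    rintro rfl
    rw [norm_zero] at hq
    norm_num at hq
  have h4 : ‖xd y s‖ = Ac s := by
    rw [xd_out hq s, norm_mul, Wn_norm hy0, mul_one, Complex.norm_real, Real.norm_eq_abs,
      abs_of_nonneg (by linarith)]
  rw [h4] at h3
  linarith

end Pool.Agent.B1X
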