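import Pool.Agent.B1X.Pie
import Pool.Agent.B1X.Off

/-!
# B1X/Pcs: the pieces   (difficulty 1)

`APieces (gT r tl) (be r) (de r) f1 f2 cc mm bi vs (fun _ => mu) (fun _ => 1/30)`: `piece = pie_piece`, `inter = pie_inter`, `inb = pie_inb`, `off = off`;
the rest is numeric: `mu = 1/200000`, `‖cc 0‖ = 1000 mu`, `‖cc 1‖ = 1001 mu`, `‖cc 0 - cc 1‖ = 2001 mu`, `‖mm i‖ = mu`, `2/5 + 1/30 < 1/2`.
-/

open scoped Manifold ContDiff Topology
open Set Filter
open Complex (I)

namespace Pool.Agent.B1X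

open Pool.Agent.SPR (MT APieces)

theorem Pcs_n0 : ‖cc 0‖ = 1000 * mu := by
  have h := mu_pos
  unfold cc
  rw [if_pos rfl, Complex.norm_real, Real.norm_eq_abs, abs_of_pos (by positivity)]

theorem Pcs_n1 : ‖cc 1‖ = 1001 * mu := by
  have h := mu_pos
  unfold cc
  rw [if_neg (by decide), Complex.norm_real, Real.norm_eq_abs, abs_neg, abs_of_pos (by positivity)]

theorem Pcs_d : ‖cc 0 - cc 1‖ = 2001 * mu := by
  have h := mu_pos
  unfold cc
  rw [if_pos rfl, if_neg (by decide), ← Complex.ofReal_sub, Complex.norm_real, Real.norm_eq_abs]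
  rw [show (1000 * mu - -(1001 * mu) : ℝ) = 2001 * mu by ring, abs_of_pos (by positivity)]

theorem Pcs_m0 : ‖mm 0‖ = mu := by
  have h := mu_pos
  unfold mm
  rw [if_pos rfl, Complex.norm_real, Real.norm_eq_abs, abs_neg, abs_of_pos h]

theorem Pcs_m1 : ‖mm 1‖ = mu := by
  have h := mu_pos
  unfold mm
  rw [if_neg (by decide), Complex.norm_real, Real.norm_eq_abs, abs_of_pos h]

theorem pcs {r : ℕ} (hr : 1 ≤ r) {tl : ℝ → ℝ × ℝ} (ht : Tail r tl) :
    APieces (gT r tl) (be r) (de r) f1 f2 cc mm bi vs (fun _ => mu) (fun _ => 1 / 30) := by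
  have h := mu_pos
  have hmu : mu = 1 / 200000 := rfl
  refine ⟨?_, ?_, ?_, ?_, ?_, ?_, ?_, ?_, ?_, ?_, ?_⟩
  · intro _
    exact h
  · rw [Fin.forall_fin_two]
    exact ⟨Pcs_m0, Pcs_m1⟩
  · intro _
    norm_num
  · rw [Fin.forall_fin_two]
    rw [Pcs_n0, Pcs_n1, hmu]
    norm_num
  · intro i i' hii
    have h1 : ‖cc i - cc i'‖ = 2001 * mu := by
      fin_cases i <;> fin_cases i'
      · exact absurd rfl hii
      · exact Pcs_d
      · show ‖cc 1 - cc 0‖ = _
        rw [norm_sub_rev]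
        exact Pcs_d
      · exact absurd rfl hii
    rw [h1]
    linarith
  · rw [Fin.forall_fin_two]
    unfold bi
    rw [if_pos rfl, if_neg (by decide), abs_neg, abs_of_pos (by norm_num)]
    norm_num
  · rw [Fin.forall_fin_two]
    unfold vs
    rw [if_pos rfl, if_neg (by decide)]
    exact ⟨Or.inl rfl, Or.inr rfl⟩
  · intro i y s hy hs
    exact pie_piece r i y s hy hs
  · intro y s z s' hy hs hz hs' hM
    exact pie_inter r y s z s' hy hs hz hs' hM
  · intro y s z s' hy hs hz hs' hM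
    exact pie_inb r y s z s' hy hs hz hs' hM
  · intro l hl hno y s hy hs
    exact off hr ht hl hno hy hs

end Pool.Agent.B1X
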