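import Pool.Agent.B1X.GxM
import Pool.Agent.B1X.Cap

/-!
# B1X/Pie: intersection of the ribbon and the capsule   (difficulty 3)

`mu = 1/200000`, `Y = cf τ - mu z`, `τ = 1/2 + 15/32 s'`, `W = Wn Y`.
* `cross`: `Vp_inj` (`rd > 0`, `rr > 0`): `rd y s = rr (‖Y‖²)` and `xd y s = Gx τ W + (m + n i)`.  If `‖y‖² < 1/160000` then
  `rd < 1/2 + 1/1280000 < 1/2 + (995 mu)²/8 < rr (‖Y‖²)`, contradiction.  So (`xd_out`, `rd_out`) `‖y‖ = ‖Y‖`, `xd = Ac s Wn y`,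
  `‖Gx τ W - (-m - n i)‖ = Ac s ∈ [19/64, 21/64]`, and `Gx_A`: either `m = n = 0`, `τ = Ac s ≤ 3/8`, `Gx τ W = τ W`, so `Wn y = W`, `y = ‖y‖ Wn y = Y`;
  or `n = 0`, `m = -1`, `τ = 1 - Ac s ≥ 5/8`, `xd = Gx τ W - 1 = -(1 - τ) conj W`, `Wn y = -conj W`, `y = -conj Y`.
* `inter`: first case: `cf τ = 1000 mu`, `y - 1000 mu = -mu z`; second: `cf τ = 1001 mu`, `y + 1001 mu = mu conj z`; `‖z‖ < 4`.
* `inb`: `s' = (τ - 1/2) 32/15`, `τ = Ac s` or `1 - Ac s`: `|s'| ≤ 13/30`; `‖y‖ = ‖Y‖ < 1006 mu`.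
* `piece`: `i = 0`: `‖y‖ ≥ 996 mu`, `z = (y - 1000 mu)/(-mu)`, `s' = -2/5 + s/30`: `τ = 5/16 + s/64 = Ac s`, `Y = y`: the two points are equal.
  `i = 1`: `z = conj ((y + 1001 mu)/mu)`, `s' = 2/5 - s/30`: `τ = 1 - Ac s`, `Y = -conj y`, `Gx τ W = 1 - (1 - τ) conj (Wn (-conj y)) = 1 + Ac s Wn y`
  (`Wn_neg`, `Wn_conj`), so the point is `Vp r (1 + xd) (rd)`; `Vp_add` with `m = -1`.
  (`cj 1 = id`, `cj (-1) =` conjugation, see `RSG.cj`; `fin_cases i`, `cc`, `mm`, `bi`, `vs`.)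
-/

open scoped Manifold ContDiff Topology
open Set Filter
open Complex (I)
open Pool.Agent.RSG (cj ex)

namespace Pool.Agent.B1X

open Pool.Agent.SPR (MT HBox)

theorem Pie_cf_left {τ : ℝ} (h : τ ≤ 3 / 8) : cf τ = 1000 * mu := by
  unfold cf
  rw [Sf_left h]
  ring

theorem Pie_cf_right {τ : ℝ} (h : 5 / 8 ≤ τ) : cf τ = 1001 * mu := by
  unfold cf
  rw [Sf_right h]
  ring

theorem Pie_mu : mu = 1 / 200000 := rfl

theorem cross {r : ℕ} {y z : ℂ} {s s' : ℝ} (hs : |s| ≤ 1) (hz : ‖z‖ < 5) (hs' : |s'| < 1)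
    (h : MT (be r (z, s')) (de r (y, s))) :
    ‖y‖ < 1006 * mu ∧ (1 / 2 + 15 / 32 * s' = Ac s ∧ y = ((1000 * mu : ℝ) : ℂ) - (mu : ℂ) * z ∨
      1 / 2 + 15 / 32 * s' = 1 - Ac s ∧ y = -((1001 * mu : ℝ) : ℂ) + (mu : ℂ) * (starRingEnd ℂ) z) := by
  have hs1 := abs_le.1 hs
  have hs1' := abs_lt.1 hs'
  have hA1 : 19 / 64 ≤ Ac s := by unfold Ac; linarith [hs1.1]
  have hA2 : Ac s ≤ 21 / 64 := by unfold Ac; linarith [hs1.2]
  have hmu := mu_pos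
  set τ : ℝ := 1 / 2 + 15 / 32 * s' with hτ
  have hτ1 : 1 / 32 < τ := by rw [hτ]; linarith [hs1'.1]
  have hτ2 : τ < 31 / 32 := by rw [hτ]; linarith [hs1'.2]
  set Y : ℂ := (cf τ : ℂ) - (mu : ℂ) * z with hY
  have hYgt : 995 * mu < ‖Y‖ := ribY_gt (cf_ge τ) hz
  have hYlt : ‖Y‖ < 1006 * mu := ribY_lt (by have := cf_ge τ; linarith) (cf_le τ) hz
  have hW : NW (Wn Y) := nw_Wn (cf_ge τ) hz
  have hrr : 0 < rr (‖Y‖ ^ 2) := by unfold rr; positivity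
  have hrd : 0 < rd y s := rd_pos (by linarith)
  have hm : MT (Vp r (Gx τ (Wn Y)) (rr (‖Y‖ ^ 2))) (Vp r (xd y s) (rd y s)) := h
  obtain ⟨hr, m, n, hx⟩ := Vp_inj hrr hrd hm
  have hY0 : 0 < ‖Y‖ := by nlinarith
  have hyq : 1 / 160000 ≤ ‖y‖ ^ 2 := by
    by_contra hcon
    push Not at hcon
    have h1 := rd_in hcon (s := s) (by linarith)
    rw [hr] at h1
    unfold rr at h1
    have h2 : (995 * mu) ^ 2 < ‖Y‖ ^ 2 := by
      apply pow_lt_pow_left₀ hYgt (by positivity) (by norm_num)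
    rw [Pie_mu] at h2
    norm_num at h1 h2
    linarith
  rw [rd_out hyq] at hr
  have hn : ‖y‖ = ‖Y‖ := by
    unfold rr at hr
    have h1 : ‖y‖ ^ 2 = ‖Y‖ ^ 2 := by linarith
    exact (pow_left_inj₀ (norm_nonneg _) (norm_nonneg _) (by norm_num)).1 h1
  have hy0 : y ≠ 0 := by
    intro h0
    rw [h0, norm_zero] at hn
    linarith
  have hY0' : Y ≠ 0 := norm_pos_iff.1 hY0
  have hxo := xd_out hyq s
  have hA0 : (0 : ℝ) < Ac s := by linarith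
  have hA0' : (Ac s : ℂ) ≠ 0 := by exact_mod_cast hA0.ne'
  have hnx : ‖Gx τ (Wn Y) - (((-m : ℤ) : ℂ) + ((-n : ℤ) : ℂ) * I)‖ = Ac s := by
    have h1 : Gx τ (Wn Y) - (((-m : ℤ) : ℂ) + ((-n : ℤ) : ℂ) * I) = xd y s := by
      rw [hx]; push_cast; ring
    rw [h1, hxo, norm_mul, Wn_norm hy0, mul_one, Complex.norm_real, Real.norm_eq_abs, abs_of_pos hA0]
  obtain ⟨hn0, hcase⟩ := Gx_A hW hτ1 hτ2 hA1 hA2 hnx
  have hn0' : n = 0 := by omega
  subst hn0'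
  refine ⟨by rw [hn]; exact hYlt, ?_⟩
  rcases hcase with ⟨hm0, hta⟩ | ⟨hm0, hta⟩
  · left
    have hm0' : m = 0 := by omega
    subst hm0'
    refine ⟨hta, ?_⟩
    have h38 : τ ≤ 3 / 8 := by rw [hta]; linarith
    rw [Gx_left h38, hta, hxo] at hx
    have hWW : Wn y = Wn Y := by
      apply mul_left_cancel₀ hA0'
      rw [hx]; simp
    have hyY : y = Y := by rw [← Wn_mul y, ← Wn_mul Y, hn, hWW]
    rw [hyY, hY, Pie_cf_left h38]
  · right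
    have hm0' : m = -1 := by omega
    subst hm0'
    refine ⟨hta, ?_⟩
    have h58 : 5 / 8 ≤ τ := by rw [hta]; linarith
    rw [Gx_right h58, hta, hxo] at hx
    have hWW : Wn y = -(starRingEnd ℂ) (Wn Y) := by
      apply mul_left_cancel₀ hA0'
      rw [hx]; push_cast; ring
    have hyY : y = -(starRingEnd ℂ) Y := by
      have h1 : (starRingEnd ℂ) Y = (‖Y‖ : ℂ) * (starRingEnd ℂ) (Wn Y) := by
        conv_lhs => rw [← Wn_mul Y]
        rw [map_mul, Complex.conj_ofReal]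
      rw [h1, ← Wn_mul y, hn, hWW]
      ring
    rw [hyY, hY, Pie_cf_right h58, map_sub, map_mul, Complex.conj_ofReal, Complex.conj_ofReal]
    ring

theorem pie_piece (r : ℕ) (i : Fin 2) (y : ℂ) (s : ℝ) (hy : ‖y - cc i‖ < 4 * mu) (hs : |s| < 1) :
    MT (be r (cj (vs i) ((y - cc i) / mm i), bi i + vs i * (1 / 30) * s)) (de r (y, s)) := by
  have hs1 := abs_lt.1 hs
  have hmu := mu_pos
  have hmu' : (mu : ℂ) ≠ 0 := by exact_mod_cast hmu.ne'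
  have hy996 : 996 * mu < ‖y‖ := by
    fin_cases i
    · simp only [cc, Fin.zero_eta, ↓reduceIte] at hy
      have h1 : ‖((1000 * mu : ℝ) : ℂ)‖ = 1000 * mu := by
        rw [Complex.norm_real, Real.norm_eq_abs, abs_of_pos (by positivity)]
      have h2 : ‖((1000 * mu : ℝ) : ℂ)‖ ≤ ‖y‖ + ‖y - ((1000 * mu : ℝ) : ℂ)‖ := by
        have := norm_sub_le y (y - ((1000 * mu : ℝ) : ℂ))
        rwa [sub_sub_cancel] at this
      linarith
    · simp only [cc, Fin.mk_one, Fin.isValue, one_ne_zero, ↓reduceIte] at hy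
      have h1 : ‖((-(1001 * mu) : ℝ) : ℂ)‖ = 1001 * mu := by
        rw [Complex.norm_real, Real.norm_eq_abs, abs_neg, abs_of_pos (by positivity)]
      have h2 : ‖((-(1001 * mu) : ℝ) : ℂ)‖ ≤ ‖y‖ + ‖y - ((-(1001 * mu) : ℝ) : ℂ)‖ := by
        have := norm_sub_le y (y - ((-(1001 * mu) : ℝ) : ℂ))
        rwa [sub_sub_cancel] at this
      linarith
  have hyq : 1 / 160000 ≤ ‖y‖ ^ 2 := by
    have h2 : (996 * mu) ^ 2 < ‖y‖ ^ 2 := by
      apply pow_lt_pow_left₀ hy996 (by positivity) (by norm_num)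
    rw [Pie_mu] at h2
    norm_num at h2 ⊢
    linarith
  have hA1 : 19 / 64 ≤ Ac s := by unfold Ac; linarith [hs1.1]
  have hA2 : Ac s ≤ 21 / 64 := by unfold Ac; linarith [hs1.2]
  have hde : de r (y, s) = Vp r ((Ac s : ℂ) * Wn y) (rr (‖y‖ ^ 2)) := by
    show Vp r (xd y s) (rd y s) = _
    rw [xd_out hyq, rd_out hyq]
  rw [hde]
  fin_cases i
  · simp only [cc, mm, bi, vs, Fin.zero_eta, ↓reduceIte]
    have hcj : cj 1 ((y - ((1000 * mu : ℝ) : ℂ)) / ((-mu : ℝ) : ℂ)) = (y - ((1000 * mu : ℝ) : ℂ)) / ((-mu : ℝ) : ℂ) := by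
      apply Complex.ext <;> simp [cj]
    rw [hcj]
    have hτ : 1 / 2 + 15 / 32 * (-(2 / 5) + 1 * (1 / 30) * s) = Ac s := by unfold Ac; ring
    have hY : (cf (Ac s) : ℂ) - (mu : ℂ) * ((y - ((1000 * mu : ℝ) : ℂ)) / ((-mu : ℝ) : ℂ)) = y := by
      rw [Pie_cf_left (by linarith)]
      push_cast
      field_simp
      ring
    have hbe : be r ((y - ((1000 * mu : ℝ) : ℂ)) / ((-mu : ℝ) : ℂ), -(2 / 5) + 1 * (1 / 30) * s) =
        Vp r ((Ac s : ℂ) * Wn y) (rr (‖y‖ ^ 2)) := by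
      unfold be
      simp only
      rw [hτ, hY, Gx_left (by linarith)]
    rw [hbe]
    exact ⟨0, by simp⟩
  · simp only [cc, mm, bi, vs, Fin.mk_one, Fin.isValue, one_ne_zero, ↓reduceIte]
    have hcj : cj (-1) ((y - ((-(1001 * mu) : ℝ) : ℂ)) / (mu : ℂ)) =
        ((starRingEnd ℂ) y + ((1001 * mu : ℝ) : ℂ)) / (mu : ℂ) := by
      have h1 : ∀ v : ℂ, cj (-1) v = (starRingEnd ℂ) v := fun v => by
        apply Complex.ext <;> simp [cj]
      rw [h1, map_div₀, map_sub, Complex.conj_ofReal, Complex.conj_ofReal]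
      push_cast
      ring
    rw [hcj]
    have hτ : 1 / 2 + 15 / 32 * (2 / 5 + -1 * (1 / 30) * s) = 1 - Ac s := by unfold Ac; ring
    have hY : (cf (1 - Ac s) : ℂ) - (mu : ℂ) * (((starRingEnd ℂ) y + ((1001 * mu : ℝ) : ℂ)) / (mu : ℂ)) =
        -(starRingEnd ℂ) y := by
      rw [Pie_cf_right (by linarith)]
      push_cast
      field_simp
      ring
    have hbe : be r (((starRingEnd ℂ) y + ((1001 * mu : ℝ) : ℂ)) / (mu : ℂ), 2 / 5 + -1 * (1 / 30) * s) =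
        Vp r (1 + (Ac s : ℂ) * Wn y) (rr (‖y‖ ^ 2)) := by
      unfold be
      simp only
      rw [hτ, hY, Gx_right (by linarith), Wn_neg, Wn_conj, norm_neg, RCLike.norm_conj]
      congr 1
      rw [map_neg, Complex.conj_conj]
      push_cast
      ring
    rw [hbe]
    have := Vp_add r (1 + (Ac s : ℂ) * Wn y) (rr (‖y‖ ^ 2)) (-1) 0
    have he : (1 + (Ac s : ℂ) * Wn y) + (((-1 : ℤ) : ℂ) + ((0 : ℤ) : ℂ) * I) = (Ac s : ℂ) * Wn y := by
      push_cast; ring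
    rw [he] at this
    exact this

theorem pie_inter (r : ℕ) (y : ℂ) (s : ℝ) (z : ℂ) (s' : ℝ) (hy : ‖y‖ < 1) (hs : |s| < 1) (hz : ‖z‖ < 4) (hs' : |s'| < 1)
    (h : MT (be r (z, s')) (de r (y, s))) : ∃ i : Fin 2, ‖y - cc i‖ < 4 * mu := by
  have hmu := mu_pos
  have hn : ‖(mu : ℂ)‖ = mu := by rw [Complex.norm_real, Real.norm_eq_abs, abs_of_pos hmu]
  obtain ⟨_, ⟨_, hy1⟩ | ⟨_, hy1⟩⟩ := cross hs.le (by linarith : ‖z‖ < 5) hs' h
  · refine ⟨0, ?_⟩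
    have : y - cc 0 = -((mu : ℂ) * z) := by
      rw [hy1]; simp only [cc, ↓reduceIte]; ring
    rw [this, norm_neg, norm_mul, hn]
    nlinarith
  · refine ⟨1, ?_⟩
    have : y - cc 1 = (mu : ℂ) * (starRingEnd ℂ) z := by
      rw [hy1]; simp only [cc, Fin.isValue, one_ne_zero, ↓reduceIte]; push_cast; ring
    rw [this, norm_mul, hn, RCLike.norm_conj]
    nlinarith

theorem pie_inb (r : ℕ) (y : ℂ) (s : ℝ) (z : ℂ) (s' : ℝ) (hy : ‖y‖ ≤ 1) (hs : |s| ≤ 1) (hz : ‖z‖ < 5) (hs' : |s'| < 1)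
    (h : MT (be r (z, s')) (de r (y, s))) : |s'| < 1 / 2 ∧ ‖y‖ ≤ 1 / 2 := by
  have hs1 := abs_le.1 hs
  have hA1 : 19 / 64 ≤ Ac s := by unfold Ac; linarith [hs1.1]
  have hA2 : Ac s ≤ 21 / 64 := by unfold Ac; linarith [hs1.2]
  obtain ⟨h1, h2⟩ := cross hs hz hs' h
  constructor
  · rw [abs_lt]
    rcases h2 with ⟨h3, _⟩ | ⟨h3, _⟩
    · constructor <;> linarith
    · constructor <;> linarith
  · rw [Pie_mu] at h1
    norm_num at h1
    linarith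

end Pool.Agent.B1X
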