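import Pool.Agent.B1X.GxM
import Pool.Agent.CSG.Radial
import Pool.Agent.CSG.LDb

/-!
# B1X/Rib: the ribbon box   (difficulty 3)

`be r q = Vp r (rg q).1 (rg q).2`, `rg (z, s) = (Gx τ (Wn Y), rr (‖Y‖²))`, `τ = 1/2 + 15/32 s ∈ (1/32, 31/32)`, `Y = cf τ - mu z`,
`995 mu < ‖Y‖ < 1006 mu` (`ribY_gt`, `ribY_lt`; `mu = 1/200000`, so `‖Y‖ < 1/100`), `NW (Wn Y)`.

`rg_lower`: let `Δ = rg q - rg q'`.  `Gx_lower`: `|τ - τ'| + ‖W - W'‖ ≤ 50 ‖Δ.1‖`.  `|‖Y‖² - ‖Y'‖²| = 8 |Δ.2|`, `‖Y‖ + ‖Y'‖ ≥ 1990 mu`, so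
`|‖Y‖ - ‖Y'‖| ≤ 8 |Δ.2| / (1990 mu)`.  `Y = ‖Y‖ W`: `‖Y - Y'‖ ≤ |‖Y‖ - ‖Y'‖| + ‖Y'‖ ‖W - W'‖`.  `mu (z - z') = (cf τ - cf τ') - (Y - Y')`,
`|cf τ - cf τ'| ≤ |τ - τ'|` (`cf_lip`).  `s - s' = 32/15 (τ - τ')`.  So `‖q - q'‖ ≤ C ‖Δ‖` with a constant `C` (e.g. `C = 10 ^ 12`).

* `rg_smooth`: at the points with `Y ≠ 0` (`Wn Y = Y / ‖Y‖`, `contDiffAt_norm`; `‖Y‖²` is smooth everywhere).
* `rib_hbox.loc`: `rg` is a local diffeomorphism at `(z, s)` by `CSG.ld_of_fderiv` and `CSG.fderiv_inj_of_lower`; compose with `Vp_ld`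
  (`IsLocalDiffeomorphAt.comp`).  `rr > 0`.
* `rib_hbox.inj`: `Vp_inj`, `Gx_lat`, `rg_lower` (`rg q = rg q'` implies `q = q'`).
* `rib_hbox.inn`: `Vp_norm`, `rr (‖Y‖²) < 1`.
-/

open scoped Manifold ContDiff Topology
open Set Filter
open Complex (I)

namespace Pool.Agent.B1X

open Pool.Agent.SPR (MT HBox)

/-- the ribbon in the coordinates `(x, ρ)` -/
noncomputable def rg (q : ℂ × ℝ) : ℂ × ℝ :=
  (Gx (1 / 2 + 15 / 32 * q.2) (Wn ((cf (1 / 2 + 15 / 32 * q.2) : ℂ) - (mu : ℂ) * q.1)),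
    rr (‖(cf (1 / 2 + 15 / 32 * q.2) : ℂ) - (mu : ℂ) * q.1‖ ^ 2))

/-- the parameter `τ` -/
theorem Rib_tau {s : ℝ} (hs : |s| < 1) : 1 / 32 < 1 / 2 + 15 / 32 * s ∧ 1 / 2 + 15 / 32 * s < 31 / 32 := by
  obtain ⟨h1, h2⟩ := abs_lt.1 hs
  constructor <;> linarith

theorem Rib_gt (τ : ℝ) {z : ℂ} (hz : ‖z‖ < 5) : 995 * mu < ‖(cf τ : ℂ) - (mu : ℂ) * z‖ := ribY_gt (cf_ge τ) hz

theorem Rib_lt (τ : ℝ) {z : ℂ} (hz : ‖z‖ < 5) : ‖(cf τ : ℂ) - (mu : ℂ) * z‖ < 1006 * mu :=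
  ribY_lt (by have := cf_ge τ; have := mu_pos; linarith) (cf_le τ) hz

theorem Rib_ne (τ : ℝ) {z : ℂ} (hz : ‖z‖ < 5) : (cf τ : ℂ) - (mu : ℂ) * z ≠ 0 := by
  intro h
  have h1 := Rib_gt τ hz
  rw [h, norm_zero] at h1
  have := mu_pos
  linarith

theorem Rib_Wn {Y : ℂ} (h : Y ≠ 0) : ContDiffAt ℝ ∞ Wn Y := by
  have hn : (‖Y‖ : ℂ) ≠ 0 := Complex.ofReal_ne_zero.2 (norm_ne_zero_iff.2 h)
  have h2 : ContDiffAt ℝ ∞ (fun w : ℂ => (‖w‖ : ℂ)) Y :=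
    Complex.ofRealCLM.contDiff.contDiffAt.comp Y (contDiffAt_id.norm ℝ h)
  exact contDiffAt_id.mul (h2.inv hn)

theorem Rib_tau_s : ContDiff ℝ ∞ fun q : ℂ × ℝ => 1 / 2 + 15 / 32 * q.2 :=
  contDiff_const.add (contDiff_const.mul contDiff_snd)

/-- the function `Y` -/
noncomputable def Rib_Y (q : ℂ × ℝ) : ℂ := (cf (1 / 2 + 15 / 32 * q.2) : ℂ) - (mu : ℂ) * q.1

theorem Rib_Y_s : ContDiff ℝ ∞ Rib_Y :=
  (Complex.ofRealCLM.contDiff.comp (cf_smooth.comp Rib_tau_s)).sub (contDiff_const.mul contDiff_fst)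

theorem Rib_W_s {q : ℂ × ℝ} (h : ‖q.1‖ < 5) : ContDiffAt ℝ ∞ (Wn ∘ Rib_Y) q :=
  ContDiffAt.comp q (Rib_Wn (Y := Rib_Y q) (Rib_ne _ h)) Rib_Y_s.contDiffAt

theorem Rib_r_s : ContDiff ℝ ∞ (fun q : ℂ × ℝ => rr (‖Rib_Y q‖ ^ 2)) := by
  have h1 : ContDiff ℝ ∞ (fun q : ℂ × ℝ => ‖Rib_Y q‖ ^ 2) := (contDiff_norm_sq ℝ).comp Rib_Y_s
  unfold rr
  exact contDiff_const.add (h1.div_const 8)

theorem rg_smooth {z : ℂ} {s : ℝ} (hz : ‖z‖ < 5) : ContDiffAt ℝ ∞ rg (z, s) := by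
  have h0 : ContDiffAt ℝ ∞ (fun q : ℂ × ℝ => (1 / 2 + 15 / 32 * q.2, (Wn ∘ Rib_Y) q)) (z, s) :=
    Rib_tau_s.contDiffAt.prodMk (Rib_W_s (q := (z, s)) hz)
  have h1 : ContDiffAt ℝ ∞ ((fun q : ℝ × ℂ => Gx q.1 q.2) ∘
      (fun q : ℂ × ℝ => (1 / 2 + 15 / 32 * q.2, (Wn ∘ Rib_Y) q))) (z, s) :=
    ContDiffAt.comp (z, s) (Gx_smooth.contDiffAt) h0
  have h2 := h1.prodMk (Rib_r_s.contDiffAt (x := (z, s)))
  have e : rg = fun q : ℂ × ℝ => (((fun q : ℝ × ℂ => Gx q.1 q.2) ∘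
      (fun q : ℂ × ℝ => (1 / 2 + 15 / 32 * q.2, (Wn ∘ Rib_Y) q))) q, rr (‖Rib_Y q‖ ^ 2)) := by
    funext q
    rfl
  rw [e]
  exact h2

theorem Rib_low (z : ℂ) (s : ℝ) (z' : ℂ) (s' : ℝ) (hz : ‖z‖ < 5) (hs : |s| < 1) (hz' : ‖z'‖ < 5) (hs' : |s'| < 1) :
    ‖(z, s) - (z', s')‖ ≤ 200000000 * ‖rg (z, s) - rg (z', s')‖ := by
  obtain ⟨t1, t2⟩ := Rib_tau hs
  obtain ⟨t3, t4⟩ := Rib_tau hs'
  obtain ⟨τ, hτ⟩ : ∃ τ, τ = 1 / 2 + 15 / 32 * s := ⟨_, rfl⟩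
  obtain ⟨τ', hτ'⟩ : ∃ τ', τ' = 1 / 2 + 15 / 32 * s' := ⟨_, rfl⟩
  obtain ⟨Y, hY⟩ : ∃ Y : ℂ, Y = (cf τ : ℂ) - (mu : ℂ) * z := ⟨_, rfl⟩
  obtain ⟨Y', hY'⟩ : ∃ Y' : ℂ, Y' = (cf τ' : ℂ) - (mu : ℂ) * z' := ⟨_, rfl⟩
  have r1 : rg (z, s) = (Gx τ (Wn Y), rr (‖Y‖ ^ 2)) := by
    rw [hY, hτ]
    rfl
  have r2 : rg (z', s') = (Gx τ' (Wn Y'), rr (‖Y'‖ ^ 2)) := by
    rw [hY', hτ']
    rfl
  rw [← hτ] at t1 t2
  rw [← hτ'] at t3 t4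
  have w1 : NW (Wn Y) := by
    rw [hY]
    exact nw_Wn (cf_ge τ) hz
  have w2 : NW (Wn Y') := by
    rw [hY']
    exact nw_Wn (cf_ge τ') hz'
  have n1 : 995 * mu < ‖Y‖ := by
    rw [hY]
    exact Rib_gt τ hz
  have n2 : 995 * mu < ‖Y'‖ := by
    rw [hY']
    exact Rib_gt τ' hz'
  have n3 : ‖Y'‖ < 1006 * mu := by
    rw [hY']
    exact Rib_lt τ' hz'
  have hmu : mu = 1 / 200000 := rfl
  obtain ⟨D, hD⟩ : ∃ D, D = ‖rg (z, s) - rg (z', s')‖ := ⟨_, rfl⟩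
  rw [← hD]
  have d1 : ‖Gx τ (Wn Y) - Gx τ' (Wn Y')‖ ≤ D := by
    rw [hD, r1, r2]
    exact norm_fst_le ((Gx τ (Wn Y), rr (‖Y‖ ^ 2)) - (Gx τ' (Wn Y'), rr (‖Y'‖ ^ 2)))
  have d2 : |rr (‖Y‖ ^ 2) - rr (‖Y'‖ ^ 2)| ≤ D := by
    rw [hD, r1, r2]
    exact norm_snd_le ((Gx τ (Wn Y), rr (‖Y‖ ^ 2)) - (Gx τ' (Wn Y'), rr (‖Y'‖ ^ 2)))
  have g1 := Gx_lower w1 w2 t1 t2 t3 t4
  have D0 : 0 ≤ D := by
    rw [hD]
    exact norm_nonneg _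
  -- the norms
  have m1 : |‖Y‖ - ‖Y'‖| ≤ 805 * D := by
    have e1 : rr (‖Y‖ ^ 2) - rr (‖Y'‖ ^ 2) = (‖Y‖ - ‖Y'‖) * (‖Y‖ + ‖Y'‖) / 8 := by
      unfold rr
      ring
    rw [e1, abs_div, abs_mul, abs_of_pos (show (0 : ℝ) < 8 by norm_num)] at d2
    have e2 : 0 < ‖Y‖ + ‖Y'‖ := by
      rw [hmu] at n1 n2
      linarith
    rw [abs_of_pos e2, div_le_iff₀ (by norm_num)] at d2
    have e3 : 1990 / 200000 ≤ ‖Y‖ + ‖Y'‖ := by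
      rw [hmu] at n1 n2
      linarith
    have e4 : |‖Y‖ - ‖Y'‖| * (1990 / 200000) ≤ D * 8 :=
      le_trans (mul_le_mul_of_nonneg_left e3 (abs_nonneg _)) d2
    linarith
  have m2 : ‖Y - Y'‖ ≤ 855 * D := by
    have e1 : Y - Y' = ((‖Y‖ - ‖Y'‖ : ℝ) : ℂ) * Wn Y + (‖Y'‖ : ℂ) * (Wn Y - Wn Y') := by
      have a1 := Wn_mul Y
      have a2 := Wn_mul Y'
      push_cast
      linear_combination -a1 + a2
    have e2 : ‖((‖Y‖ - ‖Y'‖ : ℝ) : ℂ) * Wn Y‖ = |‖Y‖ - ‖Y'‖| := by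
      rw [norm_mul, w1.1, mul_one, Complex.norm_real, Real.norm_eq_abs]
    have e3 : ‖(‖Y'‖ : ℂ) * (Wn Y - Wn Y')‖ ≤ ‖Wn Y - Wn Y'‖ := by
      rw [norm_mul, Complex.norm_real, norm_norm]
      have : ‖Y'‖ ≤ 1 := by
        rw [hmu] at n3
        linarith
      nlinarith [norm_nonneg (Wn Y - Wn Y')]
    rw [e1]
    refine le_trans (norm_add_le _ _) ?_
    rw [e2]
    have := abs_nonneg (τ - τ')
    linarith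
  have m3 : ‖z - z'‖ ≤ 200000000 * D := by
    have e1 : (mu : ℂ) * (z - z') = ((cf τ - cf τ' : ℝ) : ℂ) - (Y - Y') := by
      rw [hY, hY']
      push_cast
      ring
    have e2 := congrArg norm e1
    rw [norm_mul, Complex.norm_real, Real.norm_of_nonneg mu_pos.le] at e2
    have e3 := norm_sub_le ((cf τ - cf τ' : ℝ) : ℂ) (Y - Y')
    rw [← e2, Complex.norm_real, Real.norm_eq_abs] at e3
    have e4 := cf_lip τ τ'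
    have e5 := norm_nonneg (Wn Y - Wn Y')
    rw [hmu] at e3
    linarith
  have m4 : |s - s'| ≤ 200000000 * D := by
    have e1 : τ - τ' = 15 / 32 * (s - s') := by
      rw [hτ, hτ']
      ring
    have e2 : |τ - τ'| = 15 / 32 * |s - s'| := by
      rw [e1, abs_mul, abs_of_pos (show (0 : ℝ) < 15 / 32 by norm_num)]
    have e5 := norm_nonneg (Wn Y - Wn Y')
    linarith
  rw [Prod.norm_def]
  exact max_le m3 m4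

theorem rg_lower : ∃ c : ℝ, 0 < c ∧ ∀ (z : ℂ) (s : ℝ) (z' : ℂ) (s' : ℝ), ‖z‖ < 5 → |s| < 1 → ‖z'‖ < 5 → |s'| < 1 →
    c * ‖(z, s) - (z', s')‖ ≤ ‖rg (z, s) - rg (z', s')‖ := by
  refine ⟨1 / 200000000, by norm_num, fun z s z' s' hz hs hz' hs' => ?_⟩
  have := Rib_low z s z' s' hz hs hz' hs'
  linarith

theorem Rib_rr {z : ℂ} {s : ℝ} (hz : ‖z‖ < 5) : 0 < (rg (z, s)).2 ∧ (rg (z, s)).2 < 1 := by
  have h1 := Rib_lt (1 / 2 + 15 / 32 * s) hz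
  have h0 := norm_nonneg ((cf (1 / 2 + 15 / 32 * s) : ℂ) - (mu : ℂ) * z)
  have hmu : mu = 1 / 200000 := rfl
  have h2 : (rg (z, s)).2 = 1 / 2 + ‖(cf (1 / 2 + 15 / 32 * s) : ℂ) - (mu : ℂ) * z‖ ^ 2 / 8 := rfl
  have h3 : ‖(cf (1 / 2 + 15 / 32 * s) : ℂ) - (mu : ℂ) * z‖ ≤ 1 := by
    rw [hmu] at h1
    rw [hmu]
    linarith
  rw [h2]
  constructor
  · positivity
  · nlinarith

theorem rib_hbox (r : ℕ) : HBox (be r) 5 1 := by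
  obtain ⟨c, hc, hlow⟩ := rg_lower
  refine ⟨?_, ?_, ?_⟩
  · intro z s hz hs
    have h1 : IsLocalDiffeomorphAt 𝓘(ℝ, ℂ × ℝ) 𝓘(ℝ, ℂ × ℝ) ∞ rg (z, s) := by
      have ev : ∀ᶠ y : ℂ × ℝ in 𝓝 (z, s), ‖y.1‖ < 5 ∧ |y.2| < 1 := by
        have a1 : ∀ᶠ y : ℂ × ℝ in 𝓝 (z, s), ‖y.1‖ < 5 :=
          (continuous_fst.norm).continuousAt.eventually_lt continuousAt_const hz
        have a2 : ∀ᶠ y : ℂ × ℝ in 𝓝 (z, s), |y.2| < 1 :=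
          (continuous_snd.abs).continuousAt.eventually_lt continuousAt_const hs
        exact a1.and a2
      refine CSG.ld_of_fderiv ?_ rfl ?_
      · filter_upwards [ev] with y hy
        exact rg_smooth (z := y.1) (s := y.2) hy.1
      · refine CSG.fderiv_inj_of_lower ((rg_smooth hz).differentiableAt (by simp)) hc ?_
        filter_upwards [ev] with y hy
        exact hlow y.1 y.2 z s hy.1 hy.2 hz hs
    exact IsLocalDiffeomorphAt.comp (hf := h1) (hg := Vp_ld r (rg (z, s)).1 (Rib_rr hz).1)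
  · intro z s z' s' hz hs hz' hs' hm
    have hm' : MT (Vp r (rg (z, s)).1 (rg (z, s)).2) (Vp r (rg (z', s')).1 (rg (z', s')).2) := hm
    obtain ⟨e1, m, n, e2⟩ := Vp_inj (Rib_rr hz).1 (Rib_rr hz').1 hm'
    obtain ⟨t1, t2⟩ := Rib_tau hs
    obtain ⟨t3, t4⟩ := Rib_tau hs'
    obtain ⟨hm0, hn0⟩ := Gx_lat (nw_Wn (cf_ge _) hz) (nw_Wn (cf_ge _) hz') t1 t2 t3 t4 e2
    have e3 : rg (z', s') = rg (z, s) := by
      refine Prod.ext ?_ e1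
      rw [e2, hm0, hn0]
      simp
    have e4 := hlow z s z' s' hz hs hz' hs'
    rw [e3, sub_self, norm_zero] at e4
    have e5 : ‖(z, s) - (z', s')‖ = 0 := by
      have := norm_nonneg ((z, s) - (z', s'))
      nlinarith
    rw [norm_eq_zero, sub_eq_zero, Prod.mk.injEq] at e5
    exact e5
  · intro z s hz hs
    have e := Vp_norm r (rg (z, s)).1 (Rib_rr (s := s) hz).1.le
    have e' : ‖(be r (z, s)).1‖ = (rg (z, s)).2 := e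
    rw [e']
    exact (Rib_rr hz).2

end Pool.Agent.B1X
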