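import Pool.Agent.B1X.FnA

/-!
# B1X/Rot: rotations about the lattice points   (difficulty 2)

`nl x` is the nearest lattice point (coordinates rounded), `rotl h x = nl x + ex (h ‖x - nl x‖) (x - nl x)`.
* `nl_near`: `|re (x - m)| < 1/2` implies `round x.re = m` (`round_eq`, or `abs_sub_round`); `nl_add`: `round_add_intCast`.
* `rotl_add`: `nl_add`.  `rotl_near`: `nl_near`.  `rotl_fix`: `ex (h ..) = 1`.
* `rotl_comp`: if `t = ‖x - nl x‖ ≥ 3/8` then both are the identity (`ex` of an integer is `1`); otherwise `x' = rotl h' x` has `‖x' - nl x‖ = t < 1/2`, so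
  `nl x' = nl x`, and `ex (h t) ex (h' t) = ex (h t + h' t)`.
* `rotl_smooth`: at `(x₀, ρ₀)`: if `‖x₀ - nl x₀‖ < 1/2` then near `x₀` `nl x = nl x₀ =: m` (`nl_near`), and `rotl (H ρ) x = m + ex (H ρ ‖x - m‖) (x - m)`, smooth
  if `x₀ ≠ m` (`contDiffAt_norm`), and near `x₀ = m` it is `m + ex (H ρ 0) (x - m)` (`h0`).  If `‖x₀ - nl x₀‖ ≥ 1/2`: for `‖x - x₀‖ < 1/16` we have
  `‖x - nl x‖ ≥ 3/8` (otherwise `‖x₀ - nl x‖ < 7/16`, so `nl x₀ = nl x`, contradiction), so `rotl (H ρ) x = x` by `h1`.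
* `rotE`: the permutation with inverse `rotl (-h)` (`rotl_comp`, `rotl_fix`).
* `hA_*`, `hB_*`: `gs s = stp (-1/8) (1/16) s` is `0` for `s ≤ -1/8` and `1` for `s ≥ 1/16`.
-/

open scoped Manifold ContDiff Topology
open Set Filter
open Complex (I)
open Pool.Agent.RSG (ex)

namespace Pool.Agent.B1X

open Pool.Agent.RBM (gs)

theorem nl_int (x : ℂ) : ∃ m n : ℤ, nl x = m + n * I := by
  refine ⟨round x.re, round x.im, ?_⟩
  apply Complex.ext <;> simp [nl]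

theorem Rot_round {x : ℝ} {m : ℤ} (h : |x - m| < 1 / 2) : round x = m := by
  rw [round_eq, Int.floor_eq_iff]
  rw [abs_lt] at h
  constructor <;> linarith [h.1, h.2]

theorem nl_near {x : ℂ} {m n : ℤ} (h : ‖x - (m + n * I)‖ < 1 / 2) : nl x = m + n * I := by
  have h1 : |x.re - m| < 1 / 2 := by
    refine lt_of_le_of_lt ?_ h
    have := Complex.abs_re_le_norm (x - (m + n * I))
    simpa using this
  have h2 : |x.im - n| < 1 / 2 := by
    refine lt_of_le_of_lt ?_ h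
    have := Complex.abs_im_le_norm (x - (m + n * I))
    simpa using this
  unfold nl
  rw [Rot_round h1, Rot_round h2]
  apply Complex.ext <;> simp

theorem nl_add (x : ℂ) (m n : ℤ) : nl (x + (m + n * I)) = nl x + (m + n * I) := by
  have h1 : (x + (m + n * I)).re = x.re + m := by simp
  have h2 : (x + (m + n * I)).im = x.im + n := by simp
  unfold nl
  rw [h1, h2, round_add_intCast, round_add_intCast]
  apply Complex.ext <;> simp

theorem rotl_add (h : ℝ → ℝ) (x : ℂ) (m n : ℤ) : rotl h (x + (m + n * I)) = rotl h x + (m + n * I) := by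
  unfold rotl
  rw [nl_add, show x + (m + n * I) - (nl x + (m + n * I)) = x - nl x by ring]
  ring

theorem rotl_near (h : ℝ → ℝ) {x : ℂ} {m n : ℤ} (hx : ‖x - (m + n * I)‖ < 1 / 2) :
    rotl h x = (m + n * I) + ex (h ‖x - (m + n * I)‖) * (x - (m + n * I)) := by
  unfold rotl
  rw [nl_near hx]

theorem rotl_fix {h : ℝ → ℝ} {x : ℂ} (hx : ∃ k : ℤ, h ‖x - nl x‖ = k) : rotl h x = x := by
  obtain ⟨k, hk⟩ := hx
  unfold rotl
  rw [hk, Pool.Agent.RSG.ex_int]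
  ring

theorem rotl_comp {h h' : ℝ → ℝ} (hh : ∀ t, 3 / 8 ≤ t → ∃ k : ℤ, h t = k) (hh' : ∀ t, 3 / 8 ≤ t → ∃ k : ℤ, h' t = k) (x : ℂ) :
    rotl h (rotl h' x) = rotl (fun t => h t + h' t) x := by
  by_cases ht : 3 / 8 ≤ ‖x - nl x‖
  · rw [rotl_fix (hh' _ ht), rotl_fix (hh _ ht)]
    symm
    apply rotl_fix
    obtain ⟨a, ha⟩ := hh _ ht
    obtain ⟨b, hb⟩ := hh' _ ht
    refine ⟨a + b, ?_⟩
    simp only [ha, hb]
    push_cast
    ring
  · rw [not_le] at ht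
    obtain ⟨m, n, hmn⟩ := nl_int x
    have h1 : rotl h' x = (m + n * I) + ex (h' ‖x - (m + n * I)‖) * (x - (m + n * I)) := by
      unfold rotl
      rw [hmn]
    have h2 : ‖rotl h' x - (m + n * I)‖ = ‖x - (m + n * I)‖ := by
      rw [h1, add_sub_cancel_left, norm_mul, Pool.Agent.RSG.ex_norm, one_mul]
    have h3 : ‖rotl h' x - (m + n * I)‖ < 1 / 2 := by
      rw [h2, ← hmn]
      linarith
    rw [rotl_near h h3, h2, h1]
    unfold rotl
    rw [hmn, Pool.Agent.RSG.ex_add]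
    ring

theorem rotl_smooth {H : ℝ → ℝ → ℝ} (hH : ContDiff ℝ ∞ fun q : ℝ × ℝ => H q.1 q.2) (h0 : ∀ ρ t, t ≤ 1 / 4 → H ρ t = H ρ 0)
    (h1 : ∀ ρ t, 3 / 8 ≤ t → ∃ k : ℤ, H ρ t = k) : ContDiff ℝ ∞ fun q : ℂ × ℝ => rotl (H q.2) q.1 := by
  rw [contDiff_iff_contDiffAt]
  rintro ⟨x0, ρ0⟩
  by_cases hx : ‖x0 - nl x0‖ < 1 / 2
  · obtain ⟨m, n, hmn⟩ := nl_int x0
    rw [hmn] at hx
    have hnear : ∀ᶠ q : ℂ × ℝ in 𝓝 (x0, ρ0), ‖q.1 - (m + n * I)‖ < 1 / 2 := by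
      have hc : Continuous fun q : ℂ × ℝ => ‖q.1 - (m + n * I)‖ := by fun_prop
      exact hc.continuousAt.eventually (gt_mem_nhds hx)
    have heq : (fun q : ℂ × ℝ => rotl (H q.2) q.1) =ᶠ[𝓝 (x0, ρ0)]
        fun q => (m + n * I) + ex (H q.2 ‖q.1 - (m + n * I)‖) * (q.1 - (m + n * I)) := by
      filter_upwards [hnear] with q hq
      exact rotl_near _ hq
    by_cases hx0 : x0 = m + n * I
    · have hnear2 : ∀ᶠ q : ℂ × ℝ in 𝓝 (x0, ρ0), ‖q.1 - (m + n * I)‖ < 1 / 4 := by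
        have hc : Continuous fun q : ℂ × ℝ => ‖q.1 - (m + n * I)‖ := by fun_prop
        refine hc.continuousAt.eventually (gt_mem_nhds ?_)
        simp [hx0]
      have heq2 : (fun q : ℂ × ℝ => rotl (H q.2) q.1) =ᶠ[𝓝 (x0, ρ0)]
          fun q => (m + n * I) + ex (H q.2 0) * (q.1 - (m + n * I)) := by
        filter_upwards [heq, hnear2] with q hq hq2
        rw [hq, h0 _ _ hq2.le]
      refine ContDiffAt.congr_of_eventuallyEq ?_ heq2
      have hH0 : ContDiff ℝ ∞ fun q : ℂ × ℝ => H q.2 0 :=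
        hH.comp (contDiff_snd.prodMk contDiff_const)
      have h2 : ContDiff ℝ ∞ fun q : ℂ × ℝ => ex (H q.2 0) := Pool.Agent.RSG.ex_smooth.comp hH0
      exact (contDiff_const.add (h2.mul (contDiff_fst.sub contDiff_const))).contDiffAt
    · refine ContDiffAt.congr_of_eventuallyEq ?_ heq
      have hn : ContDiffAt ℝ ∞ (fun q : ℂ × ℝ => ‖q.1 - (m + n * I)‖) (x0, ρ0) := by
        have h3 : ContDiffAt ℝ ∞ (fun q : ℂ × ℝ => q.1 - (m + n * I)) (x0, ρ0) :=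
          (contDiff_fst.sub contDiff_const).contDiffAt
        exact h3.norm ℝ (sub_ne_zero.2 hx0)
      have h4 : ContDiffAt ℝ ∞ (fun q : ℂ × ℝ => H q.2 ‖q.1 - (m + n * I)‖) (x0, ρ0) :=
        ContDiffAt.comp (x0, ρ0) (g := fun q : ℝ × ℝ => H q.1 q.2)
          (f := fun q : ℂ × ℝ => (q.2, ‖q.1 - (m + n * I)‖)) hH.contDiffAt
          (contDiff_snd.contDiffAt.prodMk hn)
      have h5 : ContDiffAt ℝ ∞ (fun q : ℂ × ℝ => ex (H q.2 ‖q.1 - (m + n * I)‖)) (x0, ρ0) :=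
        ContDiffAt.comp (x0, ρ0) (g := ex) (f := fun q : ℂ × ℝ => H q.2 ‖q.1 - (m + n * I)‖)
          Pool.Agent.RSG.ex_smooth.contDiffAt h4
      exact contDiffAt_const.add (h5.mul (contDiff_fst.sub contDiff_const).contDiffAt)
  · have hnear : ∀ᶠ q : ℂ × ℝ in 𝓝 (x0, ρ0), ‖q.1 - x0‖ < 1 / 16 := by
      have hc : Continuous fun q : ℂ × ℝ => ‖q.1 - x0‖ := by fun_prop
      refine hc.continuousAt.eventually (gt_mem_nhds ?_)
      simp
    have heq : (fun q : ℂ × ℝ => rotl (H q.2) q.1) =ᶠ[𝓝 (x0, ρ0)] fun q => q.1 := by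
      filter_upwards [hnear] with q hq
      apply rotl_fix
      apply h1
      by_contra hc
      rw [not_le] at hc
      apply hx
      obtain ⟨m, n, hmn⟩ := nl_int q.1
      rw [hmn] at hc
      have h2 : ‖x0 - (m + n * I)‖ < 1 / 2 := by
        have h3 : x0 - (m + n * I) = (q.1 - (m + n * I)) - (q.1 - x0) := by ring
        rw [h3]
        refine lt_of_le_of_lt (norm_sub_le _ _) ?_
        linarith
      rw [nl_near h2]
      exact h2
    exact contDiff_fst.contDiffAt.congr_of_eventuallyEq heq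

/-- as a permutation -/
noncomputable def rotE (h : ℝ → ℝ) (hh : ∀ t, 3 / 8 ≤ t → ∃ k : ℤ, h t = k) : Equiv.Perm ℂ where
  toFun := rotl h
  invFun := rotl fun t => -h t
  left_inv := by
    intro x
    rw [rotl_comp (fun t ht => by
      obtain ⟨k, hk⟩ := hh t ht
      exact ⟨-k, by rw [hk]; push_cast; ring⟩) hh]
    apply rotl_fix
    exact ⟨0, by simp⟩
  right_inv := by
    intro x
    rw [rotl_comp hh (fun t ht => by
      obtain ⟨k, hk⟩ := hh t ht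
      exact ⟨-k, by rw [hk]; push_cast; ring⟩)]
    apply rotl_fix
    exact ⟨0, by simp⟩

theorem rotE_apply (h : ℝ → ℝ) (hh : ∀ t, 3 / 8 ≤ t → ∃ k : ℤ, h t = k) (x : ℂ) : rotE h hh x = rotl h x := rfl

/-- the rotation of the full twist -/
noncomputable def hA (o t : ℝ) : ℝ := o * gs ((t - 5 / 16) * 64)

/-- the rotation of the inner discs, by `o nuf ρ` turns -/
noncomputable def hB (o ρ t : ℝ) : ℝ := o * (1 - gs ((t - 5 / 16) * 64)) * nuf ρ

theorem Rot_gs_smooth : ContDiff ℝ ∞ gs := Pool.Agent.CSG.stp_smooth _ _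

theorem Rot_gs_zero {s : ℝ} (h : s ≤ -(1 / 8)) : gs s = 0 := Pool.Agent.CSG.stp_zero (by norm_num) h

theorem Rot_gs_one {s : ℝ} (h : 1 / 16 ≤ s) : gs s = 1 := Pool.Agent.CSG.stp_one (by norm_num) h

theorem hA_smooth (o : ℝ) : ContDiff ℝ ∞ (hA o) := by
  unfold hA
  have : ContDiff ℝ ∞ fun t : ℝ => gs ((t - 5 / 16) * 64) := Rot_gs_smooth.comp (by fun_prop)
  exact contDiff_const.mul this
theorem hA_in (o : ℝ) {t : ℝ} (h : t ≤ 5 / 16 - 1 / 512) : hA o t = 0 := by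
  unfold hA
  rw [Rot_gs_zero (by linarith), mul_zero]
theorem hA_out (o : ℝ) {t : ℝ} (h : 5 / 16 + 1 / 1024 ≤ t) : hA o t = o := by
  unfold hA
  rw [Rot_gs_one (by linarith), mul_one]
theorem hB_smooth (o : ℝ) : ContDiff ℝ ∞ fun q : ℝ × ℝ => hB o q.1 q.2 := by
  unfold hB
  have h1 : ContDiff ℝ ∞ fun q : ℝ × ℝ => gs ((q.2 - 5 / 16) * 64) := Rot_gs_smooth.comp (by fun_prop)
  have h2 : ContDiff ℝ ∞ fun q : ℝ × ℝ => nuf q.1 := nuf_smooth.comp contDiff_fst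
  exact (contDiff_const.mul (contDiff_const.sub h1)).mul h2
theorem hB_in (o ρ : ℝ) {t : ℝ} (h : t ≤ 5 / 16 - 1 / 512) : hB o ρ t = o * nuf ρ := by
  unfold hB
  rw [Rot_gs_zero (by linarith), sub_zero, mul_one]
theorem hB_out (o ρ : ℝ) {t : ℝ} (h : 5 / 16 + 1 / 1024 ≤ t) : hB o ρ t = 0 := by
  unfold hB
  rw [Rot_gs_one (by linarith)]
  ring
theorem hB_zero (o : ℝ) {ρ : ℝ} (h : ρ ≤ 1 / 8 ∨ 7 / 8 ≤ ρ) (t : ℝ) : hB o ρ t = 0 := by
  unfold hB
  rw [nuf_out h, mul_zero]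
theorem hB_add (o : ℝ) {ρ : ℝ} (h : 1 / 4 ≤ ρ) (h' : ρ ≤ 13 / 16) (t : ℝ) : hB o ρ t + hA o t = o := by
  unfold hB hA
  rw [nuf_mid h, nus_left h']
  ring

end Pool.Agent.B1X
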