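import Pool.Agent.B1X.Off
import Pool.Agent.B1X.Rot

/-!
# B1X/TrA: the arc after the full twist of the capsule   (difficulty 3)

`g2 r tl o l`: for `σ = 4 l < 3/4` the point `x` is rotated by `hA o`, the rest is unchanged.
`g2_eq`: for `79/128 ≤ σ` (and for `σ ≤ 17/128`), `g2 = gT` : `‖xT - k‖ ≤ 1/32` (`K2`, `K4`), `rotl_near`, `hA_in`.
`g2_smooth`: near `σ < 3/4` it is `Vp r (rotl (hA o) (xT σ)) (rT σ)` (`rotl_smooth` with `H ρ = hA o`, `hA_in`, `hA_out`, `Vp_smooth`), near `σ > 79/128` it is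
`gT` (`gT_smooth`; there `g2_eq` for `σ < 13/16`, by definition for `σ ≥ 3/4`).

`trA : IsRtArc (de r) o (gT r tl) (g2 r tl o)`, `σ = 4 l`:
(1) let `MT (de r (y, s)) (gT r tl l)`, `‖y‖ < 1`, `|s| < 1/8`.  `off_main`: `17/128 < σ < 79/128`, `‖y‖ = nf σ`, `‖y‖² ≥ 1/160000`, `xT = xd y s + (m + n i)`,
`xd y s = Ac s Wn y` (`xd_out`), `‖xd‖ = Ac s < 1/2`, `rd y s = rr (‖y‖²) = rT σ` (`rd_out`, `rT_mid`).  `Ro (o gs s) y = ex (o gs s) y` since `‖y‖² < 9/16` (`nf_le`);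
so `de r (Ro .. y, s) = Vp r (ex (o gs s) xd) (rd)` (same norm; `Wn (ex t * y) = ex t * Wn y`).  `rotl_near`: `rotl (hA o) xT = (m + n i) + ex (hA o (Ac s)) xd` and
`hA o (Ac s) = o gs s` (`(Ac s - 5/16) 64 = s`).  `Vp_add`.
(2) suppose there is no such `(y, s)`; show `g2 r tl o l = gT r tl l`.  If `σ ≥ 3/4`, `σ ≤ 17/128` or `79/128 ≤ σ`: `g2_eq`.  Otherwise `K3`:
`xT = 4 σ - 1/2 + i Vf`; let `t = ‖xT - nl xT‖`.  If `t ≤ 5/16 - 1/512` or `t ≥ 5/16 + 1/1024`: `hA o t = 0` or `o`, an integer, so `rotl_fix`.  Otherwise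
`s := 64 (t - 5/16)` has `|s| < 1/8`, `Ac s = t`; let `w = xT - nl xT`, `y := nf σ w/‖w‖`: `‖y‖ = nf σ < 1`, `‖y‖² ≥ 1/160000` (`nf_ge`), `xd y s = t w/‖w‖ = w`,
`rd y s = rr (nf²) = rT σ`, so `de r (y, s) = Vp r w (rT σ)` and `MT (de r (y, s)) (gT r tl l)` by `Vp_add` (`nl_int`), contradiction.
-/

open scoped Manifold ContDiff Topology
open Set Filter
open Complex (I)
open Pool.Agent.RSG (ex)

namespace Pool.Agent.B1X

open Pool.Agent.SPR (MT IsRtArc)

noncomputable def g2 (r : ℕ) (tl : ℝ → ℝ × ℝ) (o l : ℝ) : ℂ × ℝ :=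
  if 4 * l < 3 / 4 then Vp r (rotl (hA o) (xT r tl (4 * l))) (rT (4 * l)) else gT r tl l

theorem TrA_fix {o : ℝ} {x : ℂ} {m n : ℤ} (h : ‖x - (m + n * I)‖ ≤ 1 / 32) : rotl (hA o) x = x := by
  apply rotl_fix
  rw [nl_near (lt_of_le_of_lt h (by norm_num))]
  exact ⟨0, by rw [hA_in o (h.trans (by norm_num))]; simp⟩

theorem TrA_int {o : ℝ} (ho : o = 1 ∨ o = -1) : ∃ k : ℤ, o = k := by
  rcases ho with h | h
  · exact ⟨1, by rw [h]; simp⟩
  · exact ⟨-1, by rw [h]; simp⟩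

theorem g2_eq {r : ℕ} (hr : 1 ≤ r) {tl : ℝ → ℝ × ℝ} (ht : Tail r tl) {o : ℝ} (ho : o = 1 ∨ o = -1) {l : ℝ}
    (h : 4 * l ≤ 17 / 128 ∨ 79 / 128 ≤ 4 * l) : g2 r tl o l = gT r tl l := by
  unfold g2 gT
  split_ifs with h3
  · have : rotl (hA o) (xT r tl (4 * l)) = xT r tl (4 * l) := by
      rcases h with h | h
      · apply TrA_fix (m := 0) (n := 0)
        simpa using K2 hr ht h
      · apply TrA_fix (m := 2) (n := 0)
        simpa using K4 hr ht h (by linarith)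
    rw [this]
  · rfl

theorem g2_smooth {r : ℕ} (hr : 1 ≤ r) {tl : ℝ → ℝ × ℝ} (ht : Tail r tl) {o : ℝ} (ho : o = 1 ∨ o = -1) :
    ContDiff ℝ ∞ (g2 r tl o) := by
  rw [contDiff_iff_contDiffAt]
  intro l0
  by_cases hl : 4 * l0 < 3 / 4
  · have hev : ∀ᶠ l : ℝ in 𝓝 l0, 4 * l < 3 / 4 := by
      have hc : Continuous fun l : ℝ => 4 * l := by fun_prop
      exact hc.continuousAt.eventually (gt_mem_nhds hl)
    have heq : g2 r tl o =ᶠ[𝓝 l0] fun l => Vp r (rotl (hA o) (xT r tl (4 * l))) (rT (4 * l)) := by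
      filter_upwards [hev] with l hl'
      unfold g2
      rw [if_pos hl']
    refine ContDiffAt.congr_of_eventuallyEq ?_ heq
    have h1 : ContDiff ℝ ∞ fun q : ℂ × ℝ => rotl (hA o) q.1 := by
      have := rotl_smooth (H := fun _ t => hA o t) ((hA_smooth o).comp contDiff_snd) ?_ ?_
      · exact this
      · intro ρ t h
        rw [hA_in o (by linarith), hA_in o (by norm_num)]
      · intro ρ t h
        rw [hA_out o (by linarith)]
        exact TrA_int ho
    have h2 : ContDiff ℝ ∞ fun l : ℝ => xT r tl (4 * l) := (xT_smooth ht.smooth).comp (by fun_prop)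
    have h3 : ContDiff ℝ ∞ fun l : ℝ => rT (4 * l) := rT_smooth.comp (by fun_prop)
    have h4 : ContDiff ℝ ∞ fun l : ℝ => rotl (hA o) (xT r tl (4 * l)) :=
      h1.comp (h2.prodMk (contDiff_const (c := (0 : ℝ))))
    exact ((Vp_smooth r).comp (h4.prodMk h3)).contDiffAt
  · have hl' : 79 / 128 < 4 * l0 := by linarith
    have hev : ∀ᶠ l : ℝ in 𝓝 l0, 79 / 128 < 4 * l := by
      have hc : Continuous fun l : ℝ => 4 * l := by fun_prop
      exact hc.continuousAt.eventually (lt_mem_nhds hl')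
    have heq : g2 r tl o =ᶠ[𝓝 l0] gT r tl := by
      filter_upwards [hev] with l hl2
      exact g2_eq hr ht ho (Or.inr hl2.le)
    exact (gT_smooth ht.smooth).contDiffAt.congr_of_eventuallyEq heq

theorem g2_norm {r : ℕ} {tl : ℝ → ℝ × ℝ} {o l : ℝ} (h : |l| < 1 / 4) : ‖(g2 r tl o l).1‖ < 1 := by
  unfold g2
  rw [abs_lt] at h
  split_ifs with h1
  · have h2 := rT_gt (σ := 4 * l) (by linarith [h.1]) (by linarith [h.2])
    have h3 := rT_lt (σ := 4 * l) (by linarith [h.1]) (by linarith [h.2])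
    rw [Vp_norm r _ (by linarith)]
    exact h3
  · exact gT_norm (abs_lt.2 h)

theorem TrA_Ac (s : ℝ) : (Ac s - 5 / 16) * 64 = s := by
  unfold Ac
  ring

theorem TrA_xd (u : ℝ) (y : ℂ) (s : ℝ) : xd (ex u * y) s = ex u * xd y s := by
  unfold xd
  rw [norm_mul, Pool.Agent.RSG.ex_norm, one_mul]
  ring

theorem TrA_rd (u : ℝ) (y : ℂ) (s : ℝ) : rd (ex u * y) s = rd y s := by
  unfold rd
  rw [norm_mul, Pool.Agent.RSG.ex_norm, one_mul]

theorem TrA_nf (σ : ℝ) : 1 / 160000 ≤ nf σ ^ 2 ∧ nf σ < 1 / 2 ∧ 0 < nf σ := by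
  have h1 := nf_ge σ
  have h2 := nf_le σ
  unfold mu at h1 h2
  refine ⟨?_, by linarith, by linarith⟩
  have : (1 / 400 : ℝ) ≤ nf σ := by linarith
  nlinarith

theorem trA {r : ℕ} (hr : 1 ≤ r) {tl : ℝ → ℝ × ℝ} (ht : Tail r tl) {o : ℝ} (ho : o = 1 ∨ o = -1) :
    IsRtArc (de r) o (gT r tl) (g2 r tl o) := by
  refine ⟨?_, ?_⟩
  · intro l y s hl hy hs hMT
    obtain ⟨h1, h2, h3, h4, m, n, h5⟩ := off_main hr ht hl hy.le (by linarith) hMT
    obtain ⟨-, n2, n3⟩ := TrA_nf (4 * l)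
    have hR : Pool.Agent.RBM.Ro (o * Pool.Agent.RBM.gs s) y = ex (o * Pool.Agent.RBM.gs s) * y := by
      unfold Pool.Agent.RBM.Ro
      rw [Pool.Agent.CSG.stp_zero (by norm_num) (by rw [h4]; nlinarith), sub_zero, mul_one]
    rw [hR]
    have hs2 := abs_lt.1 hs
    have hA0 : 0 < Ac s := by
      unfold Ac
      linarith [hs2.1]
    have hA1 : Ac s < 1 / 2 := by
      unfold Ac
      linarith [hs2.2]
    have hy0 : y ≠ 0 := by
      rintro rfl
      rw [norm_zero] at h4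
      linarith
    have hxn : ‖xd y s‖ = Ac s := by
      rw [xd_out h3, norm_mul, Wn_norm hy0, mul_one, Complex.norm_real, Real.norm_eq_abs, abs_of_pos hA0]
    have hrot : rotl (hA o) (xd y s) = ex (o * Pool.Agent.RBM.gs s) * xd y s := by
      have h6 : ‖xd y s - ((0 : ℤ) + (0 : ℤ) * I)‖ < 1 / 2 := by
        simpa [hxn] using hA1
      rw [rotl_near _ h6]
      simp only [Int.cast_zero, zero_mul, add_zero, zero_add, sub_zero]
      rw [hxn]
      unfold hA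
      rw [TrA_Ac]
    have e1 : de r (ex (o * Pool.Agent.RBM.gs s) * y, s) =
        Vp r (ex (o * Pool.Agent.RBM.gs s) * xd y s) (rT (4 * l)) := by
      unfold de
      simp only
      rw [TrA_xd, TrA_rd, rd_out h3, rT_mid h1.le h2.le, h4]
    have e2 : g2 r tl o l =
        Vp r (ex (o * Pool.Agent.RBM.gs s) * xd y s + (m + n * I)) (rT (4 * l)) := by
      unfold g2
      rw [if_pos (by linarith), h5, rotl_add, hrot]
    rw [e1, e2]
    exact Vp_add r _ _ m n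
  · intro l hl hno
    by_cases h3 : 4 * l ≤ 17 / 128 ∨ 79 / 128 ≤ 4 * l
    · rw [g2_eq hr ht ho h3]
      exact ⟨0, by simp⟩
    · rw [not_or, not_le, not_le] at h3
      obtain ⟨h1, h2⟩ := h3
      obtain ⟨x, hx⟩ : ∃ x, x = xT r tl (4 * l) := ⟨_, rfl⟩
      have e0 : g2 r tl o l = Vp r (rotl (hA o) x) (rT (4 * l)) := by
        unfold g2
        rw [if_pos (by linarith), hx]
      have e1 : gT r tl l = Vp r x (rT (4 * l)) := by
        unfold gT
        rw [hx]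
      obtain ⟨m, n, hmn⟩ := nl_int x
      by_cases ht1 : ‖x - nl x‖ ≤ 5 / 16 - 1 / 512
      · rw [e0, e1, rotl_fix ⟨0, by rw [hA_in o ht1]; simp⟩]
        exact ⟨0, by simp⟩
      by_cases ht2 : 5 / 16 + 1 / 1024 ≤ ‖x - nl x‖
      · rw [e0, e1, rotl_fix (by rw [hA_out o ht2]; exact TrA_int ho)]
        exact ⟨0, by simp⟩
      rw [not_le] at ht1 ht2
      exfalso
      obtain ⟨w, hw⟩ : ∃ w, w = x - nl x := ⟨_, rfl⟩
      rw [← hw] at ht1 ht2
      obtain ⟨t, htw⟩ : ∃ t, t = ‖w‖ := ⟨_, rfl⟩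
      rw [← htw] at ht1 ht2
      have ht0 : 0 < t := by linarith
      obtain ⟨n1, n2, n3⟩ := TrA_nf (4 * l)
      have hyn : ‖((nf (4 * l) / t : ℝ) : ℂ) * w‖ = nf (4 * l) := by
        rw [norm_mul, Complex.norm_real, Real.norm_eq_abs, abs_of_pos (div_pos n3 ht0), ← htw,
          div_mul_cancel₀ _ ht0.ne']
      have hAt : Ac (64 * (t - 5 / 16)) = t := by
        unfold Ac
        ring
      refine hno (((nf (4 * l) / t : ℝ) : ℂ) * w) (64 * (t - 5 / 16)) (by rw [hyn]; linarith) ?_ ?_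
      · rw [abs_lt]
        constructor <;> linarith
      · have h7 : 1 / 160000 ≤ ‖((nf (4 * l) / t : ℝ) : ℂ) * w‖ ^ 2 := by
          rw [hyn]
          exact n1
        have e2 : de r (((nf (4 * l) / t : ℝ) : ℂ) * w, 64 * (t - 5 / 16)) = Vp r w (rT (4 * l)) := by
          unfold de
          simp only
          rw [xd_out h7, rd_out h7, rT_mid h1.le h2.le, hyn, hAt]
          congr 1
          unfold Wn
          rw [hyn]
          have a1 : (t : ℂ) ≠ 0 := by exact_mod_cast ht0.ne'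
          have a2 : ((nf (4 * l) : ℝ) : ℂ) ≠ 0 := by exact_mod_cast n3.ne'
          push_cast
          field_simp
        rw [e1, e2]
        have e3 : x = w + (m + n * I) := by
          rw [hw, hmn]
          ring
        rw [e3]
        exact Vp_add r _ _ m n

end Pool.Agent.B1X
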