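import Pool.Agent.B1X.TrA
import Pool.Agent.PTH.TArc

/-!
# B1X/TrB: the inner discs are rotated back   (difficulty 3)

`Am r x = (1/2 - x.re) + i (r x.re + x.im)`, a permutation of `ℂ` (inverse `X + iY ↦ (1/2 - X) + i (Y - r (1/2 - X))`) with
`Am (x + m + n i) = Am x + (-m) + (r m + n) i`; `Vp r x ρ = (ρ ex (Am x).re, (Am x).im)`.
`PTH.arcEq_tlift` with `φ ρ = Am ∘ rotE (hB o ρ) ∘ Am⁻¹`, `α' = 1/8`, `β' = 7/8` (`hB_zero`, `rotl_fix`), `rotl_smooth` (`H ρ = hB o ρ`, inverse: `-hB o ρ`), `rotl_add`.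
The hypothesis for `l`, `σ = 4 l`, `|σ| < 1`: second alternative with `ρ = rT σ ∈ (3/8, 1)`, `m = m' = 0`, `x = Am (x-coordinate of g2)`; to show:
`rotl (hB o ρ) (x-coordinate of g2) = xT r tl' σ`, `tl' = tn r (o nus) + tl`:
* `σ ≤ 1/32`: `xT = 0` for both tails (`K1`, also for `tl'` directly: `tl' σ = 0` since `nus σ = 1`, `tn r (± 1) = 0`), `rotl _ 0 = 0`.
* `1/32 < σ < 3/4`: `tl' σ = tl σ = 0`; `ρ = rT σ ≤ 13/16` (`rT_le`), `rotl_comp`, `hB_add`: the sum is `o`, an integer, `rotl_fix`.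
* `3/4 ≤ σ ≤ 7/8`: `g2 = gT`, `xT r tl σ = 2 - u1` (`K5`, `tl σ = 0`), `rT σ = σ`; `rotl_near` (`m = 2`): `2 + ex (hB o σ u1) (-u1)`, `hB o σ u1 = o nuf σ = o nus σ`
  (`hB_in`, `nuf_mid`).  `xT r tl' σ = (2 - u1 - tn₁) + i (tn₂ + r tn₁)` with `tn = (u1 (c - 1), -u1 s - (c - 1)/64)`, `c = cos (2 π α)`, `s = sin (2 π α)`, `α = o nus σ`,
  `r u1 = 1/64` (`u1_mul`): `= (2 - u1 c) + i (-u1 s) = 2 - u1 ex α` (`RSG.ex_re`, `RSG.ex_im`).
* `7/8 ≤ σ`: `hB o σ = 0`, `nus σ = 0`, `tn r 0 = 0`.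
(`tailT`: the new tail is again a tail: `avoid` at `σ ∈ (13/16, 7/8)`: `qp + tl' = (1/2 - re x, r re x + im x)` with `x = 2 - u1 ex α`; if this is an obstacle then
`re x` and `im x` are integers, but `0 < ‖x - 2‖ = u1 ≤ 1/64`.  For `σ ≥ 7/8` `tl' = tl`.)
-/

open scoped Manifold ContDiff Topology
open Set Filter
open Complex (I)
open Pool.Agent.RSG (ex)

namespace Pool.Agent.B1X

open Pool.Agent.PTH (ArcEq Obs)

universe u

/-- the new tail -/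
noncomputable def ntl (r : ℕ) (tl : ℝ → ℝ × ℝ) (o σ : ℝ) : ℝ × ℝ := tn r (o * nus σ) + tl σ

theorem TrB_left (r : ℕ) (tl : ℝ → ℝ × ℝ) {o : ℝ} (ho : o = 1 ∨ o = -1) {σ : ℝ} (h : σ ≤ 13 / 16) :
    ntl r tl o σ = tl σ := by
  unfold ntl tn
  rw [nus_left h, mul_one]
  have hc : Real.cos (2 * Real.pi * o) = 1 := by
    rcases ho with rfl | rfl
    · rw [mul_one, Real.cos_two_pi]
    · rw [mul_neg, mul_one, Real.cos_neg, Real.cos_two_pi]
  have hs : Real.sin (2 * Real.pi * o) = 0 := by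
    rcases ho with rfl | rfl
    · rw [mul_one, Real.sin_two_pi]
    · rw [mul_neg, mul_one, Real.sin_neg, Real.sin_two_pi, neg_zero]
  rw [hc, hs]
  refine Prod.ext ?_ ?_
  · simp
  · simp

theorem TrB_right (r : ℕ) (tl : ℝ → ℝ × ℝ) (o : ℝ) {σ : ℝ} (h : 7 / 8 ≤ σ) : ntl r tl o σ = tl σ := by
  unfold ntl tn
  rw [nus_right h, mul_zero, mul_zero, Real.cos_zero, Real.sin_zero]
  refine Prod.ext ?_ ?_
  · simp
  · simp

theorem TrB_smooth {r : ℕ} {tl : ℝ → ℝ × ℝ} (ht : ContDiff ℝ ∞ tl) (o : ℝ) : ContDiff ℝ ∞ (ntl r tl o) := by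
  have h1 : ContDiff ℝ ∞ fun σ => 2 * Real.pi * (o * nus σ) := contDiff_const.mul (contDiff_const.mul nus_smooth)
  have h2 : ContDiff ℝ ∞ fun σ => Real.cos (2 * Real.pi * (o * nus σ)) := Real.contDiff_cos.comp h1
  have h3 : ContDiff ℝ ∞ fun σ => Real.sin (2 * Real.pi * (o * nus σ)) := Real.contDiff_sin.comp h1
  have h4 : ContDiff ℝ ∞ fun σ => tn r (o * nus σ) := by
    unfold tn
    exact (contDiff_const.mul (h2.sub contDiff_const)).prodMk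
      ((contDiff_const.mul h3).sub (contDiff_const.mul (h2.sub contDiff_const)))
  exact h4.add ht

theorem TrB_int_zero {x : ℝ} {m : ℤ} (h : x = m) (h1 : |x| < 1) : x = 0 := by
  rw [h, abs_lt] at h1
  have h2 : (-1 : ℤ) < m := by exact_mod_cast h1.1
  have h3 : m < 1 := by exact_mod_cast h1.2
  have h4 : m = 0 := by omega
  rw [h, h4, Int.cast_zero]

theorem TrB_qp (r : ℕ) (hr : 1 ≤ r) {σ : ℝ} (h : 159 / 256 ≤ σ) :
    qp r σ = ((-(3 / 2) + u1 r, 2 * (r : ℝ) - 1 / 64) : ℝ × ℝ) := by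
  unfold qp
  rw [g1_right (by linarith), Uf_right r h, Vf_right (by linarith)]
  have := u1_mul hr
  refine Prod.ext ?_ ?_
  · show (1 / 2 - (2 - u1 r)) * 1 = -(3 / 2) + u1 r
    ring
  · show ((r : ℝ) * (2 - u1 r) + 0) * 1 = 2 * r - 1 / 64
    linarith

theorem tailT {r : ℕ} (hr : 1 ≤ r) {tl : ℝ → ℝ × ℝ} (ht : Tail r tl) (h0 : ∀ σ ≤ 7 / 8, tl σ = 0) {o : ℝ} (ho : o = 1 ∨ o = -1) :
    Tail r (ntl r tl o) := by
  refine ⟨TrB_smooth ht.smooth o, fun σ hσ => ?_, fun σ => ?_⟩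
  · rw [TrB_left r tl ho hσ, ht.zero σ hσ]
  · rcases le_or_gt σ (13 / 16) with h | h
    · rw [TrB_left r tl ho h]
      exact ht.avoid σ
    rcases le_or_gt (7 / 8) σ with h' | h'
    · rw [TrB_right r tl o h']
      exact ht.avoid σ
    have hu0 := u1_pos hr
    have hu1 := u1_le hr
    rintro ⟨m, n, hmn⟩
    unfold ntl tn at hmn
    rw [h0 σ h'.le, TrB_qp r hr (by linarith), add_zero] at hmn
    obtain ⟨c, hc⟩ : ∃ c, c = Real.cos (2 * Real.pi * (o * nus σ)) := ⟨_, rfl⟩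
    obtain ⟨s, hs⟩ : ∃ s, s = Real.sin (2 * Real.pi * (o * nus σ)) := ⟨_, rfl⟩
    rw [← hc, ← hs] at hmn
    have hcs : s ^ 2 + c ^ 2 = 1 := by rw [hc, hs]; exact Real.sin_sq_add_cos_sq _
    have hc1 : |c| ≤ 1 := by rw [hc]; exact Real.abs_cos_le_one _
    have hs1 : |s| ≤ 1 := by rw [hs]; exact Real.abs_sin_le_one _
    have e1 : -(3 / 2) + u1 r + u1 r * (c - 1) = (m : ℝ) + 1 / 2 := congrArg Prod.fst hmn
    have e2 : 2 * (r : ℝ) - 1 / 64 + (-u1 r * s - 1 / 64 * (c - 1)) = (n : ℝ) := congrArg Prod.snd hmn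
    have e3 : u1 r * c = ((m + 2 : ℤ) : ℝ) := by push_cast; linarith
    have e4 : u1 r * c = 0 := by
      refine TrB_int_zero e3 ?_
      rw [abs_mul, abs_of_pos hu0]
      have := mul_le_mul_of_nonneg_left hc1 hu0.le
      linarith
    have e5 : c = 0 := (mul_eq_zero.1 e4).resolve_left hu0.ne'
    rw [e5] at e2
    have e6 : u1 r * s = ((2 * (r : ℤ) - n : ℤ) : ℝ) := by push_cast; linarith
    have e7 : u1 r * s = 0 := by
      refine TrB_int_zero e6 ?_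
      rw [abs_mul, abs_of_pos hu0]
      have := mul_le_mul_of_nonneg_left hs1 hu0.le
      linarith
    have e8 : s = 0 := (mul_eq_zero.1 e7).resolve_left hu0.ne'
    rw [e5, e8] at hcs
    norm_num at hcs

/-- the change of coordinates -/
noncomputable def TrB_Am (r : ℕ) : Equiv.Perm ℂ where
  toFun x := ⟨1 / 2 - x.re, r * x.re + x.im⟩
  invFun z := ⟨1 / 2 - z.re, z.im - r * (1 / 2 - z.re)⟩
  left_inv x := by
    apply Complex.ext
    · simp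
    · simp
  right_inv z := by
    apply Complex.ext
    · simp
    · simp

theorem TrB_mk_smooth {E : Type*} [NormedAddCommGroup E] [NormedSpace ℝ E] {f g : E → ℝ} (hf : ContDiff ℝ ∞ f)
    (hg : ContDiff ℝ ∞ g) : ContDiff ℝ ∞ fun q => (⟨f q, g q⟩ : ℂ) := by
  have e : (fun q => (⟨f q, g q⟩ : ℂ)) = fun q => (f q : ℂ) + (g q : ℂ) * I := by
    funext q
    apply Complex.ext
    · simp
    · simp
  rw [e]
  exact (Complex.ofRealCLM.contDiff.comp hf).add ((Complex.ofRealCLM.contDiff.comp hg).mul contDiff_const)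

theorem TrB_Am_smooth (r : ℕ) : ContDiff ℝ ∞ (TrB_Am r) := by
  have h1 : ContDiff ℝ ∞ fun x : ℂ => x.re := Complex.reCLM.contDiff
  have h2 : ContDiff ℝ ∞ fun x : ℂ => x.im := Complex.imCLM.contDiff
  exact TrB_mk_smooth (contDiff_const.sub h1) ((contDiff_const.mul h1).add h2)

theorem TrB_Am_symm_smooth (r : ℕ) : ContDiff ℝ ∞ (TrB_Am r).symm := by
  have h1 : ContDiff ℝ ∞ fun x : ℂ => x.re := Complex.reCLM.contDiff
  have h2 : ContDiff ℝ ∞ fun x : ℂ => x.im := Complex.imCLM.contDiff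
  exact TrB_mk_smooth (contDiff_const.sub h1) (h2.sub (contDiff_const.mul (contDiff_const.sub h1)))

theorem TrB_Am_add (r : ℕ) (x : ℂ) (m n : ℤ) :
    TrB_Am r (x + (((-m : ℤ) : ℂ) + ((n + r * m : ℤ) : ℂ) * I)) = TrB_Am r x + (m + n * I) := by
  apply Complex.ext
  · show 1 / 2 - (x + (((-m : ℤ) : ℂ) + ((n + r * m : ℤ) : ℂ) * I)).re = (1 / 2 - x.re) + ((m : ℂ) + n * I).re
    simp
    ring
  · show (r : ℝ) * (x + (((-m : ℤ) : ℂ) + ((n + r * m : ℤ) : ℂ) * I)).re + (x + (((-m : ℤ) : ℂ) + ((n + r * m : ℤ) : ℂ) * I)).im =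
      (r * x.re + x.im) + ((m : ℂ) + n * I).im
    simp
    ring

theorem TrB_Am_symm_add (r : ℕ) (x : ℂ) (m n : ℤ) :
    (TrB_Am r).symm (x + (m + n * I)) = (TrB_Am r).symm x + (((-m : ℤ) : ℂ) + ((n + r * m : ℤ) : ℂ) * I) := by
  rw [Equiv.symm_apply_eq, TrB_Am_add, Equiv.apply_symm_apply]

theorem TrB_hB (o ρ : ℝ) : ∀ t, 3 / 8 ≤ t → ∃ k : ℤ, hB o ρ t = k := fun t ht =>
  ⟨0, by rw [hB_out o ρ (by linarith), Int.cast_zero]⟩

/-- the rotation in the coordinates `X + i Y` -/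
noncomputable def TrB_phi (r : ℕ) (o ρ : ℝ) : Equiv.Perm ℂ :=
  ((TrB_Am r).symm.trans (rotE (hB o ρ) (TrB_hB o ρ))).trans (TrB_Am r)

theorem TrB_phi_apply (r : ℕ) (o ρ : ℝ) (x : ℂ) :
    TrB_phi r o ρ x = TrB_Am r (rotl (hB o ρ) ((TrB_Am r).symm x)) := rfl

theorem TrB_phi_symm (r : ℕ) (o ρ : ℝ) (x : ℂ) :
    (TrB_phi r o ρ).symm x = TrB_Am r (rotl (fun t => -hB o ρ t) ((TrB_Am r).symm x)) := rfl

theorem TrB_rot_zero (h : ℝ → ℝ) : rotl h 0 = 0 := by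
  have e := rotl_near h (x := 0) (m := 0) (n := 0) (by simp)
  rw [e]
  simp

theorem TrB_key {r : ℕ} (hr : 1 ≤ r) {tl : ℝ → ℝ × ℝ} (ht : Tail r tl) (h0 : ∀ σ ≤ 7 / 8, tl σ = 0) {o : ℝ} (ho : o = 1 ∨ o = -1)
    {σ : ℝ} (hσ : |σ| < 1) :
    rotl (hB o (rT σ)) (if σ < 3 / 4 then rotl (hA o) (xT r tl σ) else xT r tl σ) = xT r (ntl r tl o) σ := by
  have hu0 := u1_pos hr
  have hu1 := u1_le hr
  obtain ⟨hσ1, hσ2⟩ := abs_lt.1 hσ
  have hoint : ∃ k : ℤ, o = k := by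
    rcases ho with rfl | rfl
    · exact ⟨1, by simp⟩
    · exact ⟨-1, by simp⟩
  rcases le_or_gt σ (1 / 32) with h1 | h1
  · rw [if_pos (by linarith), K1 ht h1, TrB_rot_zero, TrB_rot_zero, K1 (tailT hr ht h0 ho) h1]
  rcases lt_or_ge σ (3 / 4) with h2 | h2
  · rw [if_pos h2]
    have e1 : xT r (ntl r tl o) σ = xT r tl σ := by
      unfold xT
      rw [TrB_left r tl ho (by linarith)]
    rw [e1, rotl_comp (TrB_hB o (rT σ)) (fun t htt => ?_)]
    · refine rotl_fix ?_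
      obtain ⟨k, hk⟩ := hoint
      refine ⟨k, ?_⟩
      have h3 := rT_gt hσ1 hσ2
      have h4 := rT_le h1.le (show σ ≤ 13 / 16 by linarith)
      rw [hB_add o (by linarith) h4, hk]
    · obtain ⟨k, hk⟩ := hoint
      exact ⟨k, by rw [hA_out o (by linarith), hk]⟩
  rw [if_neg (not_lt.2 h2), rT_right h2]
  rcases le_or_gt σ (7 / 8) with h3 | h3
  · rw [K5 (by linarith) (h0 σ h3)]
    have hx : ‖((2 - u1 r : ℝ) : ℂ) - (((2 : ℤ) : ℂ) + ((0 : ℤ) : ℂ) * I)‖ = u1 r := by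
      have e : ((2 - u1 r : ℝ) : ℂ) - (((2 : ℤ) : ℂ) + ((0 : ℤ) : ℂ) * I) = ((-u1 r : ℝ) : ℂ) := by
        push_cast
        ring
      rw [e, Complex.norm_real, norm_neg, Real.norm_eq_abs, abs_of_pos hu0]
    rw [rotl_near (hB o σ) (m := 2) (n := 0) (by rw [hx]; linarith), hx, hB_in o σ (by linarith),
      nuf_mid (by linarith)]
    have hm := u1_mul hr
    unfold xT ntl tn
    rw [h0 σ h3, g1_right (by linarith), Uf_right r (by linarith), Vf_right (by linarith), add_zero]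
    have e : ((2 - u1 r : ℝ) : ℂ) - (((2 : ℤ) : ℂ) + ((0 : ℤ) : ℂ) * I) = ((-u1 r : ℝ) : ℂ) := by
      push_cast
      ring
    rw [e]
    apply Complex.ext
    · have : (ex (o * nus σ) * ((-u1 r : ℝ) : ℂ)).re = Real.cos (2 * Real.pi * (o * nus σ)) * (-u1 r) := by
        rw [Complex.mul_re, Complex.ofReal_re, Complex.ofReal_im, RSG.ex_re]
        ring
      rw [Complex.add_re, this]
      simp
      ring
    · have : (ex (o * nus σ) * ((-u1 r : ℝ) : ℂ)).im = Real.sin (2 * Real.pi * (o * nus σ)) * (-u1 r) := by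
        rw [Complex.mul_im, Complex.ofReal_re, Complex.ofReal_im, RSG.ex_im]
        ring
      rw [Complex.add_im, this]
      have e2 : (((2 : ℤ) : ℂ) + ((0 : ℤ) : ℂ) * I).im = 0 := by simp
      rw [e2]
      show 0 + Real.sin (2 * Real.pi * (o * nus σ)) * -u1 r =
        0 + (-u1 r * Real.sin (2 * Real.pi * (o * nus σ)) - 1 / 64 * (Real.cos (2 * Real.pi * (o * nus σ)) - 1)) +
          (r : ℝ) * (u1 r * (Real.cos (2 * Real.pi * (o * nus σ)) - 1))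
      have : (r : ℝ) * (u1 r * (Real.cos (2 * Real.pi * (o * nus σ)) - 1)) =
          1 / 64 * (Real.cos (2 * Real.pi * (o * nus σ)) - 1) := by
        rw [← mul_assoc, hm]
      rw [this]
      ring
  · rw [rotl_fix ⟨0, by rw [hB_zero o (Or.inr h3.le), Int.cast_zero]⟩]
    unfold xT
    rw [TrB_right r tl o h3.le]

theorem TrB_g2 (r : ℕ) (tl : ℝ → ℝ × ℝ) (o l : ℝ) :
    g2 r tl o l = Vp r (if 4 * l < 3 / 4 then rotl (hA o) (xT r tl (4 * l)) else xT r tl (4 * l)) (rT (4 * l)) := by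
  unfold g2
  split_ifs with h
  · rfl
  · rfl

theorem trB {r : ℕ} (hr : 1 ≤ r) {tl : ℝ → ℝ × ℝ} (ht : Tail r tl) (h0 : ∀ σ ≤ 7 / 8, tl σ = 0) {o : ℝ} (ho : o = 1 ∨ o = -1) :
    ArcEq.{u} (g2 r tl o) (gT r (ntl r tl o)) := by
  have hin : ∀ ρ t, t ≤ 1 / 4 → hB o ρ t = hB o ρ 0 := fun ρ t htt => by
    rw [hB_in o ρ (by linarith), hB_in o ρ (by norm_num)]
  have hs1 : ContDiff ℝ ∞ fun q : ℂ × ℝ => rotl (hB o q.2) q.1 :=
    rotl_smooth (hB_smooth o) hin (TrB_hB o)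
  have hs2 : ContDiff ℝ ∞ fun q : ℂ × ℝ => rotl (fun t => -hB o q.2 t) q.1 := by
    refine rotl_smooth (H := fun ρ t => -hB o ρ t) (hB_smooth o).neg (fun ρ t htt => ?_) (fun ρ t htt => ?_)
    · show -hB o ρ t = -hB o ρ 0
      rw [hin ρ t htt]
    · obtain ⟨k, hk⟩ := TrB_hB o ρ t htt
      exact ⟨-k, by show -hB o ρ t = _; rw [hk]; push_cast; ring⟩
  have hp : ContDiff ℝ ∞ fun q : ℂ × ℝ => (((TrB_Am r).symm q.1, q.2) : ℂ × ℝ) :=
    ((TrB_Am_symm_smooth r).comp contDiff_fst).prodMk contDiff_snd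
  refine PTH.arcEq_tlift (fun ρ => TrB_phi r o ρ) ?_ ?_ ?_ (α' := 1 / 8) (β' := 7 / 8) (by norm_num) (by norm_num) ?_ ?_
  · exact (TrB_Am_smooth r).comp (hs1.comp hp)
  · exact (TrB_Am_smooth r).comp (hs2.comp hp)
  · intro ρ x m n
    rw [TrB_phi_apply, TrB_phi_apply, TrB_Am_symm_add, rotl_add, TrB_Am_add]
  · intro ρ hρ x
    rw [TrB_phi_apply, rotl_fix ⟨0, by rw [hB_zero o hρ, Int.cast_zero]⟩, Equiv.apply_symm_apply]
  · intro l hl
    have hσ : |4 * l| < 1 := by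
      rw [abs_mul, abs_of_pos (by norm_num : (0 : ℝ) < 4)]
      linarith
    obtain ⟨hσ1, hσ2⟩ := abs_lt.1 hσ
    right
    have hk := TrB_key hr ht h0 ho hσ
    refine ⟨TrB_Am r (if 4 * l < 3 / 4 then rotl (hA o) (xT r tl (4 * l)) else xT r tl (4 * l)), rT (4 * l), 0, 0,
      ?_, rT_lt hσ1 hσ2, ?_, ?_⟩
    · have := rT_gt hσ1 hσ2
      linarith
    · rw [TrB_g2, Int.cast_zero, add_zero]
      rfl
    · rw [TrB_phi_apply, Equiv.symm_apply_apply, hk, Int.cast_zero, add_zero]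
      rfl

end Pool.Agent.B1X
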