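import Pool.Agent.B1X.KSt
import Pool.Agent.B1X.GxM

/-!
# B1X/Two: the arc in the ribbon box   (difficulty 2)

`ATwo (be r) (gT r tl) f1 f2 1 1`; `mu = 1/200000`.
* `deriv f1 = deriv f2 = 15/512`; `f1 (-1) = 17/512`, `f1 1 = 47/512`, `f2 (-1) = 49/512`, `f2 1 = 79/512`.
* `strand₁`: `σ = 4 f1 u = 1/4 + 15/128 u ∈ (17/128, 47/128)`, `K3`: `xT = 4 σ - 1/2 = τ` with `τ = 1/2 + 15/32 u` (`Vf_left`), `rT_mid`, `nf_first`:
  `nf σ = (999 + Sf τ) mu`.  `be r (1, u)`: `Y = cf τ - mu = (999 + Sf τ) mu > 0`, `Wn_pos`, `Gx_one`.  The two points are equal (`m = 0` in `MT`).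
* `strand₂`: `σ = 1/2 + 15/128 u ∈ (49/128, 79/128)`, `xT = 4 σ - 1/2 = 1 + τ` (`Vf_right`), `nf_second`; `Y = cf τ + mu = (1001 + Sf τ) mu`; `Vp_add` with `m = 1`.
* `off`: let `MT (be r (z, s)) (gT r tl l)`, `σ = 4 l`.  `Vp_inj`: `rT σ = rr (‖Y‖²) < 51/100` (`ribY_lt`) and `xT = Gx + (m + n i)`.  If `σ ≥ 13/16` then
  `rT σ = σ`, contradiction.  Otherwise `K_near` (the windows are the images of `|u| < 1`): `‖xT - k‖ ≤ 1/32`, contradiction to `Gx_far`.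
-/

open scoped Manifold ContDiff Topology
open Set Filter
open Complex (I)

namespace Pool.Agent.B1X

open Pool.Agent.SPR (MT ATwo)

/-- the nonnegativity of the radius of the ribbon -/
theorem Two_rr_pos (q : ℝ) (hq : 0 ≤ q) : 0 < rr q := by
  unfold rr; positivity

theorem two_off {r : ℕ} (hr : 1 ≤ r) {tl : ℝ → ℝ × ℝ} (ht : Tail r tl) {l : ℝ} (hl : |l| < 1 / 4)
    (h : ∀ u, |u| < 1 → l ≠ f1 u ∧ l ≠ f2 u) {z : ℂ} {s : ℝ} (hz : ‖z‖ < 5) (hs : |s| < 1) :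
    ¬ MT (be r (z, s)) (gT r tl l) := by
  intro hm
  rw [abs_lt] at hl hs
  set τ : ℝ := 1 / 2 + 15 / 32 * s with hτ
  set Y : ℂ := (cf τ : ℂ) - (mu : ℂ) * z with hY
  have hc := cf_ge τ
  have hc' := cf_le τ
  have hmu := mu_pos
  have hYlt : ‖Y‖ < 1006 * mu := ribY_lt (by linarith) hc' hz
  have hNW : NW (Wn Y) := nw_Wn hc hz
  have hτ1 : 1 / 32 < τ := by rw [hτ]; linarith
  have hτ2 : τ < 31 / 32 := by rw [hτ]; linarith
  have hσ1 : -1 < 4 * l := by linarith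
  have hσ2 : 4 * l < 1 := by linarith
  have hrT := rT_gt hσ1 hσ2
  have hbe : be r (z, s) = Vp r (Gx τ (Wn Y)) (rr (‖Y‖ ^ 2)) := rfl
  have hgT : gT r tl l = Vp r (xT r tl (4 * l)) (rT (4 * l)) := rfl
  rw [hbe, hgT] at hm
  obtain ⟨e1, m, n, e2⟩ := Vp_inj (Two_rr_pos _ (sq_nonneg _)) (by linarith) hm
  have hrr : rr (‖Y‖ ^ 2) < 51 / 100 := by
    unfold rr
    have h1 : ‖Y‖ ^ 2 ≤ (1006 * mu) ^ 2 := by
      have := norm_nonneg Y
      gcongr
    have h2 : (1006 * mu) ^ 2 < 1 / 1000 := by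
      unfold mu; norm_num
    linarith
  by_cases hσ : 13 / 16 ≤ 4 * l
  · have h3 := rT_right (σ := 4 * l) (by linarith)
    rw [h3] at e1
    linarith
  · push Not at hσ
    have w1 : ¬ (17 / 128 < 4 * l ∧ 4 * l < 47 / 128) := by
      rintro ⟨ha, hb⟩
      have hu : |(l - 1 / 16) / (15 / 512)| < 1 := by
        rw [abs_lt, lt_div_iff₀ (by norm_num), div_lt_iff₀ (by norm_num)]
        constructor <;> linarith
      refine (h _ hu).1 ?_
      unfold f1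
      field_simp
      ring
    have w2 : ¬ (49 / 128 < 4 * l ∧ 4 * l < 79 / 128) := by
      rintro ⟨ha, hb⟩
      have hu : |(l - 1 / 8) / (15 / 512)| < 1 := by
        rw [abs_lt, lt_div_iff₀ (by norm_num), div_lt_iff₀ (by norm_num)]
        constructor <;> linarith
      refine (h _ hu).2 ?_
      unfold f2
      field_simp
      ring
    obtain ⟨k, hk⟩ := K_near hr ht hσ.le w1 w2
    have h4 := Gx_far hNW hτ1 hτ2 (k - m) (-n)
    rw [e2] at hk
    have e3 : Gx τ (Wn Y) + (m + n * I) - (k : ℂ) = Gx τ (Wn Y) - (((k - m : ℤ) : ℂ) + ((-n : ℤ) : ℂ) * I) := by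
      push_cast; ring
    rw [e3] at hk
    linarith

theorem two {r : ℕ} (hr : 1 ≤ r) {tl : ℝ → ℝ × ℝ} (ht : Tail r tl) : ATwo (be r) (gT r tl) f1 f2 1 1 := by
  have hmu := mu_pos
  have hd1 : ∀ u, HasDerivAt f1 (15 / 512) u := by
    intro u
    have h1 : HasDerivAt (fun s : ℝ => 1 / 16 + 15 / 512 * s) (15 / 512 * 1) u :=
      ((hasDerivAt_id u).const_mul _).const_add _
    rw [mul_one] at h1
    exact h1
  have hd2 : ∀ u, HasDerivAt f2 (15 / 512) u := by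
    intro u
    have h1 : HasDerivAt (fun s : ℝ => 1 / 8 + 15 / 512 * s) (15 / 512 * 1) u :=
      ((hasDerivAt_id u).const_mul _).const_add _
    rw [mul_one] at h1
    exact h1
  refine ⟨?_, ?_, ?_, ?_, Or.inl rfl, Or.inl rfl, ?_, ?_, ?_, ?_, ?_, ?_⟩
  · exact contDiff_const.add (contDiff_const.mul contDiff_id)
  · exact contDiff_const.add (contDiff_const.mul contDiff_id)
  · intro u; rw [(hd1 u).deriv]; norm_num
  · intro u; rw [(hd2 u).deriv]; norm_num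
  · unfold f1; norm_num
  · unfold f1 f2; norm_num
  · unfold f2; norm_num
  · intro u hu
    rw [abs_lt] at hu
    rw [one_mul]
    set τ : ℝ := 1 / 2 + 15 / 32 * u with hτ
    have hσ : 4 * f1 u = 1 / 4 + 15 / 128 * u := by unfold f1; ring
    have h1 : 17 / 128 ≤ 4 * f1 u := by rw [hσ]; linarith
    have h2 : 4 * f1 u ≤ 47 / 128 := by rw [hσ]; linarith
    have hτσ : 4 * (4 * f1 u) - 1 / 2 = τ := by rw [hσ, hτ]; ring
    have hY : (cf τ : ℂ) - (mu : ℂ) * 1 = (((999 + Sf τ) * mu : ℝ) : ℂ) := by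
      unfold cf; push_cast; ring
    have hpos : 0 < (999 + Sf τ) * mu := by
      have := Sf_nonneg τ
      positivity
    have hbe : be r (1, u) = Vp r (Gx τ (Wn ((cf τ : ℂ) - (mu : ℂ) * 1))) (rr (‖(cf τ : ℂ) - (mu : ℂ) * 1‖ ^ 2)) := rfl
    have hgT : gT r tl (f1 u) = Vp r (xT r tl (4 * f1 u)) (rT (4 * f1 u)) := rfl
    refine ⟨0, ?_⟩
    rw [Int.cast_zero, hbe, hgT, hY, Wn_pos hpos, Gx_one, K3 ht h1 (by linarith),
      rT_mid h1 (by linarith), nf_first h2, hτσ, Vf_left (by linarith), Complex.norm_real,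
      Real.norm_eq_abs, sq_abs]
    simp only [Prod.mk_zero_zero, add_zero]
    rfl
  · intro u hu
    rw [abs_lt] at hu
    rw [one_mul]
    set τ : ℝ := 1 / 2 + 15 / 32 * u with hτ
    have hσ : 4 * f2 u = 1 / 2 + 15 / 128 * u := by unfold f2; ring
    have h1 : 49 / 128 ≤ 4 * f2 u := by rw [hσ]; linarith
    have h2 : 4 * f2 u ≤ 79 / 128 := by rw [hσ]; linarith
    have hτσ : 4 * (4 * f2 u) - 3 / 2 = τ := by rw [hσ, hτ]; ring
    have hY : (cf τ : ℂ) - (mu : ℂ) * (-1) = (((1001 + Sf τ) * mu : ℝ) : ℂ) := by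
      unfold cf; push_cast; ring
    have hpos : 0 < (1001 + Sf τ) * mu := by
      have := Sf_nonneg τ
      positivity
    have hbe : be r (-1, u) = Vp r (Gx τ (Wn ((cf τ : ℂ) - (mu : ℂ) * (-1)))) (rr (‖(cf τ : ℂ) - (mu : ℂ) * (-1)‖ ^ 2)) := rfl
    have hgT : gT r tl (f2 u) = Vp r (xT r tl (4 * f2 u)) (rT (4 * f2 u)) := rfl
    have hx : (⟨4 * (4 * f2 u) - 1 / 2, 0⟩ : ℂ) = (τ : ℂ) + (((1 : ℤ) : ℂ) + ((0 : ℤ) : ℂ) * I) := by
      apply Complex.ext
      · simp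
        linarith
      · simp
    rw [hbe, hgT, hY, Wn_pos hpos, Gx_one, K3 ht (by linarith) h2,
      rT_mid (by linarith) h2, nf_second h1, hτσ, Vf_right (by linarith), Complex.norm_real,
      Real.norm_eq_abs, sq_abs, hx]
    exact Vp_add r _ _ 1 0
  · intro l hl h z s hz hs
    exact two_off hr ht hl h hz hs

end Pool.Agent.B1X
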