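import Pool.Agent.B1X.TrB
import Pool.Agent.B1X.Rib
import Pool.Agent.B1X.Two
import Pool.Agent.B1X.Pcs
import Pool.Agent.B1X.Hpn
import Pool.Agent.SPR.LiB
import Pool.Agent.PTH.Repl

/-!
# B1X/Trn: the turn around the obstacle   (difficulty 1)

`SPR.arc_gt` with `β = be r`, `δ = de r` (`R = S = 3/2`), `γ₁ = γ = gT r tl`, `γ₂ = g2 r tl o`, `k = 2`, `θ = 0`, `m = 0` (`IsStep`; `Even (0 - 2)`),
`IsTwArc ... (fun _ => 0) γ γ` from `ATwo.strand₁, strand₂` (`ex 0 = 1`), `MT` is reflexive: `ArcEq (gT r tl) (g2 r tl o)`.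
Then `trB` and `ArcEq.trans` (middle arc `g2`: `g2_smooth`, `g2_norm`, and `g2_eq` near the ends): `ArcEq (gT r tl) (gT r (ntl r tl o))`.
Then `hpn` at both ends and twice `ArcEq.trans` (middle arcs `gT`: `gT_smooth`, `gT_norm`; near the ends `|σ| ≥ 3/4`: `arc (qp + tl) l = gT r tl l`, and for
`σ ≥ 7/8` the tails agree, for `σ ≤ -3/4` both are `(σ, 0)`).
-/

open scoped Manifold ContDiff Topology
open Set Filter
open Complex (I)
open Pool.Agent.RSG (ex)

namespace Pool.Agent.B1X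

open Pool.Agent.PTH (ArcEq PathEq)

universe u

theorem Trn_ex_half : ex (1 / 2) = -1 := by
  unfold ex
  have h : ((2 * Real.pi * (1 / 2) : ℝ) : ℂ) = (Real.pi : ℂ) := by push_cast; ring
  rw [h, Complex.exp_pi_mul_I]

theorem Trn_ex_zero : ex 0 = 1 := by
  unfold ex
  simp

/-- near the ends the arcs are equal -/
theorem Trn_end {r : ℕ} {tl : ℝ → ℝ × ℝ} (ht : Tail r tl) {l : ℝ}
    (h : 4 * l ≤ -(3 / 4) ∨ 3 / 4 ≤ 4 * l) :
    gT r tl l = Pool.Agent.PTH.arc (fun σ => qp r σ + tl σ) l := by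
  unfold gT Vp Pool.Agent.PTH.arc
  rcases h with h | h
  · have h1 : xT r tl (4 * l) = 0 := K1 ht (by linarith)
    have h2 : rT (4 * l) = -(4 * l) := rT_left h
    have h3 : g1 (4 * l) = 0 := g1_left (by linarith)
    have h4 : tl (4 * l) = 0 := ht.zero _ (by linarith)
    have h5 : qp r (4 * l) = 0 := by
      unfold qp
      rw [h3]
      simp
    rw [h1, h2]
    simp only [h4, h5, add_zero, Prod.fst_zero, Prod.snd_zero, Trn_ex_zero, Complex.zero_re,
      Complex.zero_im, sub_zero, mul_zero, Trn_ex_half]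
    refine Prod.ext ?_ rfl
    simp
  · have h2 : rT (4 * l) = 4 * l := rT_right h
    have h3 : g1 (4 * l) = 1 := g1_right (by linarith)
    rw [h2]
    have h5 : 1 / 2 - (xT r tl (4 * l)).re = (qp r (4 * l) + tl (4 * l)).1 := by
      unfold xT qp
      rw [h3]
      simp only [Prod.fst_add]
      ring
    have h6 : (r : ℝ) * (xT r tl (4 * l)).re + (xT r tl (4 * l)).im = (qp r (4 * l) + tl (4 * l)).2 := by
      unfold xT qp
      rw [h3]
      simp only [Prod.snd_add]
      ring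
    rw [h5, h6]

theorem Trn_abs {l ε : ℝ} (h1 : 1 / 4 - ε < |l|) : 4 * l ≤ -(1 - 4 * ε) ∨ 1 - 4 * ε ≤ 4 * l := by
  rcases abs_cases l with ⟨h3, -⟩ | ⟨h3, -⟩
  · right; linarith
  · left; linarith

theorem trn {r : ℕ} (hr : 1 ≤ r) {tl : ℝ → ℝ × ℝ} (ht : Tail r tl) (h0 : ∀ σ ≤ 7 / 8, tl σ = 0) {o : ℝ} (ho : o = 1 ∨ o = -1) :
    PathEq.{u} (fun σ => qp r σ + tl σ) (fun σ => qp r σ + ntl r tl o σ) := by
  have ht' := tailT hr ht h0 ho
  -- the full twist
  have htw : SPR.IsTwArc (be r) f1 f2 1 1 (fun _ => 0) (gT r tl) (gT r tl) := by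
    have h2 := two hr ht
    refine ⟨fun u hu => ?_, fun u hu => ?_, fun l _ _ => ⟨0, by simp⟩⟩
    · rw [Trn_ex_zero]
      exact h2.strand₁ u hu
    · rw [Trn_ex_zero]
      exact h2.strand₂ u hu
  have e1 : ArcEq.{u} (gT r tl) (g2 r tl o) :=
    SPR.arc_gt (k := 2) (m := 0) (θ := fun _ => 0) (rib_hbox r) (two hr ht) (cap_hbox r) (by norm_num)
      (by norm_num) (pcs hr ht) ho ⟨contDiff_const, fun _ _ => rfl, fun _ _ => by simp⟩
      (by norm_num) htw (trA hr ht ho)
  have e2 : ArcEq.{u} (gT r tl) (gT r (ntl r tl o)) := by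
    refine e1.trans (trB hr ht h0 ho) (g2_smooth hr ht ho).contDiffOn (fun l hl => g2_norm hl)
      ⟨1 / 16, by norm_num, fun l h1 h2 => ?_⟩
    have h3 : g2 r tl o l = gT r tl l := by
      apply g2_eq hr ht ho
      rcases Trn_abs h1 with h | h
      · left; linarith
      · right; linarith
    rw [h3]
    exact ⟨rfl, 0, by simp⟩
  have e3 : ArcEq.{u} (Pool.Agent.PTH.arc fun σ => qp r σ + tl σ) (gT r (ntl r tl o)) := by
    refine (hpn hr ht).trans e2 (gT_smooth ht.smooth).contDiffOn (fun l hl => gT_norm hl)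
      ⟨1 / 16, by norm_num, fun l h1 h2 => ?_⟩
    rw [Trn_end ht (by
      rcases Trn_abs h1 with h | h
      · left; linarith
      · right; linarith)]
    exact ⟨rfl, 0, by simp⟩
  refine e3.trans (hpn hr ht').symm (gT_smooth ht'.smooth).contDiffOn (fun l hl => gT_norm hl)
    ⟨1 / 32, by norm_num, fun l h1 h2 => ?_⟩
  have hcase := Trn_abs h1
  rw [Trn_end ht' (by
      rcases hcase with h | h
      · left; linarith
      · right; linarith)]
  have h5 : ntl r tl o (4 * l) = tl (4 * l) := by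
    rcases hcase with h | h
    · rw [ht'.zero _ (by linarith), ht.zero _ (by linarith)]
    · unfold ntl
      rw [nus_right (by linarith), mul_zero]
      have h6 : tn r 0 = 0 := by
        unfold tn
        simp
      rw [h6, zero_add]
  have h6 : Pool.Agent.PTH.arc (fun σ => qp r σ + ntl r tl o σ) l =
      Pool.Agent.PTH.arc (fun σ => qp r σ + tl σ) l := by
    unfold Pool.Agent.PTH.arc
    simp only [h5]
  rw [h6]
  exact ⟨rfl, 0, by simp⟩

end Pool.Agent.B1X
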