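import Pool.Agent.B1X.TrB
import Pool.Agent.PTH.Wrd
import Pool.Agent.PTH.Gap

/-!
# B1X/Wd1: the tails   (difficulty 2)

`tl0 r L σ`: `lmb = stp (29/32) (15/16)`: from `(-3/2 + u1, 2 r - 1/64)` to `(-1, 2 r)`, with a bump, then the word `L` (`15/16 ≤ σ ≤ 63/64`).
`qp r σ = (-3/2 + u1, 2 r - 1/64)` for `σ ≥ 159/256` (`Uf_right`, `Vf_right`, `g1 = 1`, `u1_mul`).
`pos_left`, `pos_seg` (PTH/Gap, PTH/Wrd), `bump (lmb) = 0` if `lmb = 0` or `1`.
* `tl0_tail`: `tl0 σ = 0` for `σ ≤ 29/32`.  `avoid`: `σ ≤ 1/32`: `(0, 0)`; `1/32 ≤ σ ≤ 1/16`: first coordinate `(1/2 - u1) g1 ∈ [0, 1/2)`; `1/16 ≤ σ ≤ 79/128`: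
  first coordinate `1/2 - Uf` with `0 < Uf < 2`, in `1/2 + ℤ` only if `Uf = 1`, then `σ = 3/8` (`Uf_pos`, `Uf_le`, `Uf_mid`) and the second coordinate is `r + Vf (3/8)` with
  `-1/128 ≤ Vf (3/8) < 0`, not an integer; `79/128 ≤ σ ≤ 15/16`: first coordinate `1/2 - Uf + lmb (1/2 - u1)`, which is in `(-3/2, -1]`
  (for `σ ≤ 29/32`: `63/32 ≤ Uf ≤ 2 - u1`; for `σ ≥ 29/32`: `-3/2 + (1 - lmb) u1 + lmb/2`); `15/16 ≤ σ`: `(-1, 2 r) + pos L (..)`, `(pos_seg L).avoid`, `PTH.obs_add'`.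
* `tl0_path`, `ntl_path`: `IsPath` with the end `(-1, 2 r) + sumZ L`; for `ntl` the point `avoid` is `tailT`; `ntl = tl0` for `σ ≥ 7/8` and `σ ≤ 13/16`.
* `tl0_split`: `qp + tl0 L = (qp + tl0 []) + pos L (|L| stp (15/16) (63/64))`, by definition.
-/

open scoped Manifold ContDiff Topology
open Set Filter
open Pool.Agent.CSG (stp)
open Pool.Agent.PTH (bump pos sumZ IsPath IsSeg Obs)

namespace Pool.Agent.B1X

noncomputable def tl0 (r : ℕ) (L : List (Bool × Bool)) (σ : ℝ) : ℝ × ℝ :=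
  lmb σ • ((1 / 2 - u1 r, 1 / 64) : ℝ × ℝ) + (0, bump (lmb σ)) + pos L (L.length * stp (15 / 16) (63 / 64) σ)

theorem Wd1_lmb_left {σ : ℝ} (h : σ ≤ 29 / 32) : lmb σ = 0 := CSG.stp_zero (by norm_num) h
theorem Wd1_lmb_right {σ : ℝ} (h : 15 / 16 ≤ σ) : lmb σ = 1 := CSG.stp_one (by norm_num) h
theorem Wd1_lmb_nonneg (σ : ℝ) : 0 ≤ lmb σ := CSG.stp_nonneg _ _ _
theorem Wd1_lmb_le (σ : ℝ) : lmb σ ≤ 1 := CSG.stp_le_one _ _ _

theorem qp_late (r : ℕ) (hr : 1 ≤ r) {σ : ℝ} (h : 159 / 256 ≤ σ) :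
    qp r σ = ((-(3 / 2) + u1 r, 2 * (r : ℝ) - 1 / 64) : ℝ × ℝ) := by
  unfold qp
  rw [g1_right (by linarith), Uf_right r h, Vf_right (by linarith)]
  have := u1_mul hr
  refine Prod.ext ?_ ?_
  · show (1 / 2 - (2 - u1 r)) * 1 = -(3 / 2) + u1 r
    ring
  · show ((r : ℝ) * (2 - u1 r) + 0) * 1 = 2 * r - 1 / 64
    linarith

theorem tl0_zero (r : ℕ) (L : List (Bool × Bool)) {σ : ℝ} (h : σ ≤ 29 / 32) : tl0 r L σ = 0 := by
  unfold tl0
  rw [Wd1_lmb_left h, CSG.stp_zero (by norm_num) (show σ ≤ 15 / 16 by linarith), mul_zero, PTH.pos_left L le_rfl,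
    PTH.bump_left le_rfl, zero_smul]
  simp

theorem Wd1_tl0_smooth (r : ℕ) (L : List (Bool × Bool)) : ContDiff ℝ ∞ (tl0 r L) := by
  have h1 : ContDiff ℝ ∞ lmb := CSG.stp_smooth _ _
  have h2 : ContDiff ℝ ∞ fun σ => bump (lmb σ) := PTH.bump_smooth.comp h1
  have h3 : ContDiff ℝ ∞ fun σ => pos L (L.length * stp (15 / 16) (63 / 64) σ) :=
    (PTH.pos_smooth L).comp (contDiff_const.mul (CSG.stp_smooth _ _))
  exact ((h1.smul contDiff_const).add (contDiff_const.prodMk h2)).add h3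

theorem Wd1_end {r : ℕ} (hr : 1 ≤ r) (L : List (Bool × Bool)) {σ : ℝ} (h : 15 / 16 ≤ σ) :
    qp r σ + tl0 r L σ = (((-1 : ℤ) : ℝ), ((2 * (r : ℤ) : ℤ) : ℝ)) + pos L (L.length * stp (15 / 16) (63 / 64) σ) := by
  unfold tl0
  rw [qp_late r hr (by linarith), Wd1_lmb_right h, PTH.bump_right le_rfl, one_smul, ← add_assoc]
  congr 1
  refine Prod.ext ?_ ?_
  · simp only [Prod.fst_add]
    push_cast
    ring
  · simp only [Prod.snd_add]
    push_cast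
    ring

theorem Wd1_not_obs {q : ℝ × ℝ} (h : ∀ m : ℤ, q.1 ≠ m + 1 / 2) : ¬ Obs q := by
  rintro ⟨m, n, hq⟩
  exact h m (by rw [hq])

theorem Wd1_half {x : ℝ} (a : ℤ) (h1 : (a : ℝ) - 1 / 2 < x) (h2 : x < a + 1 / 2) (m : ℤ) : x ≠ m + 1 / 2 := by
  rintro rfl
  have h3 : ((a : ℝ)) - 1 < m := by linarith
  have h4 : (m : ℝ) < a := by linarith
  have h5 : a - 1 < m := by exact_mod_cast h3
  have h6 : m < a := by exact_mod_cast h4
  omega

theorem Wd1_avoid {r : ℕ} (hr : 1 ≤ r) (L : List (Bool × Bool)) (σ : ℝ) : ¬ Obs (qp r σ + tl0 r L σ) := by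
  have hu0 := u1_pos hr
  have hu1 := u1_le hr
  rcases le_or_gt (15 / 16) σ with h | h
  · rw [Wd1_end hr L h, PTH.obs_add']
    exact (PTH.pos_seg L).avoid _
  rcases le_or_gt σ (1 / 16) with h1 | h1
  · rw [tl0_zero r L (by linarith), add_zero]
    refine Wd1_not_obs (Wd1_half 0 ?_ ?_)
    · show ((0 : ℤ) : ℝ) - 1 / 2 < (1 / 2 - Uf r σ) * g1 σ
      have h2 := g1_nonneg σ
      have h3 : Uf r σ = u1 r := Uf_left r (by linarith)
      have h4 : 0 ≤ (1 / 2 - Uf r σ) * g1 σ := mul_nonneg (by rw [h3]; linarith) h2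
      push_cast
      linarith
    · show (1 / 2 - Uf r σ) * g1 σ < ((0 : ℤ) : ℝ) + 1 / 2
      have h2 := g1_nonneg σ
      have h2' := g1_le σ
      have h3 : Uf r σ = u1 r := Uf_left r (by linarith)
      have h4 : (1 / 2 - Uf r σ) * g1 σ ≤ (1 / 2 - Uf r σ) * 1 := mul_le_mul_of_nonneg_left h2' (by rw [h3]; linarith)
      rw [h3] at h4 ⊢
      push_cast
      linarith
  have hg : g1 σ = 1 := g1_right h1.le
  rcases le_or_gt σ (79 / 128) with h2 | h2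
  · rw [tl0_zero r L (by linarith), add_zero]
    have e1 : qp r σ = (1 / 2 - Uf r σ, r * Uf r σ + Vf σ) := by
      unfold qp
      rw [hg, mul_one, mul_one]
    rw [e1]
    rintro ⟨m, n, hmn⟩
    have e2 : 1 / 2 - Uf r σ = (m : ℝ) + 1 / 2 := congrArg Prod.fst hmn
    have e3 : (r : ℝ) * Uf r σ + Vf σ = (n : ℝ) := congrArg Prod.snd hmn
    have e4 : Uf r σ = ((-m : ℤ) : ℝ) := by push_cast; linarith
    rcases le_or_gt σ (17 / 128) with h3 | h3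
    · have b1 := Uf_pos hr h3
      have b2 := Uf_le hr h3
      rw [e4] at b1 b2
      have c1 : (0 : ℤ) < -m := by exact_mod_cast b1
      have c2 : ((-m : ℤ) : ℝ) < 1 := by linarith
      have c3 : -m < (1 : ℤ) := by exact_mod_cast c2
      omega
    · have e5 := Uf_mid r h3.le h2
      rw [e4] at e5
      have c1 : (0 : ℝ) < ((-m : ℤ) : ℝ) := by rw [e5]; linarith
      have c2 : ((-m : ℤ) : ℝ) < 2 := by rw [e5]; linarith
      have c3 : (0 : ℤ) < -m := by exact_mod_cast c1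
      have c4 : -m < (2 : ℤ) := by exact_mod_cast c2
      have c5 : -m = 1 := by omega
      rw [c5] at e5 e4
      have e6 : σ = 3 / 8 := by
        push_cast at e5
        linarith
      have v1 : Vf σ < 0 := Vf_neg (by rw [e6]; norm_num) (by rw [e6]; norm_num)
      have v2 := Vf_ge σ
      rw [e4] at e3
      push_cast at e3
      have d1 : (n : ℝ) < r := by linarith
      have d2 : (r : ℝ) - 1 < n := by linarith
      have d3 : n < (r : ℤ) := by exact_mod_cast d1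
      have d4 : (r : ℤ) - 1 < n := by exact_mod_cast d2
      omega
  · have b1 := Uf_ge hr h2.le
    have b2 := Uf_lt hr h2.le
    have hp : pos L (L.length * stp (15 / 16) (63 / 64) σ) = 0 := by
      rw [CSG.stp_zero (by norm_num) h.le, mul_zero, PTH.pos_left L le_rfl]
    have l0 := Wd1_lmb_nonneg σ
    have l1 := Wd1_lmb_le σ
    have e1 : (qp r σ + tl0 r L σ).1 = 1 / 2 - Uf r σ + lmb σ * (1 / 2 - u1 r) := by
      unfold tl0 qp
      rw [hg, hp]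
      simp
    refine Wd1_not_obs (Wd1_half (-1) ?_ ?_)
    · rw [e1]
      push_cast
      rcases le_or_gt (29 / 32) σ with h3 | h3
      · rw [Uf_right r (by linarith)]
        have : 0 ≤ lmb σ * (1 / 2 - u1 r) := mul_nonneg l0 (by linarith)
        linarith
      · have : 0 ≤ lmb σ * (1 / 2 - u1 r) := mul_nonneg l0 (by linarith)
        linarith
    · rw [e1]
      push_cast
      have : lmb σ * (1 / 2 - u1 r) ≤ 1 * (1 / 2 - u1 r) := mul_le_mul_of_nonneg_right l1 (by linarith)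
      linarith

theorem tl0_tail {r : ℕ} (hr : 1 ≤ r) (L : List (Bool × Bool)) : Tail r (tl0 r L) :=
  ⟨Wd1_tl0_smooth r L, fun _ hσ => tl0_zero r L (hσ.trans (by norm_num)), Wd1_avoid hr L⟩

theorem Wd1_qp_smooth (r : ℕ) : ContDiff ℝ ∞ (qp r) := by
  have h1 := Uf_smooth r
  have h2 := Vf_smooth
  have h3 := g1_smooth
  unfold qp
  exact ((contDiff_const.sub h1).mul h3).prodMk (((contDiff_const.mul h1).add h2).mul h3)

theorem Wd1_qp_start (r : ℕ) {σ : ℝ} (h : σ ≤ 1 / 32) : qp r σ = (0, 0) := by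
  unfold qp
  rw [g1_left h, mul_zero, mul_zero]

theorem Wd1_stop {r : ℕ} (hr : 1 ≤ r) (L : List (Bool × Bool)) {σ : ℝ} (h : 63 / 64 ≤ σ) :
    qp r σ + tl0 r L σ = (((((-1, 2 * (r : ℤ)) + sumZ L : ℤ × ℤ)).1 : ℝ), ((((-1, 2 * (r : ℤ)) + sumZ L : ℤ × ℤ)).2 : ℝ)) := by
  rw [Wd1_end hr L (by linarith), CSG.stp_one (by norm_num) h, mul_one, (PTH.pos_seg L).stop _ le_rfl]
  refine Prod.ext ?_ ?_
  · simp
  · simp

theorem tl0_path {r : ℕ} (hr : 1 ≤ r) (L : List (Bool × Bool)) :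
    IsPath (fun σ => qp r σ + tl0 r L σ) ((-1, 2 * (r : ℤ)) + sumZ L) := by
  refine ⟨(Wd1_qp_smooth r).add (Wd1_tl0_smooth r L), ⟨1 / 32, by norm_num, fun σ hσ => ?_⟩,
    ⟨1 / 64, by norm_num, fun σ hσ => ?_⟩, Wd1_avoid hr L⟩
  · show qp r σ + tl0 r L σ = (0, 0)
    rw [tl0_zero r L (hσ.trans (by norm_num)), Wd1_qp_start r hσ, add_zero]
  · exact Wd1_stop hr L (by linarith)

theorem Wd1_ntl_left (r : ℕ) (tl : ℝ → ℝ × ℝ) {o : ℝ} (ho : o = 1 ∨ o = -1) {σ : ℝ} (h : σ ≤ 13 / 16) :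
    ntl r tl o σ = tl σ := by
  unfold ntl tn
  rw [nus_left h, mul_one]
  have hc : Real.cos (2 * Real.pi * o) = 1 := by
    rcases ho with rfl | rfl
    · rw [mul_one, Real.cos_two_pi]
    · rw [mul_neg, mul_one, Real.cos_neg, Real.cos_two_pi]
  have hs : Real.sin (2 * Real.pi * o) = 0 := by
    rcases ho with rfl | rfl
    · rw [mul_one, Real.sin_two_pi]
    · rw [mul_neg, mul_one, Real.sin_neg, Real.sin_two_pi, neg_zero]
  rw [hc, hs]
  refine Prod.ext ?_ ?_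
  · simp
  · simp

theorem Wd1_ntl_right (r : ℕ) (tl : ℝ → ℝ × ℝ) (o : ℝ) {σ : ℝ} (h : 7 / 8 ≤ σ) : ntl r tl o σ = tl σ := by
  unfold ntl tn
  rw [nus_right h, mul_zero, mul_zero, Real.cos_zero, Real.sin_zero]
  refine Prod.ext ?_ ?_
  · simp
  · simp

theorem ntl_path {r : ℕ} (hr : 1 ≤ r) (L : List (Bool × Bool)) {o : ℝ} (ho : o = 1 ∨ o = -1) :
    IsPath (fun σ => qp r σ + ntl r (tl0 r L) o σ) ((-1, 2 * (r : ℤ)) + sumZ L) := by
  have ht := tailT hr (tl0_tail hr L) (fun σ hσ => tl0_zero r L (hσ.trans (by norm_num))) ho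
  refine ⟨(Wd1_qp_smooth r).add ht.smooth, ⟨1 / 32, by norm_num, fun σ hσ => ?_⟩,
    ⟨1 / 64, by norm_num, fun σ hσ => ?_⟩, ht.avoid⟩
  · show qp r σ + ntl r (tl0 r L) o σ = (0, 0)
    rw [Wd1_ntl_left r _ ho (hσ.trans (by norm_num)), tl0_zero r L (hσ.trans (by norm_num)), Wd1_qp_start r hσ, add_zero]
  · show qp r σ + ntl r (tl0 r L) o σ = _
    rw [Wd1_ntl_right r _ o (by linarith)]
    exact Wd1_stop hr L (by linarith)

theorem Wd1_stop0 {r : ℕ} (hr : 1 ≤ r) {σ : ℝ} (h : 15 / 16 ≤ σ) :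
    qp r σ + tl0 r [] σ = ((((-1, 2 * (r : ℤ)) : ℤ × ℤ).1 : ℝ), (((-1, 2 * (r : ℤ)) : ℤ × ℤ).2 : ℝ)) := by
  rw [Wd1_end hr [] h]
  show _ + (0 : ℝ × ℝ) = _
  rw [add_zero]

/-- without the word -/
theorem tl0_seg {r : ℕ} (hr : 1 ≤ r) : IsSeg (fun σ => qp r σ + tl0 r [] σ) (15 / 16) (-1, 2 * (r : ℤ)) := by
  refine ⟨by norm_num, ((Wd1_qp_smooth r).add (Wd1_tl0_smooth r [])).continuous, fun σ hσ => ?_, fun σ hσ => ?_,
    Wd1_avoid hr []⟩
  · show qp r σ + tl0 r [] σ = (0, 0)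
    rw [tl0_zero r [] (hσ.trans (by norm_num)), Wd1_qp_start r (hσ.trans (by norm_num)), add_zero]
  · exact Wd1_stop0 hr hσ

theorem ntl_seg {r : ℕ} (hr : 1 ≤ r) {o : ℝ} (ho : o = 1 ∨ o = -1) :
    IsSeg (fun σ => qp r σ + ntl r (tl0 r []) o σ) (15 / 16) (-1, 2 * (r : ℤ)) := by
  have ht := tailT hr (tl0_tail hr []) (fun σ hσ => tl0_zero r [] (hσ.trans (by norm_num))) ho
  refine ⟨by norm_num, ((Wd1_qp_smooth r).add ht.smooth).continuous, fun σ hσ => ?_, fun σ hσ => ?_, ht.avoid⟩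
  · show qp r σ + ntl r (tl0 r []) o σ = (0, 0)
    rw [Wd1_ntl_left r _ ho (hσ.trans (by norm_num)), tl0_zero r [] (hσ.trans (by norm_num)),
      Wd1_qp_start r (hσ.trans (by norm_num)), add_zero]
  · show qp r σ + ntl r (tl0 r []) o σ = _
    rw [Wd1_ntl_right r _ o (by linarith)]
    exact Wd1_stop0 hr hσ

theorem tl0_split (r : ℕ) (L : List (Bool × Bool)) (σ : ℝ) :
    tl0 r L σ = tl0 r [] σ + pos L (L.length * stp (15 / 16) (63 / 64) σ) := by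
  unfold tl0
  show _ = _ + (0 : ℝ × ℝ) + _
  rw [add_zero]

end Pool.Agent.B1X
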