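import Pool.Agent.B1X.Fin
import Pool.Agent.SPR.CvW
import Pool.Agent.PTH.FourG
import Pool.Agent.PTH.FootB
import Pool.Agent.PTH.SymC

/-!
# B1X/Win: all the inputs of Theorem A for `Γ_F`
-/

namespace Pool.Agent.B1X

open Pool.Agent.PTH (Gam gam_shear gam_shear' fx_mem four_mem)

universe u

/-- **All the inputs of Theorem A.** -/
theorem win_gam : CSW.WIn Gam.{u} where
  shear := gam_shear
  shear' := gam_shear'
  x := fx_mem
  four := four_mem
  b1 := b1
  b2e := SPR.win_b2e
  b2o := SPR.win_b2o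
  b2o' := SPR.win_b2o'

end Pool.Agent.B1X
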